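import Pool.Agent.N879.QM.AllB

/-! The replacement of the `L`-functions by short polynomials with arbitrary bounded weights. -/

set_option autoImplicit false

namespace Pool.Agent.J4.H50.EA

open Complex Filter Topology MeasureTheory Set
open Pool.Agent.N879.QM

noncomputable section

variable {k : ℕ}

/-- the first mean square -/
lemma E1W (hP : S_P1) (hO : S_OPB) (hT : S_TEL) (hc : S_CTS) (hk : 1 ≤ k) {θ η : ℝ} (hθ : 0 < θ) (hθ1 : θ ≤ 1)
    (hη : 0 < η) (hη1 : η ≤ θ / 4) :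
    ∃ C X₀ : ℝ, 0 < C ∧ ∀ (s : ℤ) (X : ℝ) (N : ℕ) (c : ℕ → ℂ), (∀ q, ‖c q‖ ≤ 1) → s = 1 ∨ s = -1 → X₀ ≤ X → X ^ η / 2 ≤ N →
      (N : ℝ) ≤ X ^ η → 1 ≤ N →
      ∫⁻ β, ENNReal.ofReal (‖∑ q ∈ Q s X \ Ex s X (X ^ θ) (η / (8 * k)),
        c q * (∏ j, LL s q (pt (β j)) - ∏ j, PN s q N (β j))‖ ^ 2) ∂(mS k (X ^ θ)) ≤
        ENNReal.ofReal (C * X ^ (k * θ + 2 - η / 4)) := by
  classical
  have hk0 : (0 : ℝ) < k := by exact_mod_cast hk
  set ρ : ℝ := η / (8 * k) with hρ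
  have hρ0 : 0 < ρ := by positivity
  obtain ⟨CO, hCO, hO⟩ := hO ρ hρ0
  obtain ⟨CP, hCP, hP⟩ := hP
  have ev1 := log_small 1 hθ hρ0
  have ev2 : ∀ᶠ X : ℝ in atTop, 2 ≤ X ^ θ := (tendsto_rpow_atTop hθ).eventually_ge_atTop _
  obtain ⟨X₀, hX₀⟩ := eventually_atTop.1 ((ev1.and ev2).and (eventually_ge_atTop 2))
  refine ⟨4 ^ k * CO * (1 + CP) ^ (k - 1) * 4, X₀, by positivity, ?_⟩
  intro s X N c0' hc0' hs hX hN hNX hN1
  obtain ⟨w, hw⟩ : ∃ w : ℕ → ℂ, ∀ q, w q ^ k = c0' q := by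
    choose w hw using fun q => IsAlgClosed.exists_pow_nat_eq (c0' q) (by omega : 0 < k)
    exact ⟨w, hw⟩
  have hw1 : ∀ q, ‖w q‖ ≤ 1 := by
    intro q
    have h1 : ‖w q‖ ^ k ≤ 1 := by
      rw [← norm_pow, hw q]
      exact hc0' q
    by_contra hcon
    push Not at hcon
    have := one_lt_pow₀ hcon (by omega : k ≠ 0)
    linarith
  obtain ⟨⟨v1, v2⟩, v3⟩ := hX₀ X hX
  have hX0 : 0 < X := by linarith
  have hX1 : 1 ≤ X := by linarith
  set A : ℝ := X ^ θ with hA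
  have hAX : A ≤ X := by
    rw [hA]
    calc X ^ θ ≤ X ^ (1 : ℝ) := Real.rpow_le_rpow_of_exponent_le hX1 hθ1
      _ = X := Real.rpow_one X
  have hA0 : 0 < A := by linarith
  have hN0 : (0 : ℝ) < N := by exact_mod_cast hN1
  have hNA : (N : ℝ) ≤ A := by
    refine hNX.trans ?_
    apply Real.rpow_le_rpow_of_exponent_le hX1
    linarith
  set d : ℝ := θ / 6 with hd
  set K0 : ℝ := CO * X ^ ρ * A * (X / √N + X ^ (1 + d) * A ^ (-(1 / 3) : ℝ) + X ^ (1 - d)) with hK0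
  set V0 : ℝ := (1 + CP) * (A * X ^ ρ) with hV0
  have hK0' : 0 ≤ K0 := by positivity
  have hV0' : 0 ≤ V0 := by positivity
  set D : Finset ℕ := Q s X \ Ex s X A ρ with hD
  have hDQ : D ⊆ Q s X := Finset.sdiff_subset
  have hlogA : Real.log A ≤ X ^ ρ := by
    rw [hA, Real.log_rpow hX0]
    simpa using v1
  have h1 := hT k D (fun q α => w q * LL s q (pt α)) (fun q α => w q * PN s q N α) A K0 V0 hA0 hK0' hV0'
    (fun q hq => continuous_const.mul (hc s q (Q_is (hDQ hq)).1)) (fun q _ => continuous_const.mul (PN_cont s q N))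
    (fun c => by
      have h2 := hO s X A d N (fun q => if q ∈ D then c q * w q else 0) hs v2 hAX (by positivity) (by rw [hd]; linarith) hN1
      have e1 : ∀ α : ℝ, ∑ q ∈ Q s X, (if q ∈ D then c q * w q else 0) * (LL s q (pt α) - PN s q N α) =
          ∑ q ∈ D, c q * (w q * LL s q (pt α) - w q * PN s q N α) := by
        intro α
        rw [← Finset.sum_subset hDQ (fun q _ hq => by rw [if_neg hq, zero_mul])]
        exact Finset.sum_congr rfl fun q hq => by rw [if_pos hq]; ring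
      have e2 : ∑ q ∈ Q s X, ‖(if q ∈ D then c q * w q else 0)‖ ^ 2 ≤ ∑ q ∈ D, ‖c q‖ ^ 2 := by
        rw [← Finset.sum_subset hDQ (fun q _ hq => by rw [if_neg hq]; simp)]
        refine Finset.sum_le_sum fun q hq => ?_
        rw [if_pos hq, norm_mul]
        refine pow_le_pow_left₀ (by positivity) ?_ 2
        exact mul_le_of_le_one_right (norm_nonneg _) (hw1 q)
      simp only [e1] at h2
      exact h2.trans (mul_le_mul_of_nonneg_left e2 hK0'))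
    (fun q hq => by
      have h2 : ¬ (A * X ^ ρ < ∫ α in (-A)..A, ‖LL s q (pt α)‖ ^ 2) := by
        intro h3
        exact (Finset.mem_sdiff.1 hq).2 (Finset.mem_filter.2 ⟨hDQ hq, h3⟩)
      have h3 : ∫ α in (-A)..A, ‖w q * LL s q (pt α)‖ ^ 2 ≤ ∫ α in (-A)..A, ‖LL s q (pt α)‖ ^ 2 := by
        have hcc := hc s q (Q_is (hDQ hq)).1
        refine intervalIntegral.integral_mono_on (by linarith)
          (((continuous_const.mul hcc).norm.pow 2).intervalIntegrable _ _) ((hcc.norm.pow 2).intervalIntegrable _ _)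
          fun α _ => ?_
        rw [norm_mul]
        exact pow_le_pow_left₀ (by positivity) (mul_le_of_le_one_left (norm_nonneg _) (hw1 q)) 2
      refine (h3.trans (not_lt.1 h2)).trans ?_
      rw [hV0]
      have : 0 ≤ CP * (A * X ^ ρ) := by positivity
      linarith)
    (fun q hq => by
      have h2 := (hP A N (fun n => vl s q n) v2 hNA (fun n => vl_le s q n)).2
      have h3 : ∫ α in (-A)..A, ‖w q * PN s q N α‖ ^ 2 ≤ ∫ α in (-A)..A, ‖PN s q N α‖ ^ 2 := by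
        have hcc := PN_cont s q N
        refine intervalIntegral.integral_mono_on (by linarith)
          (((continuous_const.mul hcc).norm.pow 2).intervalIntegrable _ _) ((hcc.norm.pow 2).intervalIntegrable _ _)
          fun α _ => ?_
        rw [norm_mul]
        exact pow_le_pow_left₀ (by positivity) (mul_le_of_le_one_left (norm_nonneg _) (hw1 q)) 2
      refine le_trans (h3.trans h2) ?_
      rw [hV0]
      have h3 : CP * A * Real.log A ≤ CP * A * X ^ ρ := mul_le_mul_of_nonneg_left hlogA (by positivity)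
      have : 0 ≤ A * X ^ ρ := by positivity
      linarith)
  have hrw : ∀ β : Fin k → ℝ, ∑ q ∈ D, (∏ j, (fun q α => w q * LL s q (pt α)) q (β j) -
      ∏ j, (fun q α => w q * PN s q N α) q (β j)) =
      ∑ q ∈ D, c0' q * (∏ j, LL s q (pt (β j)) - ∏ j, PN s q N (β j)) := by
    intro β
    refine Finset.sum_congr rfl fun q _ => ?_
    simp only [Finset.prod_mul_distrib, Finset.prod_const, Finset.card_univ, Fintype.card_fin, hw q]
    ring
  simp only [hrw] at h1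
  refine h1.trans (ENNReal.ofReal_le_ofReal ?_)
  -- numbers
  have e1 : X / √N ≤ 2 * X ^ (1 - η / 2) := by
    have h2 : √(X ^ η / 2) ≤ √N := Real.sqrt_le_sqrt hN
    have h4 : X ^ (η / 2) / 2 ≤ √(X ^ η / 2) := by
      apply Real.le_sqrt_of_sq_le
      have h5 : (X ^ (η / 2)) ^ 2 = X ^ η := by
        rw [← Real.rpow_natCast, ← Real.rpow_mul hX0.le]
        congr 1
        push_cast; linarith
      have : (X ^ (η / 2) / 2) ^ 2 = (X ^ (η / 2)) ^ 2 / 4 := by ring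
      rw [this, h5]
      have : 0 < X ^ η := by positivity
      linarith
    have h3 : 0 < X ^ (η / 2) := by positivity
    rw [div_le_iff₀ (by linarith)]
    have h6 : X = X ^ (1 - η / 2) * X ^ (η / 2) := by
      rw [← Real.rpow_add hX0]; ring_nf; exact (Real.rpow_one X).symm
    have h7 : 0 < X ^ (1 - η / 2) := by positivity
    calc X = 2 * X ^ (1 - η / 2) * (X ^ (η / 2) / 2) := by rw [mul_assoc]; nth_rewrite 1 [h6]; ring
      _ ≤ 2 * X ^ (1 - η / 2) * √N := by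
          apply mul_le_mul_of_nonneg_left _ (by positivity)
          linarith
  have e2 : X ^ (1 + d) * A ^ (-(1 / 3) : ℝ) ≤ X ^ (1 - η / 2) := by
    rw [hA, ← Real.rpow_mul hX0.le, ← Real.rpow_add hX0]
    apply Real.rpow_le_rpow_of_exponent_le hX1
    rw [hd]; linarith
  have e3 : X ^ (1 - d) ≤ X ^ (1 - η / 2) := by
    apply Real.rpow_le_rpow_of_exponent_le hX1
    rw [hd]; linarith
  have e4 : X / √N + X ^ (1 + d) * A ^ (-(1 / 3) : ℝ) + X ^ (1 - d) ≤ 4 * X ^ (1 - η / 2) := by linarith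
  have hAk : A ^ k = X ^ (k * θ) := by
    rw [hA, ← Real.rpow_natCast, ← Real.rpow_mul hX0.le]
    congr 1; ring
  have e5 : K0 * V0 ^ (k - 1) ≤ CO * (1 + CP) ^ (k - 1) * (X ^ (k * θ) * (X ^ ρ) ^ k) * (4 * X ^ (1 - η / 2)) := by
    have h2 : X ^ (k * θ) * (X ^ ρ) ^ k = A * X ^ ρ * (A * X ^ ρ) ^ (k - 1) := by
      rw [← hAk, ← mul_pow, ← pow_succ']; congr 1; omega
    rw [hK0, hV0, mul_pow, h2]
    have : CO * X ^ ρ * A * (X / √N + X ^ (1 + d) * A ^ (-(1 / 3) : ℝ) + X ^ (1 - d)) *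
        ((1 + CP) ^ (k - 1) * (A * X ^ ρ) ^ (k - 1)) =
      CO * (1 + CP) ^ (k - 1) * (A * X ^ ρ * (A * X ^ ρ) ^ (k - 1)) *
        (X / √N + X ^ (1 + d) * A ^ (-(1 / 3) : ℝ) + X ^ (1 - d)) := by ring
    rw [this]
    exact mul_le_mul_of_nonneg_left e4 (by positivity)
  have e6 : (X ^ ρ) ^ k = X ^ (η / 8) := by
    rw [← Real.rpow_natCast, ← Real.rpow_mul hX0.le]
    congr 1
    rw [hρ]
    field_simp
  have e7 : (D.card : ℝ) ≤ X := le_trans (by exact_mod_cast Finset.card_le_card hDQ) (Q_card hX1)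
  have e8 : X ^ (k * θ) * X ^ (η / 8) * X ^ (1 - η / 2) * X ≤ X ^ (k * θ + 2 - η / 4) := by
    nth_rewrite 4 [← Real.rpow_one X]
    rw [← Real.rpow_add hX0, ← Real.rpow_add hX0, ← Real.rpow_add hX0]
    apply Real.rpow_le_rpow_of_exponent_le hX1
    linarith
  calc 4 ^ k * K0 * V0 ^ (k - 1) * (D.card : ℝ) = 4 ^ k * (K0 * V0 ^ (k - 1)) * (D.card : ℝ) := by ring
    _ ≤ 4 ^ k * (CO * (1 + CP) ^ (k - 1) * (X ^ (k * θ) * (X ^ ρ) ^ k) * (4 * X ^ (1 - η / 2))) * X := by gcongr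
    _ = 4 ^ k * CO * (1 + CP) ^ (k - 1) * 4 * (X ^ (k * θ) * X ^ (η / 8) * X ^ (1 - η / 2) * X) := by
        rw [e6]; ring
    _ ≤ _ := mul_le_mul_of_nonneg_left e8 (by positivity)


/-- the removed part, with weights -/
lemma RMW (h : S_P1) (k : ℕ) : ∃ C : ℝ, 0 < C ∧ ∀ (s : ℤ) (A : ℝ) (N : ℕ) (E : Finset ℕ) (c : ℕ → ℂ),
    (∀ q, ‖c q‖ ≤ 1) → 2 ≤ A → 1 ≤ N → (N : ℝ) ≤ A →
    ∫⁻ β, ENNReal.ofReal (‖∑ q ∈ E, c q * ∏ j, PN s q N (β j)‖ ^ 2) ∂(mS k A) ≤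
      ENNReal.ofReal (C * A ^ k * Real.log A ^ k * (E.card : ℝ) ^ 2) := by
  obtain ⟨C, hC, hP⟩ := h
  refine ⟨C ^ k, by positivity, fun s A N E c hc hA hN hNA => ?_⟩
  have hlog : 0 ≤ Real.log A := Real.log_nonneg (by linarith)
  obtain ⟨V, hV⟩ : ∃ V, V = C * A * Real.log A := ⟨_, rfl⟩
  have hV0 : 0 ≤ V := by rw [hV]; positivity
  have h1 : ∀ q, ∫⁻ y, ENNReal.ofReal (‖PN s q N y‖ ^ 2) ∂(volume.restrict (Icc (-A) A)) ≤
      ENNReal.ofReal V := by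
    intro q
    have hc0 := PN_cont s q N
    have hc1 : Continuous fun y => ‖PN s q N y‖ ^ 2 := by fun_prop
    rw [Tel.lint1 (h := fun y => ‖PN s q N y‖ ^ 2) (by linarith) hc1 (fun y => sq_nonneg _)]
    refine ENNReal.ofReal_le_ofReal ?_
    rw [hV]
    exact (hP A N (fun n => vl s q n) hA hNA (fun n => vl_le s q n)).2
  have h2 : ∀ q, ∫⁻ γ, ENNReal.ofReal (‖∏ i, PN s q N (γ i)‖ ^ 2) ∂(mS k A) ≤
      ENNReal.ofReal (V ^ k) := fun q => Tel.pmom hV0 (PN_cont s q N) (h1 q) k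
  have hm : ∀ q, Measurable fun β : Fin k → ℝ => ‖∏ j, PN s q N (β j)‖ ^ 2 := by
    intro q
    have hc0 := PN_cont s q N
    have hc1 : Continuous fun β : Fin k → ℝ => ‖∏ j, PN s q N (β j)‖ ^ 2 := by fun_prop
    exact hc1.measurable
  have h3 := Tel.wsum (mS k A) E (fun _ => 1) (fun q β => ‖∏ j, PN s q N (β j)‖ ^ 2)
    (B := (E.card : ℝ)) (C := V ^ k) (Nat.cast_nonneg _) (fun _ _ => zero_le_one)
    (fun _ _ _ => sq_nonneg _) hm (by positivity) (fun q _ => h2 q)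
  have h4 : ∫⁻ β, ENNReal.ofReal (‖∑ q ∈ E, c q * ∏ j, PN s q N (β j)‖ ^ 2) ∂(mS k A) ≤
      ∫⁻ β, ENNReal.ofReal ((E.card : ℝ) * ∑ q ∈ E, 1 * ‖∏ j, PN s q N (β j)‖ ^ 2) ∂(mS k A) := by
    refine lintegral_mono fun β => ENNReal.ofReal_le_ofReal ?_
    refine (Rmvaux.cauchy E fun q => c q * ∏ j, PN s q N (β j)).trans ?_
    refine mul_le_mul_of_nonneg_left (Finset.sum_le_sum fun q _ => ?_) (Nat.cast_nonneg _)
    rw [one_mul, one_mul, norm_mul]
    exact pow_le_pow_left₀ (by positivity) (mul_le_of_le_one_left (norm_nonneg _) (hc q)) 2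
  have h5 : (E.card : ℝ) * V ^ k * ∑ q ∈ E, (1 : ℝ) =
      C ^ k * A ^ k * Real.log A ^ k * (E.card : ℝ) ^ 2 := by
    rw [hV, Finset.sum_const, nsmul_eq_mul, mul_one, mul_pow, mul_pow]
    ring
  rw [← h5]
  exact h4.trans h3

/-- the removed discriminants -/
lemma E2W (hMB : S_MB) (hP : S_P1) {θ ρ : ℝ} (hθ : 0 < θ) (hθ1 : θ ≤ 1) (hρ : 0 < ρ) :
    ∃ C X₀ : ℝ, 0 < C ∧ ∀ (s : ℤ) (X : ℝ) (N : ℕ) (c : ℕ → ℂ), (∀ q, ‖c q‖ ≤ 1) → s = 1 ∨ s = -1 → X₀ ≤ X →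
      (N : ℝ) ≤ X ^ θ → 1 ≤ N →
      ∫⁻ β, ENNReal.ofReal (‖∑ q ∈ Ex s X (X ^ θ) ρ, c q * ∏ j, PN s q N (β j)‖ ^ 2) ∂(mS k (X ^ θ)) ≤
        ENNReal.ofReal (C * X ^ (k * θ + 2 - ρ / 2)) := by
  classical
  obtain ⟨CE, hCE, hEx⟩ := Ex_card hMB hρ
  obtain ⟨CR, hCR, hR⟩ := RMW hP k
  have ev1 := log_small k hθ (show 0 < ρ / 2 by positivity)
  have ev2 : ∀ᶠ X : ℝ in atTop, 2 ≤ X ^ θ := (tendsto_rpow_atTop hθ).eventually_ge_atTop _
  obtain ⟨X₀, hX₀⟩ := eventually_atTop.1 ((ev1.and ev2).and (eventually_ge_atTop 2))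
  refine ⟨CR * CE ^ 2, X₀, by positivity, ?_⟩
  intro s X N c hc hs hX hN hN1
  obtain ⟨⟨v1, v2⟩, v3⟩ := hX₀ X hX
  have hX0 : 0 < X := by linarith
  have hX1 : 1 ≤ X := by linarith
  set A : ℝ := X ^ θ with hA
  have hAX : A ≤ X := by
    rw [hA]
    calc X ^ θ ≤ X ^ (1 : ℝ) := Real.rpow_le_rpow_of_exponent_le hX1 hθ1
      _ = X := Real.rpow_one X
  have hA0 : 0 < A := by linarith
  refine (hR s A N (Ex s X A ρ) c hc v2 hN1 hN).trans (ENNReal.ofReal_le_ofReal ?_)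
  have hAk : A ^ k = X ^ (k * θ) := by
    rw [hA, ← Real.rpow_natCast, ← Real.rpow_mul hX0.le]
    congr 1; ring
  have h1 : Real.log A ^ k ≤ X ^ (ρ / 2) := by
    rw [hA, Real.log_rpow hX0]
    exact v1
  have h2 : ((Ex s X A ρ).card : ℝ) ^ 2 ≤ (CE * X ^ (1 - ρ / 2)) ^ 2 :=
    pow_le_pow_left₀ (Nat.cast_nonneg _) (hEx s X A hs v2 hAX) 2
  have h3 : 0 ≤ Real.log A := Real.log_nonneg (by linarith)
  calc CR * A ^ k * Real.log A ^ k * ((Ex s X A ρ).card : ℝ) ^ 2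
      ≤ CR * X ^ (k * θ) * X ^ (ρ / 2) * (CE * X ^ (1 - ρ / 2)) ^ 2 := by
        rw [hAk]
        gcongr
    _ = CR * CE ^ 2 * (X ^ (k * θ) * X ^ (ρ / 2) * (X ^ (1 - ρ / 2)) ^ 2) := by ring
    _ = CR * CE ^ 2 * X ^ (k * θ + 2 - ρ / 2) := by
        congr 1
        rw [← Real.rpow_natCast (X ^ (1 - ρ / 2)), ← Real.rpow_mul hX0.le, ← Real.rpow_add hX0,
          ← Real.rpow_add hX0]
        congr 1
        push_cast; ring


end

end Pool.Agent.J4.H50.EA
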