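import Pool.Agent.N879.QM.AsmB
import Pool.Agent.N879.QM.Diag
import Pool.Agent.N879.QM.Coef
import Pool.Agent.N879.QM.Fin

/-! Weighted character sums over the family: the large `n` contribute little. -/

set_option autoImplicit false

namespace Pool.Agent.J4.H50.EA

open Complex Filter Topology MeasureTheory Set
open Pool.Agent.N879.QM

noncomputable section

/-- the weighted character sum over the family -/
def Sc (s : ℤ) (X : ℝ) (c : ℕ → ℂ) (m : ℕ) : ℂ := ∑ q ∈ Q s X, c q * vl s q m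

lemma Sc_le {s : ℤ} {X : ℝ} (hX : 1 ≤ X) {c : ℕ → ℂ} (hc : ∀ q, ‖c q‖ ≤ 1) (m : ℕ) : ‖Sc s X c m‖ ≤ X := by
  unfold Sc
  refine (norm_sum_le _ _).trans ?_
  have h1 : ∑ q ∈ Q s X, ‖c q * vl s q m‖ ≤ ∑ _q ∈ Q s X, (1 : ℝ) := by
    refine Finset.sum_le_sum fun q _ => ?_
    rw [norm_mul]
    exact mul_le_one₀ (hc q) (norm_nonneg _) (vl_le s q m)
  refine h1.trans ?_
  rw [Finset.sum_const, nsmul_eq_mul, mul_one]
  exact Q_card hX

lemma vl_mul (s : ℤ) (q m n : ℕ) : vl s q (m * n) = vl s q m * vl s q n := by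
  unfold vl
  rw [Nat.cast_mul, map_mul]

lemma vl_conj {s : ℤ} {X : ℝ} {q : ℕ} (hq : q ∈ Q s X) (m : ℕ) :
    (starRingEnd ℂ) (vl s q m) = vl s q m := by
  have h1 := (ch_spec (Q_is hq).1).2.1
  have h2 : vl s q m ^ 2 = (1 : DirichletCharacter ℂ q) (m : ZMod q) := by
    rw [← h1]
    unfold vl
    exact (MulChar.pow_apply' _ two_ne_zero _).symm
  have h3 : vl s q m ^ 2 = 0 ∨ vl s q m ^ 2 = 1 := by
    rw [h2]
    by_cases hu : IsUnit (m : ZMod q)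
    · right
      exact MulChar.one_apply hu
    · left
      exact MulChar.map_nonunit _ hu
  rcases h3 with h | h
  · rw [pow_eq_zero_iff two_ne_zero] at h
    rw [h, map_zero]
  · rcases (show vl s q m = 1 ∨ vl s q m = -1 from mul_self_eq_one_iff.1 (by rw [← sq]; exact h)) with h | h
    · rw [h, map_one]
    · rw [h, map_neg, map_one]

/-- the squarefree part is determined -/
lemma sqf_part {a b m' : ℕ} (ha : Squarefree a) (hb : 1 ≤ b) (hm : 1 ≤ m') (h : IsSquare (b ^ 2 * a * m')) :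
    m' = Nat.sqrt (m' / a) ^ 2 * a := by
  obtain ⟨a', t, ht, ha'⟩ := Nat.sq_mul_squarefree m'
  have ha0 : a ≠ 0 := ha.ne_zero
  have ha'0 : a' ≠ 0 := ha'.ne_zero
  have ht0 : t ≠ 0 := by
    rintro rfl
    simp at ht
    omega
  have h1 : IsSquare (a * a') := by
    obtain ⟨r, hr⟩ := h
    have h2 : (b * t) ^ 2 * (a * a') = r ^ 2 := by
      rw [sq r, ← hr, ← ht]
      ring
    have h3 : (b * t) ∣ r := by
      have : (b * t) ^ 2 ∣ r ^ 2 := ⟨_, h2.symm⟩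
      exact (Nat.pow_dvd_pow_iff two_ne_zero).1 this
    obtain ⟨u, hu⟩ := h3
    refine ⟨u, ?_⟩
    have h2' : (b * t) ^ 2 * (a * a') = (b * t) ^ 2 * u ^ 2 := by
      rw [h2, hu]
      ring
    have hbt : 0 < (b * t) ^ 2 := by
      have : 0 < b * t := Nat.mul_pos (by omega) (Nat.pos_of_ne_zero ht0)
      positivity
    have := Nat.eq_of_mul_eq_mul_left hbt h2'
    rw [this, sq]
  have h4 : a' = a := by
    obtain ⟨r, hr⟩ := h1
    have h5 : a ∣ r := by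
      have : a ∣ r ^ 2 := ⟨a', by rw [sq, ← hr]⟩
      exact (ha.dvd_pow_iff_dvd two_ne_zero).1 this
    obtain ⟨u, hu⟩ := h5
    have h6 : a' = a * u ^ 2 := by
      have : a * a' = a * (a * u ^ 2) := by
        rw [hr, hu]
        ring
      exact Nat.eq_of_mul_eq_mul_left (Nat.pos_of_ne_zero ha0) this
    have h7 : IsUnit u := by
      apply ha' u
      rw [h6, sq]
      exact Dvd.intro_left a rfl
    rw [Nat.isUnit_iff] at h7
    rw [h6, h7]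
    ring
  rw [h4] at ht
  have h8 : m' / a = t ^ 2 := by
    rw [← ht]
    exact Nat.mul_div_cancel _ (Nat.pos_of_ne_zero ha0)
  rw [h8, Nat.sqrt_eq']
  exact ht.symm

/-- the numbers in the square class of `m` -/
lemma sqclass : ∃ Z : ℝ, 0 < Z ∧ ∀ (M : Finset ℕ) (m : ℕ), (∀ n ∈ M, 1 ≤ n) → 1 ≤ m →
    ∑ n ∈ M with IsSquare (m * n), ((m : ℝ) / n) ^ (3 / 4 : ℝ) ≤ Z * (m : ℝ) ^ (3 / 4 : ℝ) := by
  classical
  have hs : Summable fun n : ℕ => 1 / (n : ℝ) ^ (3 / 2 : ℝ) := Real.summable_one_div_nat_rpow.2 (by norm_num)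
  refine ⟨(∑' n : ℕ, 1 / (n : ℝ) ^ (3 / 2 : ℝ)) + 1, ?_, ?_⟩
  · have : 0 ≤ ∑' n : ℕ, 1 / (n : ℝ) ^ (3 / 2 : ℝ) := tsum_nonneg fun n => by positivity
    linarith
  intro M m hM hm
  obtain ⟨a, b, hab, ha⟩ := Nat.sq_mul_squarefree m
  have ha0 : a ≠ 0 := ha.ne_zero
  have hb1 : 1 ≤ b := by
    rcases Nat.eq_zero_or_pos b with h | h
    · rw [h] at hab
      simp at hab
      omega
    · exact h
  have key : ∀ n ∈ M.filter (fun n => IsSquare (m * n)), n = Nat.sqrt (n / a) ^ 2 * a := by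
    intro n hn
    rw [Finset.mem_filter] at hn
    refine sqf_part ha hb1 (hM n hn.1) ?_
    rw [hab]
    exact hn.2
  have hinj : ∀ n ∈ M.filter (fun n => IsSquare (m * n)), ∀ n' ∈ M.filter (fun n => IsSquare (m * n)),
      Nat.sqrt (n / a) = Nat.sqrt (n' / a) → n = n' := by
    intro n hn n' hn' h
    rw [key n hn, key n' hn', h]
  have e1 : ∑ n ∈ M with IsSquare (m * n), ((m : ℝ) / n) ^ (3 / 4 : ℝ) =
      ∑ t ∈ (M.filter (fun n => IsSquare (m * n))).image (fun n => Nat.sqrt (n / a)),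
        (b : ℝ) ^ (3 / 2 : ℝ) * (1 / (t : ℝ) ^ (3 / 2 : ℝ)) := by
    rw [Finset.sum_image (fun n hn n' hn' h => hinj n hn n' hn' h)]
    refine Finset.sum_congr rfl fun n hn => ?_
    obtain ⟨t, ht⟩ : ∃ t, t = Nat.sqrt (n / a) := ⟨_, rfl⟩
    have h1 := key n hn
    rw [← ht] at h1
    have hn1 : 1 ≤ n := hM n (Finset.mem_filter.1 hn).1
    have ht1 : 1 ≤ t := by
      rcases Nat.eq_zero_or_pos t with h | h
      · rw [h] at h1
        simp at h1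
        omega
      · exact h
    rw [← ht]
    have haR : (0 : ℝ) < a := by exact_mod_cast Nat.pos_of_ne_zero ha0
    have htR : (0 : ℝ) < t := by exact_mod_cast ht1
    have hbR : (0 : ℝ) < b := by exact_mod_cast hb1
    have e2 : (m : ℝ) / n = ((b : ℝ) / t) ^ (2 : ℝ) := by
      rw [h1, ← hab]
      push_cast
      rw [Real.rpow_two]
      field_simp
    rw [e2, ← Real.rpow_mul (by positivity), Real.div_rpow hbR.le htR.le]
    norm_num
    ring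
  rw [e1, ← Finset.mul_sum]
  have e3 : ∑ t ∈ (M.filter (fun n => IsSquare (m * n))).image (fun n => Nat.sqrt (n / a)),
      (1 / (t : ℝ) ^ (3 / 2 : ℝ)) ≤ (∑' n : ℕ, 1 / (n : ℝ) ^ (3 / 2 : ℝ)) + 1 := by
    have := hs.sum_le_tsum ((M.filter (fun n => IsSquare (m * n))).image (fun n => Nat.sqrt (n / a)))
      (fun n _ => by positivity)
    linarith
  have e4 : (b : ℝ) ^ (3 / 2 : ℝ) ≤ (m : ℝ) ^ (3 / 4 : ℝ) := by
    have h1 : (b : ℝ) ^ (2 : ℝ) ≤ m := by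
      rw [Real.rpow_two, ← hab]
      push_cast
      have : (1 : ℝ) ≤ a := by exact_mod_cast Nat.pos_of_ne_zero ha0
      nlinarith [sq_nonneg (b : ℝ)]
    have h2 := Real.rpow_le_rpow (by positivity) h1 (by norm_num : (0 : ℝ) ≤ 3 / 4)
    rw [← Real.rpow_mul (Nat.cast_nonneg b)] at h2
    norm_num at h2
    exact h2
  calc (b : ℝ) ^ (3 / 2 : ℝ) * ∑ t ∈ (M.filter (fun n => IsSquare (m * n))).image (fun n => Nat.sqrt (n / a)),
      (1 / (t : ℝ) ^ (3 / 2 : ℝ)) ≤ (m : ℝ) ^ (3 / 4 : ℝ) * ((∑' n : ℕ, 1 / (n : ℝ) ^ (3 / 2 : ℝ)) + 1) := by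
        have h0 : 0 ≤ ∑' n : ℕ, 1 / (n : ℝ) ^ (3 / 2 : ℝ) := tsum_nonneg fun n => by positivity
        exact mul_le_mul e4 e3 (Finset.sum_nonneg fun _ _ => by positivity) (by positivity)
    _ = _ := mul_comm _ _

/-- the dual large sieve -/
theorem tail_core {C : ℝ} (hC : 0 ≤ C) {s : ℤ} {X : ℝ} (hX : 1 ≤ X)
    (hA : ∀ n : ℕ, 1 ≤ n → ¬ IsSquare n → ‖∑ q ∈ Q s X, vl s q n‖ ≤ C * √X * √n)
    {c : ℕ → ℂ} (hc : ∀ q, ‖c q‖ ≤ 1) (M : Finset ℕ) (hM : ∀ m ∈ M, 1 ≤ m) (w : ℕ → ℝ) (hw : ∀ m, 0 ≤ w m)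
    {Λ R : ℝ} (hΛ0 : 0 ≤ Λ) (hR : ∑ m ∈ M, w m * √m ≤ R)
    (hΛ : ∀ m ∈ M, w m * ∑ n ∈ M with IsSquare (m * n), ((m : ℝ) / n) ^ (3 / 4 : ℝ) ≤ Λ) :
    ∑ m ∈ M, w m * ‖Sc s X c m‖ ^ 2 ≤ X ^ 2 * Λ + √C * X ^ (7 / 4 : ℝ) * R := by
  classical
  have hX0 : 0 < X := by linarith
  obtain ⟨V, hV⟩ : ∃ V : ℝ, V = ∑ m ∈ M, w m * ‖Sc s X c m‖ ^ 2 := ⟨_, rfl⟩
  have hV0 : 0 ≤ V := by
    rw [hV]
    exact Finset.sum_nonneg fun m _ => mul_nonneg (hw m) (sq_nonneg _)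
  have hR0 : 0 ≤ R := le_trans (Finset.sum_nonneg fun m _ => mul_nonneg (hw m) (Real.sqrt_nonneg _)) hR
  obtain ⟨y, hy⟩ : ∃ y : ℕ → ℂ, y = fun m => (w m : ℂ) * (starRingEnd ℂ) (Sc s X c m) := ⟨_, rfl⟩
  have hyn : ∀ m, ‖y m‖ = w m * ‖Sc s X c m‖ := by
    intro m
    rw [hy]
    simp only [norm_mul, RCLike.norm_conj, Complex.norm_real, Real.norm_of_nonneg (hw m)]
  have hyX : ∀ m, ‖y m‖ ≤ w m * X := by
    intro m
    rw [hyn]
    exact mul_le_mul_of_nonneg_left (Sc_le hX hc m) (hw m)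
  obtain ⟨Z, hZ⟩ : ∃ Z : ℕ → ℂ, Z = fun q => ∑ m ∈ M, y m * vl s q m := ⟨_, rfl⟩
  -- duality
  have h1 : (V : ℂ) = ∑ q ∈ Q s X, c q * Z q := by
    rw [hV, hZ]
    push_cast
    have e1 : ∀ m, (w m : ℂ) * (‖Sc s X c m‖ : ℂ) ^ 2 = ∑ q ∈ Q s X, c q * (y m * vl s q m) := by
      intro m
      have e2 : (‖Sc s X c m‖ : ℂ) ^ 2 = Sc s X c m * (starRingEnd ℂ) (Sc s X c m) := by
        rw [Complex.mul_conj, Complex.normSq_eq_norm_sq]
        push_cast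
        rfl
      rw [e2]
      nth_rewrite 1 [Sc]
      rw [Finset.sum_mul, Finset.mul_sum, hy]
      refine Finset.sum_congr rfl fun q _ => ?_
      ring
    simp only [e1]
    rw [Finset.sum_comm]
    refine Finset.sum_congr rfl fun q _ => ?_
    rw [Finset.mul_sum]
  have h2 : V ≤ ∑ q ∈ Q s X, ‖Z q‖ := by
    have h3 : V = ‖(V : ℂ)‖ := by rw [Complex.norm_real, Real.norm_of_nonneg hV0]
    rw [h3, h1]
    refine (norm_sum_le _ _).trans (Finset.sum_le_sum fun q _ => ?_)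
    rw [norm_mul]
    exact mul_le_of_le_one_left (norm_nonneg _) (hc q)
  obtain ⟨W, hW⟩ : ∃ W : ℝ, W = ∑ q ∈ Q s X, ‖Z q‖ ^ 2 := ⟨_, rfl⟩
  have h3 : V ^ 2 ≤ X * W := by
    calc V ^ 2 ≤ (∑ q ∈ Q s X, ‖Z q‖) ^ 2 := pow_le_pow_left₀ hV0 h2 2
      _ ≤ ((Q s X).card : ℝ) * ∑ q ∈ Q s X, ‖Z q‖ ^ 2 := sq_sum_le_card_mul_sum_sq
      _ ≤ X * W := by
          rw [hW]
          exact mul_le_mul_of_nonneg_right (Q_card hX) (Finset.sum_nonneg fun _ _ => by positivity)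
  -- the bound for `W`
  have h4 : (W : ℂ) = ∑ m ∈ M, ∑ n ∈ M, y m * (starRingEnd ℂ) (y n) * ∑ q ∈ Q s X, vl s q (m * n) := by
    rw [hW]
    push_cast
    have e1 : ∀ q ∈ Q s X, (‖Z q‖ : ℂ) ^ 2 =
        ∑ m ∈ M, ∑ n ∈ M, y m * (starRingEnd ℂ) (y n) * vl s q (m * n) := by
      intro q hq
      have e2 : (‖Z q‖ : ℂ) ^ 2 = Z q * (starRingEnd ℂ) (Z q) := by
        rw [Complex.mul_conj, Complex.normSq_eq_norm_sq]
        push_cast
        rfl
      rw [e2, hZ]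
      simp only [map_sum, map_mul, vl_conj hq]
      rw [Finset.sum_mul_sum]
      refine Finset.sum_congr rfl fun m _ => Finset.sum_congr rfl fun n _ => ?_
      rw [vl_mul]
      ring
    rw [Finset.sum_congr rfl e1, Finset.sum_comm]
    refine Finset.sum_congr rfl fun m _ => ?_
    rw [Finset.sum_comm]
    refine Finset.sum_congr rfl fun n _ => ?_
    rw [Finset.mul_sum]
  have hW0 : 0 ≤ W := by
    rw [hW]
    exact Finset.sum_nonneg fun _ _ => by positivity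
  have h5 : W ≤ X * (∑ m ∈ M, ∑ n ∈ M with IsSquare (m * n), ‖y m‖ * ‖y n‖) +
      C * √X * (∑ m ∈ M, ‖y m‖ * √m) ^ 2 := by
    have e0 : W = ‖(W : ℂ)‖ := by rw [Complex.norm_real, Real.norm_of_nonneg hW0]
    rw [e0, h4]
    refine (norm_sum_le _ _).trans ((Finset.sum_le_sum fun m _ => norm_sum_le _ _).trans ?_)
    have e1 : ∀ m ∈ M, ∀ n ∈ M, ‖y m * (starRingEnd ℂ) (y n) * ∑ q ∈ Q s X, vl s q (m * n)‖ ≤
        X * (if IsSquare (m * n) then ‖y m‖ * ‖y n‖ else 0) + C * √X * ((‖y m‖ * √m) * (‖y n‖ * √n)) := by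
      intro m hm n hn
      rw [norm_mul, norm_mul, RCLike.norm_conj]
      have hp : 0 ≤ C * √X * ((‖y m‖ * √m) * (‖y n‖ * √n)) := by positivity
      split_ifs with hsq
      · have e2 : ‖∑ q ∈ Q s X, vl s q (m * n)‖ ≤ X := by
          refine (norm_sum_le _ _).trans ?_
          have h1 : ∑ q ∈ Q s X, ‖vl s q (m * n)‖ ≤ ∑ _q ∈ Q s X, (1 : ℝ) :=
            Finset.sum_le_sum fun q _ => vl_le s q _
          refine h1.trans ?_
          rw [Finset.sum_const, nsmul_eq_mul, mul_one]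
          exact Q_card hX
        have e3 : ‖y m‖ * ‖y n‖ * ‖∑ q ∈ Q s X, vl s q (m * n)‖ ≤ ‖y m‖ * ‖y n‖ * X :=
          mul_le_mul_of_nonneg_left e2 (by positivity)
        linarith
      · have e2 := hA (m * n) (Nat.mul_pos (hM m hm) (hM n hn)) hsq
        have e3 : √((m * n : ℕ) : ℝ) = √m * √n := by
          push_cast
          exact Real.sqrt_mul (Nat.cast_nonneg m) _
        rw [e3] at e2
        have e4 : ‖y m‖ * ‖y n‖ * ‖∑ q ∈ Q s X, vl s q (m * n)‖ ≤ ‖y m‖ * ‖y n‖ * (C * √X * (√m * √n)) :=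
          mul_le_mul_of_nonneg_left e2 (by positivity)
        rw [mul_zero, zero_add]
        refine e4.trans (le_of_eq ?_)
        ring
    refine (Finset.sum_le_sum fun m hm => Finset.sum_le_sum fun n hn => e1 m hm n hn).trans (le_of_eq ?_)
    have e6 : (∑ m ∈ M, ‖y m‖ * √m) ^ 2 = ∑ m ∈ M, ∑ n ∈ M, (‖y m‖ * √m) * (‖y n‖ * √n) := by
      rw [sq, Finset.sum_mul_sum]
    rw [e6]
    simp only [Finset.mul_sum, Finset.sum_filter, Finset.sum_add_distrib]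
  -- squares
  have h6 : ∑ m ∈ M, ∑ n ∈ M with IsSquare (m * n), ‖y m‖ * ‖y n‖ ≤ Λ * V := by
    have e1 : ∀ m ∈ M, ∀ n ∈ M, (if IsSquare (m * n) then ‖y m‖ * ‖y n‖ else 0) ≤
        (1 / 2) * (if IsSquare (m * n) then ‖y m‖ ^ 2 * ((m : ℝ) / n) ^ (3 / 4 : ℝ) else 0) +
        (1 / 2) * (if IsSquare (m * n) then ‖y n‖ ^ 2 * ((n : ℝ) / m) ^ (3 / 4 : ℝ) else 0) := by
      intro m hm n hn
      split_ifs with hsq
      · have hm0 : (0 : ℝ) < m := by exact_mod_cast hM m hm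
        have hn0 : (0 : ℝ) < n := by exact_mod_cast hM n hn
        obtain ⟨g, hg⟩ : ∃ g : ℝ, g = ((m : ℝ) / n) ^ (3 / 8 : ℝ) := ⟨_, rfl⟩
        have hg0 : 0 < g := by rw [hg]; positivity
        have e2 : ((m : ℝ) / n) ^ (3 / 4 : ℝ) = g ^ 2 := by
          rw [hg, ← Real.rpow_natCast, ← Real.rpow_mul (by positivity)]
          norm_num
        have e3 : ((n : ℝ) / m) ^ (3 / 4 : ℝ) = (g⁻¹) ^ 2 := by
          have : (n : ℝ) / m = ((m : ℝ) / n)⁻¹ := by rw [inv_div]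
          rw [this, Real.inv_rpow (by positivity), e2, inv_pow]
        rw [e2, e3]
        have e4 : g * g⁻¹ = 1 := mul_inv_cancel₀ hg0.ne'
        have e5 : ‖y m‖ * ‖y n‖ = (‖y m‖ * g) * (‖y n‖ * g⁻¹) := by
          calc ‖y m‖ * ‖y n‖ = ‖y m‖ * ‖y n‖ * (g * g⁻¹) := by rw [e4, mul_one]
            _ = _ := by ring
        rw [e5]
        nlinarith [sq_nonneg (‖y m‖ * g - ‖y n‖ * g⁻¹)]
      · simp
    have e2 : ∑ m ∈ M, ∑ n ∈ M with IsSquare (m * n), ‖y m‖ * ‖y n‖ ≤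
        ∑ m ∈ M, ∑ n ∈ M, (if IsSquare (m * n) then ‖y m‖ ^ 2 * ((m : ℝ) / n) ^ (3 / 4 : ℝ) else 0) := by
      have e3 : ∑ m ∈ M, ∑ n ∈ M, (if IsSquare (m * n) then ‖y n‖ ^ 2 * ((n : ℝ) / m) ^ (3 / 4 : ℝ) else 0) =
          ∑ m ∈ M, ∑ n ∈ M, (if IsSquare (m * n) then ‖y m‖ ^ 2 * ((m : ℝ) / n) ^ (3 / 4 : ℝ) else 0) := by
        rw [Finset.sum_comm]
        refine Finset.sum_congr rfl fun m _ => Finset.sum_congr rfl fun n _ => ?_
        rw [mul_comm n m]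
      simp only [Finset.sum_filter]
      refine (Finset.sum_le_sum fun m hm => Finset.sum_le_sum fun n hn => e1 m hm n hn).trans ?_
      simp only [Finset.sum_add_distrib, ← Finset.mul_sum]
      rw [e3]
      linarith
    refine e2.trans ?_
    rw [hV, Finset.mul_sum]
    refine Finset.sum_le_sum fun m hm => ?_
    have e3 : ∑ n ∈ M, (if IsSquare (m * n) then ‖y m‖ ^ 2 * ((m : ℝ) / n) ^ (3 / 4 : ℝ) else 0) =
        (w m * ∑ n ∈ M with IsSquare (m * n), ((m : ℝ) / n) ^ (3 / 4 : ℝ)) * (w m * ‖Sc s X c m‖ ^ 2) := by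
      rw [← Finset.sum_filter, ← Finset.mul_sum, hyn]
      ring
    rw [e3]
    exact mul_le_mul_of_nonneg_right (hΛ m hm) (mul_nonneg (hw m) (sq_nonneg _))
  have h7 : (∑ m ∈ M, ‖y m‖ * √m) ^ 2 ≤ X ^ 2 * R ^ 2 := by
    rw [← mul_pow]
    refine pow_le_pow_left₀ (Finset.sum_nonneg fun _ _ => by positivity) ?_ 2
    calc ∑ m ∈ M, ‖y m‖ * √m ≤ ∑ m ∈ M, X * (w m * √m) := by
          refine Finset.sum_le_sum fun m _ => ?_
          have := mul_le_mul_of_nonneg_right (hyX m) (Real.sqrt_nonneg (m : ℝ))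
          linarith
      _ = X * ∑ m ∈ M, w m * √m := by rw [Finset.mul_sum]
      _ ≤ X * R := mul_le_mul_of_nonneg_left hR hX0.le
  -- conclusion
  obtain ⟨p, hp⟩ : ∃ p : ℝ, p = X ^ 2 * Λ := ⟨_, rfl⟩
  obtain ⟨r, hr⟩ : ∃ r : ℝ, r = √C * X ^ (7 / 4 : ℝ) * R := ⟨_, rfl⟩
  have hp0 : 0 ≤ p := by rw [hp]; positivity
  have hr0 : 0 ≤ r := by rw [hr]; positivity
  have h8 : V ^ 2 ≤ p * V + r ^ 2 := by
    have e1 : r ^ 2 = X * (C * √X * (X ^ 2 * R ^ 2)) := by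
      rw [hr, mul_pow, mul_pow, Real.sq_sqrt hC]
      have e2 : (X ^ (7 / 4 : ℝ)) ^ 2 = X * √X * X ^ 2 := by
        rw [Real.sqrt_eq_rpow, ← Real.rpow_natCast (X ^ (7 / 4 : ℝ)), ← Real.rpow_mul hX0.le,
          ← Real.rpow_natCast X 2]
        nth_rewrite 2 [← Real.rpow_one X]
        rw [← Real.rpow_add hX0, ← Real.rpow_add hX0]
        norm_num
      rw [e2]
      ring
    calc V ^ 2 ≤ X * W := h3
      _ ≤ X * (X * (Λ * V) + C * √X * (X ^ 2 * R ^ 2)) := by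
          refine mul_le_mul_of_nonneg_left (h5.trans ?_) hX0.le
          exact add_le_add (mul_le_mul_of_nonneg_left h6 hX0.le) (mul_le_mul_of_nonneg_left h7 (by positivity))
      _ = _ := by
          rw [e1, hp]
          ring
  rw [← hV, ← hp, ← hr]
  by_contra hcon
  push Not at hcon
  have h9 : V * (p + r) < V * V := mul_lt_mul_of_pos_left hcon (by linarith)
  have h10 : r * r ≤ V * r := mul_le_mul_of_nonneg_right (by linarith) hr0
  nlinarith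

end

end Pool.Agent.J4.H50.EA
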