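import Pool.Agent.N879.QM.Avg
import Pool.Agent.N879.QM.Uni
import Pool.Agent.J4.H50.EA.W3

/-! Weights which are small on average along all arithmetic progressions. -/

set_option autoImplicit false

namespace Pool.Agent.J4.H50.EA

open Filter Topology Finset
open Pool.Agent.N879.QM
open Pool.Agent.N879.QM.Avg
open Pool.Agent.H306R2.RG (FD F8 F4 F1 Fam cf jo)
open Pool.Agent.H306R2.RZ (js)

noncomputable section

/-- `b` is small on average along all arithmetic progressions -/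
def APnull (b : ℝ → ℕ → ℂ) : Prop := ∀ M : ℕ, 1 ≤ M → ∀ a : ℕ,
  Tendsto (fun X : ℝ => (∑ q ∈ (range ⌈X⌉₊).filter (fun q => q % M = a), b X q) / (X : ℂ)) atTop (𝓝 0)

lemma per_null {b : ℝ → ℕ → ℂ} (hb : APnull b) {M : ℕ} (hM : 1 ≤ M) (h : ℕ → ℂ) (hper : ∀ q, h q = h (q % M)) :
    Tendsto (fun X : ℝ => (∑ q ∈ range ⌈X⌉₊, b X q * h q) / (X : ℂ)) atTop (𝓝 0) := by
  have e1 : ∀ X : ℝ, (∑ q ∈ range ⌈X⌉₊, b X q * h q) / (X : ℂ) =
      ∑ a ∈ range M, h a * ((∑ q ∈ (range ⌈X⌉₊).filter (fun q => q % M = a), b X q) / (X : ℂ)) := by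
    intro X
    rw [← sum_fiberwise_of_maps_to (g := fun q => q % M) (t := range M)
      (fun q _ => mem_range.2 (Nat.mod_lt q (by omega))), sum_div]
    refine sum_congr rfl fun a _ => ?_
    rw [mul_div_assoc', mul_sum]
    congr 1
    refine sum_congr rfl fun q hq => ?_
    rw [mem_filter] at hq
    rw [hper q, hq.2]
    ring
  simp only [e1]
  have h2 : Tendsto (fun X : ℝ => ∑ a ∈ range M, h a *
      ((∑ q ∈ (range ⌈X⌉₊).filter (fun q => q % M = a), b X q) / (X : ℂ))) atTop (𝓝 (∑ a ∈ range M, h a * 0)) :=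
    tendsto_finsetSum _ fun a _ => (hb M hM a).const_mul _
  simpa using h2

/-- no square of `p`, `2 ≤ p ≤ P`, divides `d` -/
def sfP (P d : ℕ) : Prop := ∀ p ∈ Icc 2 P, ¬ p ^ 2 ∣ d

lemma sfP_per (P d : ℕ) : sfP P d ↔ sfP P (d % (P.factorial ^ 2)) := by
  unfold sfP
  refine forall₂_congr fun p hp => ?_
  rw [mem_Icc] at hp
  have h1 : p ^ 2 ∣ P.factorial ^ 2 := pow_dvd_pow_of_dvd (Nat.dvd_factorial (by omega) hp.2) 2
  rw [Nat.dvd_mod_iff h1]

lemma sqf_sfP {P d : ℕ} (h : Squarefree d) : sfP P d := by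
  intro p hp hd
  rw [mem_Icc] at hp
  have := h p (by rw [← sq]; exact hd)
  rw [Nat.isUnit_iff] at this
  omega

open Classical in
/-- the numbers divisible by a large square are rare -/
lemma rare {P : ℕ} (hP : 2 ≤ P) (Z : ℝ) (hZ : 0 ≤ Z) :
    (((range ⌈Z⌉₊).filter (fun d => sfP P d ∧ ¬ Squarefree d)).card : ℝ) ≤ Z / P := by
  have hP0 : (0 : ℝ) < P := by exact_mod_cast (by omega : 0 < P)
  obtain ⟨K, hK⟩ : ∃ K : ℕ, K = ⌈Z⌉₊ := ⟨_, rfl⟩
  have h1 : (range K).filter (fun d => sfP P d ∧ ¬ Squarefree d) ⊆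
      (Ioc P K).biUnion (fun p => (Ico 1 K).filter (fun d => p ^ 2 ∣ d)) := by
    intro d hd
    rw [mem_filter, mem_range] at hd
    obtain ⟨hdK, hs, hns⟩ := hd
    have hd0 : d ≠ 0 := by
      rintro rfl
      exact hs 2 (mem_Icc.2 ⟨le_rfl, hP⟩) (dvd_zero _)
    rw [Nat.squarefree_iff_prime_squarefree] at hns
    push Not at hns
    obtain ⟨p, hp, hpd⟩ := hns
    rw [← sq] at hpd
    have hpP : P < p := by
      by_contra hcon
      exact hs p (mem_Icc.2 ⟨hp.two_le, not_lt.1 hcon⟩) hpd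
    have hle := Nat.le_of_dvd (by omega) hpd
    rw [mem_biUnion]
    refine ⟨p, mem_Ioc.2 ⟨hpP, ?_⟩, mem_filter.2 ⟨mem_Ico.2 ⟨by omega, hdK⟩, hpd⟩⟩
    nlinarith
  have h2 : ∀ p ∈ Ioc P K, (((Ico 1 K).filter (fun d => p ^ 2 ∣ d)).card : ℝ) ≤ Z * (1 / ((p : ℝ) - 1) - 1 / p) := by
    intro p hp
    rw [mem_Ioc] at hp
    have hp3 : (3 : ℝ) ≤ p := by exact_mod_cast (by omega : 3 ≤ p)
    have h3 : ((Ico 1 K).filter (fun d => p ^ 2 ∣ d)).card ≤ (K - 1) / p ^ 2 := by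
      have h4 : (Ico 1 K).filter (fun d => p ^ 2 ∣ d) ⊆ (Ioc 0 (K - 1)).filter (fun d => p ^ 2 ∣ d) := by
        intro d hd
        rw [mem_filter, mem_Ico] at hd
        rw [mem_filter, mem_Ioc]
        exact ⟨⟨by omega, by omega⟩, hd.2⟩
      refine (card_le_card h4).trans ?_
      rw [Nat.Ioc_filter_dvd_card_eq_div]
    have h5 : (((K - 1) / p ^ 2 : ℕ) : ℝ) ≤ Z / (p : ℝ) ^ 2 := by
      refine (Nat.cast_div_le).trans ?_
      push_cast
      refine div_le_div_of_nonneg_right ?_ (by positivity)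
      have h6 : (K : ℝ) < Z + 1 := by
        rw [hK]
        exact Nat.ceil_lt_add_one hZ
      have h7 : ((K - 1 : ℕ) : ℝ) = K - 1 := by
        rw [Nat.cast_sub (by omega), Nat.cast_one]
      linarith
    have h8 : (((Ico 1 K).filter (fun d => p ^ 2 ∣ d)).card : ℝ) ≤ Z / (p : ℝ) ^ 2 := le_trans (by exact_mod_cast h3) h5
    refine h8.trans ?_
    rw [div_eq_mul_one_div]
    refine mul_le_mul_of_nonneg_left ?_ hZ
    rw [div_sub_div _ _ (by linarith) (by linarith), div_le_div_iff₀ (by positivity) (by nlinarith)]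
    nlinarith
  have h3 : ∀ n : ℕ, P ≤ n → ∑ p ∈ Ioc P n, (1 / ((p : ℝ) - 1) - 1 / p) ≤ 1 / (P : ℝ) - 1 / n := by
    intro n hn
    induction n, hn using Nat.le_induction with
    | base => simp
    | succ n hn ih =>
      have hn0 : (0 : ℝ) < n := by exact_mod_cast (by omega : 0 < n)
      rw [sum_Ioc_succ_top (by omega)]
      push_cast
      rw [add_sub_cancel_right]
      linarith
  rw [← hK]
  rcases Nat.lt_or_ge K P with hKP | hKP
  · have h4 : (Ioc P K) = ∅ := by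
      rw [Ioc_eq_empty]
      omega
    rw [h4, biUnion_empty, subset_empty] at h1
    rw [h1, card_empty, Nat.cast_zero]
    positivity
  · calc (((range K).filter (fun d => sfP P d ∧ ¬ Squarefree d)).card : ℝ)
        ≤ ∑ p ∈ Ioc P K, (((Ico 1 K).filter (fun d => p ^ 2 ∣ d)).card : ℝ) := by
          exact_mod_cast (card_le_card h1).trans card_biUnion_le
      _ ≤ ∑ p ∈ Ioc P K, Z * (1 / ((p : ℝ) - 1) - 1 / p) := sum_le_sum h2
      _ = Z * ∑ p ∈ Ioc P K, (1 / ((p : ℝ) - 1) - 1 / p) := by rw [mul_sum]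
      _ ≤ Z * (1 / (P : ℝ) - 1 / K) := mul_le_mul_of_nonneg_left (h3 K hKP) hZ
      _ ≤ Z * (1 / P) := by
          refine mul_le_mul_of_nonneg_left ?_ hZ
          have : (0 : ℝ) ≤ 1 / K := by positivity
          linarith
      _ = Z / P := by ring

open Classical in
/-- the periodic majorant of a family -/
def hP (φ : FD) (R : Finset ℕ) (P n d : ℕ) : ℂ := if d % 8 ∈ R ∧ sfP P d then ((cf φ d n : ℝ) : ℂ) else 0

lemma cf_per (φ : FD) {n : ℕ} (hn : n ≠ 0) (M d : ℕ) (hM : n / 2 ^ (n.factorization 2) ∣ M) :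
    cf φ d n = cf φ (d % M) n := by
  unfold cf jo js
  rw [if_pos (odd_part hn), if_pos (odd_part hn)]
  congr 2
  have h1 : jacobiSym (φ.e * (d : ℤ)) (n / 2 ^ (n.factorization 2)) =
      jacobiSym (φ.e * ((d % M : ℕ) : ℤ)) (n / 2 ^ (n.factorization 2)) := by
    apply jacobiSym.mod_left'
    rw [Int.mul_emod, Int.mul_emod φ.e ((d % M : ℕ) : ℤ)]
    congr 2
    have : (d % M) % (n / 2 ^ (n.factorization 2)) = d % (n / 2 ^ (n.factorization 2)) := Nat.mod_mod_of_dvd _ hM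
    exact_mod_cast this.symm
  rw [h1]

lemma hP_per (φ : FD) (R : Finset ℕ) (P : ℕ) {n : ℕ} (hn : n ≠ 0) (d : ℕ) :
    hP φ R P n d = hP φ R P n (d % (8 * (n / 2 ^ (n.factorization 2)) * P.factorial ^ 2)) := by
  unfold hP
  obtain ⟨M, hM⟩ : ∃ M, M = 8 * (n / 2 ^ (n.factorization 2)) * P.factorial ^ 2 := ⟨_, rfl⟩
  rw [← hM]
  have h1 : d % M % 8 = d % 8 := Nat.mod_mod_of_dvd _ (by rw [hM, mul_assoc]; exact Dvd.intro _ rfl)
  have h2 : d % M % (P.factorial ^ 2) = d % (P.factorial ^ 2) :=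
    Nat.mod_mod_of_dvd _ (by rw [hM]; exact Dvd.intro_left _ rfl)
  have h3 : sfP P (d % M) ↔ sfP P d := by
    rw [sfP_per, h2, ← sfP_per]
  have h4 : cf φ d n = cf φ (d % M) n := cf_per φ hn M d (by
    rw [hM, mul_assoc, mul_left_comm]
    exact Dvd.intro _ rfl)
  rw [h1, ← h4]
  by_cases h : d % 8 ∈ R ∧ sfP P d
  · rw [if_pos h, if_pos ⟨h.1, h3.mpr h.2⟩]
  · rw [if_neg h, if_neg fun h5 => h ⟨h5.1, h3.mp h5.2⟩]

open Classical in
lemma fam_null (φ : FD) (R : Finset ℕ) (hr : 1 ≤ φ.r) (h1 : ∀ d, φ.A d → d % 8 ∈ R)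
    (h2 : ∀ d, d % 8 ∈ R → Squarefree d → ¬ φ.A d → d = 1) (hη : |φ.η| ≤ 1) {b : ℝ → ℕ → ℂ} {B : ℝ}
    (hB : ∀ X q, ‖b X q‖ ≤ B) (hb : APnull b) {n : ℕ} (hn : n ≠ 0) :
    Tendsto (fun X : ℝ => (∑ d ∈ DF φ X, b X (φ.r * d) * ((cf φ d n : ℝ) : ℂ)) / (X : ℂ)) atTop (𝓝 0) := by
  have hrR : (1 : ℝ) ≤ φ.r := by exact_mod_cast hr
  have hB0 : 0 ≤ B := (norm_nonneg _).trans (hB 0 0)
  rw [Metric.tendsto_nhds]
  intro ε hε
  obtain ⟨P₀, hP₀⟩ := exists_nat_gt (3 * B / ε)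
  obtain ⟨P, hPd⟩ : ∃ P : ℕ, P = P₀ + 2 := ⟨_, rfl⟩
  have hP2 : 2 ≤ P := by omega
  have hP0 : (0 : ℝ) < P := by exact_mod_cast (by omega : 0 < P)
  have hPε : B / P ≤ ε / 3 := by
    rw [div_lt_iff₀ hε] at hP₀
    rw [div_le_div_iff₀ hP0 (by norm_num)]
    have : (P₀ : ℝ) ≤ P := by exact_mod_cast (by omega : P₀ ≤ P)
    nlinarith
  obtain ⟨M, hM⟩ : ∃ M, M = 8 * (n / 2 ^ (n.factorization 2)) * P.factorial ^ 2 := ⟨_, rfl⟩
  have hm1 : 1 ≤ n / 2 ^ (n.factorization 2) := (odd_part hn).pos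
  have hM1 : 1 ≤ M := by
    rw [hM]
    have := Nat.factorial_pos P
    have h3 : 0 < 8 * (n / 2 ^ (n.factorization 2)) * P.factorial ^ 2 := by positivity
    omega
  -- the periodic function
  obtain ⟨h', hh'⟩ : ∃ h' : ℕ → ℂ, h' = fun q => if φ.r ∣ q then hP φ R P n (q / φ.r) else 0 := ⟨_, rfl⟩
  have hper : ∀ q, h' q = h' (q % (φ.r * M)) := by
    intro q
    rw [hh']
    simp only
    have e1 : φ.r ∣ q % (φ.r * M) ↔ φ.r ∣ q := Nat.dvd_mod_iff (Dvd.intro _ rfl)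
    have e2 : q % (φ.r * M) / φ.r = q / φ.r % M := Nat.mod_mul_right_div_self _ _ _
    simp only [e1, e2]
    rw [hP_per φ R P hn (q / φ.r), ← hM]
  have hnull := per_null hb (M := φ.r * M) (Nat.mul_pos (by omega) (by omega)) h' hper
  rw [Metric.tendsto_nhds] at hnull
  filter_upwards [hnull (ε / 3) (by positivity), eventually_gt_atTop (3 * B / ε), eventually_gt_atTop 0] with X hX1 hX2 hX0
  rw [dist_zero_right] at hX1 ⊢
  -- the sum over `q`
  have e1 : ∑ q ∈ range ⌈X⌉₊, b X q * h' q =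
      ∑ d ∈ (range ⌈X / φ.r⌉₊).filter (fun d => d % 8 ∈ R ∧ sfP P d), b X (φ.r * d) * ((cf φ d n : ℝ) : ℂ) := by
    have e2 : ∑ q ∈ range ⌈X⌉₊, b X q * h' q = ∑ q ∈ (range ⌈X⌉₊).filter (fun q => φ.r ∣ q), b X q * hP φ R P n (q / φ.r) := by
      rw [sum_filter]
      refine sum_congr rfl fun q _ => ?_
      rw [hh']
      simp only
      split_ifs
      · rfl
      · rw [mul_zero]
    have e3 : ∑ d ∈ (range ⌈X / φ.r⌉₊).filter (fun d => d % 8 ∈ R ∧ sfP P d), b X (φ.r * d) * ((cf φ d n : ℝ) : ℂ) =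
        ∑ d ∈ range ⌈X / φ.r⌉₊, b X (φ.r * d) * hP φ R P n d := by
      rw [sum_filter]
      refine sum_congr rfl fun d _ => ?_
      unfold hP
      split_ifs
      · rfl
      · rw [mul_zero]
    rw [e2, e3]
    symm
    refine sum_nbij' (fun d => φ.r * d) (fun q => q / φ.r) ?_ ?_ ?_ ?_ ?_
    · intro d hd
      rw [mem_range, Nat.lt_ceil, lt_div_iff₀ (by linarith)] at hd
      rw [mem_filter, mem_range, Nat.lt_ceil]
      push_cast
      exact ⟨by linarith, Dvd.intro _ rfl⟩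
    · intro q hq
      rw [mem_filter, mem_range, Nat.lt_ceil] at hq
      obtain ⟨hq1, k, rfl⟩ := hq
      rw [Nat.mul_div_cancel_left _ (by omega), mem_range, Nat.lt_ceil, lt_div_iff₀ (by linarith)]
      push_cast at hq1
      linarith
    · intro d _
      exact Nat.mul_div_cancel_left _ (by omega)
    · intro q hq
      rw [mem_filter] at hq
      exact Nat.mul_div_cancel' hq.2
    · intro d _
      rw [Nat.mul_div_cancel_left _ (by omega)]
  rw [e1] at hX1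
  obtain ⟨D', hD'⟩ : ∃ D' : Finset ℕ, D' = (range ⌈X / φ.r⌉₊).filter (fun d => d % 8 ∈ R ∧ sfP P d) := ⟨_, rfl⟩
  rw [← hD'] at hX1
  have hsub : DF φ X ⊆ D' := by
    intro d hd
    unfold DF at hd
    rw [mem_filter] at hd
    rw [hD', mem_filter, mem_range, Nat.lt_ceil, lt_div_iff₀ (by linarith)]
    have h3 := hd.2.2.2
    push_cast at h3
    exact ⟨by linarith, h1 d hd.2.1, sqf_sfP hd.2.2.1⟩
  have h4 : D' \ DF φ X ⊆ (range ⌈X / φ.r⌉₊).filter (fun d => sfP P d ∧ ¬ Squarefree d) ∪ {1} := by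
    intro d hd
    rw [Finset.mem_sdiff, hD', mem_filter, mem_range, Nat.lt_ceil, lt_div_iff₀ (by linarith)] at hd
    obtain ⟨⟨h5, h6, h7⟩, h8⟩ := hd
    rw [mem_union, mem_filter, mem_range, Nat.lt_ceil, lt_div_iff₀ (by linarith), mem_singleton]
    by_cases hsq : Squarefree d
    · right
      refine h2 d h6 hsq fun hA => h8 ?_
      unfold DF
      have h9 : ((φ.r * d : ℕ) : ℝ) < X := by
        push_cast
        linarith
      rw [mem_filter, mem_range, Nat.lt_ceil]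
      refine ⟨?_, hA, hsq, h9⟩
      push_cast at h9
      have : (0 : ℝ) ≤ d := Nat.cast_nonneg d
      nlinarith
    · left
      exact ⟨h5, h7, hsq⟩
  have h5 : ‖(∑ d ∈ D', b X (φ.r * d) * ((cf φ d n : ℝ) : ℂ)) - ∑ d ∈ DF φ X, b X (φ.r * d) * ((cf φ d n : ℝ) : ℂ)‖ ≤
      B * (X / P + 1) := by
    rw [← sum_sdiff hsub, add_sub_cancel_right]
    have h6 : ∀ d ∈ D' \ DF φ X, ‖b X (φ.r * d) * ((cf φ d n : ℝ) : ℂ)‖ ≤ B := by
      intro d _
      rw [norm_mul, Complex.norm_real, Real.norm_eq_abs]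
      calc ‖b X (φ.r * d)‖ * |cf φ d n| ≤ B * 1 := mul_le_mul (hB X _) (cf_abs φ hη d n) (abs_nonneg _) hB0
        _ = B := mul_one B
    refine (norm_sum_le _ _).trans ((sum_le_card_nsmul _ _ _ h6).trans ?_)
    rw [nsmul_eq_mul, mul_comm]
    refine mul_le_mul_of_nonneg_left ?_ hB0
    have h7 := card_le_card h4
    have h8 := card_union_le ((range ⌈X / φ.r⌉₊).filter (fun d => sfP P d ∧ ¬ Squarefree d)) {1}
    rw [card_singleton] at h8
    have h9 : ((D' \ DF φ X).card : ℝ) ≤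
        (((range ⌈X / φ.r⌉₊).filter (fun d => sfP P d ∧ ¬ Squarefree d)).card : ℝ) + 1 := by
      exact_mod_cast h7.trans h8
    refine h9.trans (add_le_add ?_ le_rfl)
    refine (rare hP2 (X / φ.r) (by positivity)).trans ?_
    refine div_le_div_of_nonneg_right ?_ hP0.le
    exact div_le_self hX0.le hrR
  have hXn : ‖(X : ℂ)‖ = X := by rw [Complex.norm_real, Real.norm_of_nonneg hX0.le]
  rw [norm_div, hXn] at hX1 ⊢
  rw [div_lt_iff₀ hX0] at hX1 ⊢
  have h6 : ‖∑ d ∈ DF φ X, b X (φ.r * d) * ((cf φ d n : ℝ) : ℂ)‖ ≤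
      ‖∑ d ∈ D', b X (φ.r * d) * ((cf φ d n : ℝ) : ℂ)‖ +
      ‖(∑ d ∈ D', b X (φ.r * d) * ((cf φ d n : ℝ) : ℂ)) - ∑ d ∈ DF φ X, b X (φ.r * d) * ((cf φ d n : ℝ) : ℂ)‖ := by
    have := norm_sub_le (∑ d ∈ D', b X (φ.r * d) * ((cf φ d n : ℝ) : ℂ))
      ((∑ d ∈ D', b X (φ.r * d) * ((cf φ d n : ℝ) : ℂ)) - ∑ d ∈ DF φ X, b X (φ.r * d) * ((cf φ d n : ℝ) : ℂ))
    rwa [sub_sub_cancel] at this
  have h7 : B * (X / P + 1) = B / P * X + B := by ring
  have h8 : B / P * X ≤ ε / 3 * X := mul_le_mul_of_nonneg_right hPε hX0.le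
  have h9 : B < ε / 3 * X := by
    rw [div_lt_iff₀ hε] at hX2
    linarith
  linarith

/-- the weighted sum over the family by classes -/
lemma class_sumW (hU : S_UNI) (s : ℤ) (hs : s = 1 ∨ s = -1) (X : ℝ) (b : ℕ → ℂ) (n : ℕ) (hn : 1 ≤ n) :
    Sc s X b n = ∑ i : Fin 4, ∑ d ∈ DF (fam s i) X, b ((fam s i).r * d) * ((cf (fam s i) d n : ℝ) : ℂ) := by
  classical
  unfold Sc
  rw [sum_sigma']
  symm
  have hmem : ∀ x : (_ : Fin 4) × ℕ, x ∈ (univ : Finset (Fin 4)).sigma (fun i => DF (fam s i) X) →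
      (fam s x.1).A x.2 ∧ Squarefree x.2 ∧ (((fam s x.1).r * x.2 : ℕ) : ℝ) < X := by
    intro x hx
    rw [mem_sigma] at hx
    have := hx.2
    unfold DF at this
    rw [mem_filter] at this
    exact this.2
  refine sum_nbij (fun x => (fam s x.1).r * x.2) ?_ ?_ ?_ ?_
  · intro x hx
    obtain ⟨h1, h2, h3⟩ := hmem x hx
    obtain ⟨h4, h5, h6, χ, h7, -⟩ := rp_of s hs (fam s x.1) (fam_mem s x.1) x.2 h1 h2
    unfold Q
    rw [mem_filter, mem_Ico, Nat.lt_ceil]
    exact ⟨⟨h6, h3⟩, h6, χ, h7⟩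
  · intro x hx y hy hxy
    obtain ⟨h1, -, -⟩ := hmem x (mem_coe.1 hx)
    obtain ⟨h2, -, -⟩ := hmem y (mem_coe.1 hy)
    obtain ⟨h3, h4⟩ := fam_inj s hs x.1 y.1 x.2 y.2 h1 h2 hxy
    exact Sigma.ext h3 (heq_of_eq h4)
  · intro q hq
    rw [mem_coe] at hq
    unfold Q at hq
    rw [mem_filter, mem_Ico, Nat.lt_ceil] at hq
    obtain ⟨⟨h1, h2⟩, h3, χ, hχ⟩ := hq
    obtain ⟨i, d, h4, h5, h6⟩ := fam_surj s q h1 χ hχ
    refine ⟨⟨i, d⟩, ?_, h6.symm⟩
    rw [mem_coe, mem_sigma]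
    refine ⟨mem_univ _, ?_⟩
    unfold DF
    rw [mem_filter, mem_range, Nat.lt_ceil]
    obtain ⟨-, h7, -, -⟩ := rp_of s hs (fam s i) (fam_mem s i) d h4 h5
    rw [h6] at h2
    refine ⟨lt_of_le_of_lt ?_ h2, h4, h5, h2⟩
    exact_mod_cast Nat.le_mul_of_pos_left d h7
  · intro x hx
    obtain ⟨h1, h2, h3⟩ := hmem x hx
    obtain ⟨h4, h5, h6, χ, h7, h8⟩ := rp_of s hs (fam s x.1) (fam_mem s x.1) x.2 h1 h2
    rw [vl_eq hU h6 χ h7, h8 n (by omega)]

/-- **Weights without correlations with arithmetic progressions have none with `d ↦ χ_d(n)`.** -/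
theorem ap_null (s : ℤ) (hs : s = 1 ∨ s = -1) {b : ℝ → ℕ → ℂ} {B : ℝ} (hB : ∀ X q, ‖b X q‖ ≤ B) (hb : APnull b) {n : ℕ}
    (hn : 1 ≤ n) : Tendsto (fun X : ℝ => Sc s X (b X) n / (X : ℂ)) atTop (𝓝 0) := by
  have hn0 : n ≠ 0 := by omega
  have key : ∀ i : Fin 4, Tendsto (fun X : ℝ =>
      (∑ d ∈ DF (fam s i) X, b X ((fam s i).r * d) * ((cf (fam s i) d n : ℝ) : ℂ)) / (X : ℂ)) atTop (𝓝 0) := by
    intro i
    fin_cases i
    · refine fam_null (F8 s) {1, 3, 5, 7} (by simp [F8]) ?_ ?_ (by simp [F8]) hB hb hn0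
      · intro d hd
        have h1 : Odd d := hd
        obtain ⟨k, hk⟩ := h1
        simp only [mem_insert, mem_singleton]
        omega
      · intro d hd _ hA
        exfalso
        apply hA
        simp only [mem_insert, mem_singleton] at hd
        show Odd d
        rw [Nat.odd_iff]
        omega
    · rcases hs with rfl | rfl
      · refine fam_null (F4 1) {3, 7} (by simp [F4]) ?_ ?_ (by simp [F4]) hB hb hn0
        · intro d hd
          have h1 : ((1 : ℤ) * (d : ℤ)) % 4 = 3 := hd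
          simp only [mem_insert, mem_singleton]
          omega
        · intro d hd _ hA
          exfalso
          apply hA
          simp only [mem_insert, mem_singleton] at hd
          show ((1 : ℤ) * (d : ℤ)) % 4 = 3
          omega
      · refine fam_null (F4 (-1)) {1, 5} (by simp [F4]) ?_ ?_ (by simp [F4]) hB hb hn0
        · intro d hd
          have h1 : ((-1 : ℤ) * (d : ℤ)) % 4 = 3 := hd
          simp only [mem_insert, mem_singleton]
          omega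
        · intro d hd _ hA
          exfalso
          apply hA
          simp only [mem_insert, mem_singleton] at hd
          show ((-1 : ℤ) * (d : ℤ)) % 4 = 3
          omega
    · rcases hs with rfl | rfl
      · refine fam_null (F1 1 1) {1} (by simp [F1]) ?_ ?_ (by simp [F1]) hB hb hn0
        · intro d hd
          have h1 : ((1 : ℤ) * (d : ℤ)) % 8 = 1 := hd.1
          simp only [mem_singleton]
          omega
        · intro d hd hsq hA
          simp only [mem_singleton] at hd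
          by_contra hd1
          apply hA
          show ((1 : ℤ) * (d : ℤ)) % 8 = 1 ∧ ¬ IsSquare ((1 : ℤ) * (d : ℤ))
          exact ⟨by omega, fun h => hd1 (sqf_one hsq h)⟩
      · refine fam_null (F1 (-1) 1) {7} (by simp [F1]) ?_ ?_ (by simp [F1]) hB hb hn0
        · intro d hd
          have h1 : ((-1 : ℤ) * (d : ℤ)) % 8 = 1 := hd.1
          simp only [mem_singleton]
          omega
        · intro d hd hsq hA
          simp only [mem_singleton] at hd
          exfalso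
          apply hA
          show ((-1 : ℤ) * (d : ℤ)) % 8 = 1 ∧ ¬ IsSquare ((-1 : ℤ) * (d : ℤ))
          exact ⟨by omega, fun h => neg_sq (by omega) h⟩
    · have hη : ∀ s : ℤ, |(F1 s 5).η| ≤ 1 := fun s => by
        show |(if (5 : ℤ) = 1 then (1 : ℝ) else -1)| ≤ 1
        norm_num
      rcases hs with rfl | rfl
      · refine fam_null (F1 1 5) {5} (by simp [F1]) ?_ ?_ (hη 1) hB hb hn0
        · intro d hd
          have h1 : ((1 : ℤ) * (d : ℤ)) % 8 = 5 := hd.1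
          simp only [mem_singleton]
          omega
        · intro d hd hsq hA
          simp only [mem_singleton] at hd
          by_contra hd1
          apply hA
          show ((1 : ℤ) * (d : ℤ)) % 8 = 5 ∧ ¬ IsSquare ((1 : ℤ) * (d : ℤ))
          exact ⟨by omega, fun h => hd1 (sqf_one hsq h)⟩
      · refine fam_null (F1 (-1) 5) {3} (by simp [F1]) ?_ ?_ (hη (-1)) hB hb hn0
        · intro d hd
          have h1 : ((-1 : ℤ) * (d : ℤ)) % 8 = 5 := hd.1
          simp only [mem_singleton]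
          omega
        · intro d hd hsq hA
          simp only [mem_singleton] at hd
          exfalso
          apply hA
          show ((-1 : ℤ) * (d : ℤ)) % 8 = 5 ∧ ¬ IsSquare ((-1 : ℤ) * (d : ℤ))
          exact ⟨by omega, fun h => neg_sq (by omega) h⟩
  have e1 : ∀ X : ℝ, Sc s X (b X) n / (X : ℂ) = ∑ i : Fin 4,
      (∑ d ∈ DF (fam s i) X, b X ((fam s i).r * d) * ((cf (fam s i) d n : ℝ) : ℂ)) / (X : ℂ) := by
    intro X
    rw [class_sumW t_UNI s hs X (b X) n hn, sum_div]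
  simp only [e1]
  have h2 := tendsto_finsetSum (univ : Finset (Fin 4)) fun i _ => key i
  simpa using h2

end

end Pool.Agent.J4.H50.EA
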