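import Pool.Agent.J4.H50.EA.W9
import Pool.Agent.J4.H50.EA.W7

/-! The criterion: weighted moments are small if and only if the weights have no correlations. -/

set_option autoImplicit false

namespace Pool.Agent.J4.H50.EA

open Complex Filter Topology MeasureTheory Set
open Pool.Agent.N879.QM
open Pool.Agent.N879.QM.FLp

noncomputable section

variable {k : ℕ}

/-- the weighted moment -/
def FW (k : ℕ) (s : ℤ) (θ : ℝ) (m : ℕ) (c : ℕ → ℂ) (X : ℝ) (β : Fin k → ℝ) : ℂ :=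
  ∑ q ∈ Q s X \ Ex s X (X ^ θ) (θ * (1 / m) / (8 * k)), c q * ∏ j, LL s q (pt (β j))

lemma FW_cont (hc : S_CTS) (k : ℕ) (s : ℤ) (θ : ℝ) (m : ℕ) (c : ℕ → ℂ) (X : ℝ) :
    Continuous (FW k s θ m c X) := by
  unfold FW
  exact continuous_finsetSum _ fun q hq => continuous_const.mul (continuous_finsetProd _ fun j _ =>
    (hc s q (Q_is (Finset.sdiff_subset hq)).1).comp (continuous_apply j))

/-- no correlations, hence small -/
theorem crit_of (hMB : S_MB) (hP : S_P1) (hO : S_OPB) (hT : S_TEL) (hc : S_CTS) (hAV : S_AVG) (k : ℕ) (θ : ℝ)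
    (hk : 1 ≤ k) (hθ : 0 < θ) (hθ1 : θ ≤ 1) (m : ℕ) (hm : 8 * k + 1 ≤ m) (s : ℤ) (hs : s = 1 ∨ s = -1)
    (c : ℝ → ℕ → ℂ) (hcb : ∀ X q, ‖c X q‖ ≤ 1)
    (h : ∀ n : ℕ, 1 ≤ n → Tendsto (fun X : ℝ => Sc s X (c X) n / (X : ℂ)) atTop (𝓝 0)) :
    Sm k θ (fun X => FW k s θ m (c X) X) := by
  obtain ⟨C, δ, X₀, hC, hδ, hX₀, hM⟩ := meansq hMB hP hO hT hc hAV k θ hk hθ hθ1 m hm
  intro ε hε
  -- the choice of `Y`
  have evY : ∀ᶠ Y : ℕ in atTop, C * 2 ^ k * (Y : ℝ) ^ (-(1 / 8) : ℝ) ≤ ε ^ 3 / 2 := by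
    have h1 : Tendsto (fun Y : ℕ => C * 2 ^ k * (Y : ℝ) ^ (-(1 / 8) : ℝ)) atTop (𝓝 (C * 2 ^ k * 0)) :=
      ((tendsto_rpow_neg_atTop (by norm_num : (0 : ℝ) < 1 / 8)).comp tendsto_natCast_atTop_atTop).const_mul _
    rw [mul_zero] at h1
    exact h1.eventually_le_const (by positivity)
  obtain ⟨Y, hY, hY1⟩ := (evY.and (eventually_ge_atTop 1)).exists
  have ev1 : ∀ᶠ X : ℝ in atTop, 2 ^ k * ∑ n ∈ Finset.Icc 1 Y, ((Nat.finMulAntidiag k n).card : ℝ) *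
      (‖Sc s X (c X) n / (X : ℂ)‖ ^ 2 / n) ≤ ε ^ 3 / 2 := by
    have h1 : Tendsto (fun X : ℝ => 2 ^ k * ∑ n ∈ Finset.Icc 1 Y, ((Nat.finMulAntidiag k n).card : ℝ) *
      (‖Sc s X (c X) n / (X : ℂ)‖ ^ 2 / n)) atTop (𝓝 (2 ^ k * ∑ n ∈ Finset.Icc 1 Y,
        ((Nat.finMulAntidiag k n).card : ℝ) * (‖(0 : ℂ)‖ ^ 2 / n))) := by
      refine (tendsto_finsetSum _ fun n hn => ?_).const_mul _
      exact (((h n (Finset.mem_Icc.1 hn).1).norm.pow 2).div_const _).const_mul _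
    have h2 : (2 : ℝ) ^ k * ∑ n ∈ Finset.Icc 1 Y, ((Nat.finMulAntidiag k n).card : ℝ) * (‖(0 : ℂ)‖ ^ 2 / n) = 0 := by
      simp
    rw [h2] at h1
    exact h1.eventually_le_const (by positivity)
  have ev2 : ∀ᶠ X : ℝ in atTop, (Y : ℝ) ≤ X ^ δ := (tendsto_rpow_atTop hδ).eventually_ge_atTop _
  obtain ⟨X₁, hX₁⟩ := eventually_atTop.1 ((ev1.and ev2).and ((eventually_ge_atTop X₀).and (eventually_gt_atTop 0)))
  refine ⟨X₁, fun X hX => ?_⟩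
  obtain ⟨⟨v1, v2⟩, v3, hX0⟩ := hX₁ X hX
  have hA0 : 0 < X ^ θ := by positivity
  have h1 := (abs_le.1 (hM s X (c X) Y hs v3 (hcb X) hY1 v2)).2
  have e1 : ∑ n ∈ Finset.Icc 1 Y, ((Nat.finMulAntidiag k n).card : ℝ) * (‖Sc s X (c X) n‖ ^ 2 / n) =
      X ^ 2 * ∑ n ∈ Finset.Icc 1 Y, ((Nat.finMulAntidiag k n).card : ℝ) * (‖Sc s X (c X) n / (X : ℂ)‖ ^ 2 / n) := by
    rw [Finset.mul_sum]
    refine Finset.sum_congr rfl fun n _ => ?_
    rw [norm_div, Complex.norm_real, Real.norm_of_nonneg hX0.le]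
    field_simp
  have h2 : ∫ β, ‖FW k s θ m (c X) X β‖ ^ 2 ∂(mS k (X ^ θ)) ≤ (X ^ θ) ^ k * (ε ^ 3 * X ^ 2) := by
    have h3 : ∫ β, ‖FW k s θ m (c X) X β‖ ^ 2 ∂(mS k (X ^ θ)) ≤
        (2 * X ^ θ) ^ k * ∑ n ∈ Finset.Icc 1 Y, ((Nat.finMulAntidiag k n).card : ℝ) * (‖Sc s X (c X) n‖ ^ 2 / n) +
        C * (2 * X ^ θ) ^ k * (X ^ 2 * (Y : ℝ) ^ (-(1 / 8) : ℝ)) := by
      unfold FW
      linarith
    refine h3.trans ?_
    rw [e1, mul_pow]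
    have h4 := mul_le_mul_of_nonneg_left v1 (by positivity : 0 ≤ (X ^ θ) ^ k * X ^ 2)
    have h5 := mul_le_mul_of_nonneg_left hY (by positivity : 0 ≤ (X ^ θ) ^ k * X ^ 2)
    calc _ = (X ^ θ) ^ k * X ^ 2 * (2 ^ k * ∑ n ∈ Finset.Icc 1 Y, ((Nat.finMulAntidiag k n).card : ℝ) *
          (‖Sc s X (c X) n / (X : ℂ)‖ ^ 2 / n)) + (X ^ θ) ^ k * X ^ 2 * (C * 2 ^ k * (Y : ℝ) ^ (-(1 / 8) : ℝ)) := by ring
      _ ≤ (X ^ θ) ^ k * X ^ 2 * (ε ^ 3 / 2) + (X ^ θ) ^ k * X ^ 2 * (ε ^ 3 / 2) := add_le_add h4 h5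
      _ = _ := by ring
  have hF := FW_cont hc k s θ m (c X) X
  have h3 : ∫⁻ β, ENNReal.ofReal (‖FW k s θ m (c X) X β‖ ^ 2) ∂(mS k (X ^ θ)) ≤
      ENNReal.ofReal ((X ^ θ) ^ k * (ε ^ 3 * X ^ 2)) := by
    have i1 : Integrable (fun β => ‖FW k s θ m (c X) X β‖ ^ 2) (mS k (X ^ θ)) := int_cont (hF.norm.pow 2)
    rw [← ofReal_integral_eq_lintegral_ofReal i1 (ae_of_all _ fun _ => sq_nonneg _)]
    exact ENNReal.ofReal_le_ofReal h2
  have h4 := cheb (lam := ε * X) hF.norm.aemeasurable (by positivity) h3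
  refine h4.trans (ENNReal.ofReal_le_ofReal (le_of_eq ?_))
  rw [← Real.rpow_natCast (X ^ θ), ← Real.rpow_mul hX0.le, mul_comm θ]
  field_simp

/-- small, hence no correlations -/
theorem crit_to (hMB : S_MB) (hP : S_P1) (hO : S_OPB) (hT : S_TEL) (hc : S_CTS) (hAV : S_AVG) (k : ℕ) (θ : ℝ)
    (hk : 1 ≤ k) (hθ : 0 < θ) (hθ1 : θ ≤ 1) (m : ℕ) (hm : 8 * k + 1 ≤ m) (s : ℤ) (hs : s = 1 ∨ s = -1)
    (c : ℝ → ℕ → ℂ) (hcb : ∀ X q, ‖c X q‖ ≤ 1) (h : Sm k θ (fun X => FW k s θ m (c X) X)) (n₀ : ℕ) (hn₀ : 1 ≤ n₀) :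
    Tendsto (fun X : ℝ => Sc s X (c X) n₀ / (X : ℂ)) atTop (𝓝 0) := by
  classical
  obtain ⟨C, δ, X₀, hC, hδ, hX₀, hM⟩ := meansq hMB hP hO hT hc hAV k θ hk hθ hθ1 m hm
  obtain ⟨C₁, δ₁, X₁, hC₁, hδ₁, hX₁, hAp⟩ := approx hMB hP hO hT hc hAV k θ hk hθ hθ1 m hm
  rw [Metric.tendsto_nhds]
  intro κ hκ
  obtain ⟨r, hr⟩ : ∃ r : ℝ, r = (n₀ : ℝ) ^ (-(1 / 2) : ℝ) := ⟨_, rfl⟩
  have hn0 : (0 : ℝ) < n₀ := by exact_mod_cast hn₀
  have hr0 : 0 < r := by rw [hr]; positivity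
  obtain ⟨K, hK⟩ : ∃ K : ℝ, K = ((Nat.finMulAntidiag k 1).card : ℝ) + C := ⟨_, rfl⟩
  have hK0 : 0 < K := by rw [hK]; positivity
  obtain ⟨L, hL⟩ : ∃ L : ℝ, L = 8 * K / (κ * r) := ⟨_, rfl⟩
  have hL0 : 0 < L := by rw [hL]; positivity
  obtain ⟨ε, hε⟩ : ∃ ε : ℝ, ε = κ * r / (8 * (1 + L)) := ⟨_, rfl⟩
  have hε0 : 0 < ε := by rw [hε]; positivity
  have evY : ∀ᶠ Y : ℕ in atTop, (1 + C₁) * (Y : ℝ) ^ (-(1 / 16) : ℝ) ≤ κ * r / 8 := by
    have h1 : Tendsto (fun Y : ℕ => (1 + C₁) * (Y : ℝ) ^ (-(1 / 16) : ℝ)) atTop (𝓝 ((1 + C₁) * 0)) :=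
      ((tendsto_rpow_neg_atTop (by norm_num : (0 : ℝ) < 1 / 16)).comp tendsto_natCast_atTop_atTop).const_mul _
    rw [mul_zero] at h1
    exact h1.eventually_le_const (by positivity)
  obtain ⟨Y, hY, hYn⟩ := (evY.and (eventually_ge_atTop n₀)).exists
  have hY1 : 1 ≤ Y := hn₀.trans hYn
  have hY0 : (0 : ℝ) < Y := by exact_mod_cast hY1
  obtain ⟨X₂, hSm⟩ := h ε hε0
  have ev1 : ∀ᶠ X : ℝ in atTop, 16 * (Y : ℝ) ^ (k + 1) / (κ * r) ≤ X ^ θ :=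
    (tendsto_rpow_atTop hθ).eventually_ge_atTop _
  have ev2 : ∀ᶠ X : ℝ in atTop, (Y : ℝ) ≤ X ^ δ₁ := (tendsto_rpow_atTop hδ₁).eventually_ge_atTop _
  filter_upwards [ev1, ev2, eventually_ge_atTop X₀, eventually_ge_atTop X₁, eventually_ge_atTop X₂,
    eventually_ge_atTop 1] with X v1 v2 v3 v4 v5 hX1
  have hX0 : 0 < X := by linarith
  obtain ⟨A, hA⟩ : ∃ A : ℝ, A = X ^ θ := ⟨_, rfl⟩
  have hA0 : 0 < A := by rw [hA]; positivity
  rw [← hA] at v1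
  obtain ⟨V, hV⟩ : ∃ V : ℝ, V = (2 * A) ^ k := ⟨_, rfl⟩
  have hV0 : 0 < V := by rw [hV]; positivity
  have hAV' : A ^ k ≤ V := by
    rw [hV, mul_pow]
    exact le_mul_of_one_le_left (by positivity) (one_le_pow₀ (by norm_num))
  have hkθ : X ^ (k * θ) = A ^ k := by
    rw [hA, ← Real.rpow_natCast, ← Real.rpow_mul hX0.le]
    congr 1
    ring
  have hF := FW_cont hc k s θ m (c X) X
  have hD := DY_cont k s X (c X) Y
  -- the mean square of `F`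
  have b1 : ∫ β, ‖FW k s θ m (c X) X β‖ ^ 2 ∂(mS k A) ≤ V * (K * X ^ 2) := by
    have h1 := (abs_le.1 (hM s X (c X) 1 hs v3 (hcb X) le_rfl (by
      rw [Nat.cast_one]
      exact Real.one_le_rpow hX1 hδ.le))).2
    rw [Finset.Icc_self, Finset.sum_singleton, Nat.cast_one, Real.one_rpow, mul_one, div_one, ← hA, ← hV] at h1
    have h2 : ‖Sc s X (c X) 1‖ ^ 2 ≤ X ^ 2 := pow_le_pow_left₀ (norm_nonneg _) (Sc_le hX1 (hcb X) 1) 2
    have h3 := mul_le_mul_of_nonneg_left h2 (by positivity : 0 ≤ V * ((Nat.finMulAntidiag k 1).card : ℝ))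
    have h4 : ∫ β, ‖FW k s θ m (c X) X β‖ ^ 2 ∂(mS k A) ≤
        V * (((Nat.finMulAntidiag k 1).card : ℝ) * ‖Sc s X (c X) 1‖ ^ 2) + C * V * X ^ 2 := by
      unfold FW
      rw [← hA]
      linarith
    refine h4.trans ?_
    rw [hK]
    linarith
  have b2 := hSm X v5
  rw [← hA, hkθ] at b2
  have b3 := l1 hA0 hF (a := ε * X) (l := L * X) (by positivity) (by positivity) (by positivity) b2 b1
  rw [← hV] at b3
  -- the distance
  have b4 := hAp s X (c X) Y hs v4 (hcb X) hY1 v2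
  rw [← hA, ← hV] at b4
  have b5 : ∫ β, ‖FW k s θ m (c X) X β - DY k s X (c X) Y β‖ ∂(mS k A) ≤ V * (((1 + C₁) * (Y : ℝ) ^ (-(1 / 16) : ℝ)) * X) := by
    have h1 := l1' hA0 (hF.sub hD) (l := (Y : ℝ) ^ (-(1 / 16) : ℝ) * X) (by positivity)
      (B := C₁ * V * (X ^ 2 * (Y : ℝ) ^ (-(1 / 8) : ℝ))) (by
        unfold FW
        rw [← hA]
        exact b4)
    rw [← hV] at h1
    refine h1.trans (le_of_eq ?_)
    have h2 : (Y : ℝ) ^ (-(1 / 8) : ℝ) = (Y : ℝ) ^ (-(1 / 16) : ℝ) * (Y : ℝ) ^ (-(1 / 16) : ℝ) := by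
      rw [← Real.rpow_add hY0]
      norm_num
    rw [h2]
    have h3 : (Y : ℝ) ^ (-(1 / 16) : ℝ) ≠ 0 := by positivity
    field_simp
  -- the coefficient
  obtain ⟨ν₀, hν₀⟩ : ∃ ν₀ : Fin k → ℕ, ν₀ = Function.update (fun _ => 1) ⟨0, hk⟩ n₀ := ⟨_, rfl⟩
  have hpr : pr ν₀ = n₀ := by
    unfold pr
    rw [hν₀, Finset.prod_update_of_mem (Finset.mem_univ _)]
    simp
  have hmem : ν₀ ∈ tup k Y := by
    rw [mem_tup]
    intro j
    rw [hν₀]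
    by_cases hj : j = ⟨0, hk⟩
    · rw [hj, Function.update_self]
      exact ⟨hn₀, hYn⟩
    · rw [Function.update_of_ne hj]
      exact ⟨le_rfl, hY1⟩
  obtain ⟨cc, hcc⟩ : ∃ cc : (Fin k → ℕ) → ℂ, cc = fun n =>
    if pr n ≤ Y then Sc s X (c X) (pr n) * (((pr n : ℕ) : ℝ) ^ (-(1 / 2) : ℝ) : ℝ) else 0 := ⟨_, rfl⟩
  have hDe : ∀ β, DY k s X (c X) Y β = ∑ n ∈ tup k Y, cc n * FLp.chr n β := by
    intro β
    unfold DY
    rw [Finset.sum_filter]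
    refine Finset.sum_congr rfl fun n hn => ?_
    rw [hcc]
    simp only
    split_ifs
    · rw [cx_eq hn]
      ring
    · rw [zero_mul]
  have hcc1 : ∀ n ∈ tup k Y, ‖cc n‖ ≤ X := by
    intro n hn
    have h1 : (1 : ℝ) ≤ pr n := by exact_mod_cast one_le_pr hn
    rw [hcc]
    simp only
    split_ifs
    · simp only [norm_mul, Complex.norm_real]
      rw [Real.norm_of_nonneg (by positivity)]
      have h2 : ((pr n : ℕ) : ℝ) ^ (-(1 / 2) : ℝ) ≤ 1 := Real.rpow_le_one_of_one_le_of_nonpos h1 (by norm_num)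
      calc ‖Sc s X (c X) (pr n)‖ * ((pr n : ℕ) : ℝ) ^ (-(1 / 2) : ℝ) ≤ X * 1 :=
            mul_le_mul (Sc_le hX1 (hcb X) _) h2 (by positivity) hX0.le
        _ = X := mul_one X
    · rw [norm_zero]
      exact hX0.le
  have hc0 : ‖cc ν₀‖ = ‖Sc s X (c X) n₀‖ * r := by
    rw [hcc]
    simp only
    rw [hpr, if_pos hYn, norm_mul, Complex.norm_real, Real.norm_of_nonneg (by positivity), hr]
  have b6 := coeff k Y A cc hY1 hA0 hmem
  simp only [← hDe] at b6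
  rw [← hV, hc0] at b6
  have b7 : ‖∫ γ, DY k s X (c X) Y γ * (starRingEnd ℂ) (chr ν₀ γ) ∂(mS k A)‖ ≤
      ∫ β, ‖FW k s θ m (c X) X β‖ ∂(mS k A) + ∫ β, ‖FW k s θ m (c X) X β - DY k s X (c X) Y β‖ ∂(mS k A) := by
    refine (norm_integral_le_integral_norm _).trans ?_
    have i1 : Integrable (fun β => ‖FW k s θ m (c X) X β‖) (mS k A) := int_cont hF.norm
    have i2 : Integrable (fun β => ‖FW k s θ m (c X) X β - DY k s X (c X) Y β‖) (mS k A) := int_cont (hF.sub hD).norm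
    rw [← integral_add i1 i2]
    refine integral_mono (int_cont (hD.mul (Complex.continuous_conj.comp (ch_cont hmem))).norm)
      (i1.add i2) fun γ => ?_
    simp only
    rw [norm_mul, RCLike.norm_conj, ch_norm hmem, mul_one]
    have h1 := norm_sub_le (FW k s θ m (c X) X γ) (FW k s θ m (c X) X γ - DY k s X (c X) Y γ)
    rwa [sub_sub_cancel] at h1
  have b8 : 4 * Y * (2 * A) ^ (k - 1 : ℝ) * ∑ ν ∈ tup k Y, ‖cc ν‖ ≤ V * (κ * r / 8 * X) := by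
    have h1 : ∑ ν ∈ tup k Y, ‖cc ν‖ ≤ X * (Y : ℝ) ^ k := by
      refine (Finset.sum_le_sum hcc1).trans ?_
      rw [Finset.sum_const, tup_card, nsmul_eq_mul]
      push_cast
      linarith
    have h3 : (2 * A) ^ (k - 1 : ℝ) * (2 * A) = V := by
      rw [hV, ← Real.rpow_natCast]
      nth_rewrite 2 [← Real.rpow_one (2 * A)]
      rw [← Real.rpow_add (by positivity)]
      congr 1
      ring
    have h4 : 0 < (2 * A) ^ (k - 1 : ℝ) := by positivity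
    have h5 : 16 * (Y : ℝ) ^ (k + 1) ≤ A * (κ * r) := by
      rwa [div_le_iff₀ (by positivity)] at v1
    have h6 := mul_le_mul_of_nonneg_left h5 (by positivity : 0 ≤ (2 * A) ^ (k - 1 : ℝ) * X)
    calc 4 * Y * (2 * A) ^ (k - 1 : ℝ) * ∑ ν ∈ tup k Y, ‖cc ν‖
        ≤ 4 * Y * (2 * A) ^ (k - 1 : ℝ) * (X * (Y : ℝ) ^ k) := mul_le_mul_of_nonneg_left h1 (by positivity)
      _ = (2 * A) ^ (k - 1 : ℝ) * X * (16 * (Y : ℝ) ^ (k + 1)) / 4 := by ring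
      _ ≤ (2 * A) ^ (k - 1 : ℝ) * X * (A * (κ * r)) / 4 := by linarith
      _ = ((2 * A) ^ (k - 1 : ℝ) * (2 * A)) * (κ * r / 8 * X) := by ring
      _ = _ := by rw [h3]
  -- everything together
  have c1 : ε * (1 + L) = κ * r / 8 := by
    rw [hε]
    field_simp
  have c2 : K / L = κ * r / 8 := by
    rw [hL]
    field_simp
  have c3 : V * (K * X ^ 2) / (L * X) = V * X * (κ * r / 8) := by
    rw [← c2]
    field_simp
  have c4 : L * X * (ε * A ^ k) ≤ V * X * (L * ε) := by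
    have := mul_le_mul_of_nonneg_left hAV' (by positivity : 0 ≤ L * X * ε)
    linarith
  have c5 : V * (((1 + C₁) * (Y : ℝ) ^ (-(1 / 16) : ℝ)) * X) ≤ V * X * (κ * r / 8) := by
    have := mul_le_mul_of_nonneg_left hY (by positivity : 0 ≤ V * X)
    linarith
  have c6 : V * (‖Sc s X (c X) n₀‖ * r) ≤ V * X * (κ * r / 2) := by
    have h1 : V * (ε * X) + V * X * (L * ε) = V * X * (κ * r / 8) := by
      rw [← c1]
      ring
    have h2 : V * (κ * r / 8 * X) = V * X * (κ * r / 8) := by ring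
    rw [c3] at b3
    rw [h2] at b8
    have h3 : V * X * (κ * r / 2) = 4 * (V * X * (κ * r / 8)) := by ring
    rw [h3]
    linarith
  have c7 : ‖Sc s X (c X) n₀‖ ≤ X * (κ / 2) := by
    have h1 : V * r * ‖Sc s X (c X) n₀‖ ≤ V * r * (X * (κ / 2)) := by linarith
    exact le_of_mul_le_mul_left h1 (by positivity)
  rw [dist_zero_right, norm_div, Complex.norm_real, Real.norm_of_nonneg hX0.le, div_lt_iff₀ hX0]
  have : 0 < κ * X := by positivity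
  linarith

end

end Pool.Agent.J4.H50.EA
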