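import Pool.Agent.J4.H50.EA.W10

/-! The criterion for bounded weights; additive characters. -/

set_option autoImplicit false

namespace Pool.Agent.J4.H50.EA

open Complex Filter Topology MeasureTheory Set
open Pool.Agent.N879.QM
open Pool.Agent.N879.QM.FLp

noncomputable section

variable {k : ℕ}

lemma FW_sub (k : ℕ) (s : ℤ) (θ : ℝ) (m : ℕ) (c : ℕ → ℂ) (ν r : ℂ) (X : ℝ) (β : Fin k → ℝ) :
    FW k s θ m (fun q => r * (c q - ν)) X β = r * (FW k s θ m c X β - ν * FW k s θ m (fun _ => 1) X β) := by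
  unfold FW
  rw [Finset.mul_sum, ← Finset.sum_sub_distrib, Finset.mul_sum]
  refine Finset.sum_congr rfl fun q _ => ?_
  ring

lemma Sc_sub (s : ℤ) (c : ℕ → ℂ) (ν r : ℂ) (X : ℝ) (n : ℕ) :
    Sc s X (fun q => r * (c q - ν)) n = r * (Sc s X c n - ν * Sc s X (fun _ => 1) n) := by
  unfold Sc
  rw [Finset.mul_sum, ← Finset.sum_sub_distrib, Finset.mul_sum]
  refine Finset.sum_congr rfl fun q _ => ?_
  ring

/-- the criterion -/
theorem crit (hMB : S_MB) (hP : S_P1) (hO : S_OPB) (hT : S_TEL) (hc : S_CTS) (hAV : S_AVG) (k : ℕ) (θ : ℝ)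
    (hk : 1 ≤ k) (hθ : 0 < θ) (hθ1 : θ ≤ 1) (m : ℕ) (hm : 8 * k + 1 ≤ m) (s : ℤ) (hs : s = 1 ∨ s = -1)
    (hW : Sm k θ (fun X β => FW k s θ m (fun _ => 1) X β - ((c0 * X : ℝ) : ℂ) * MT (im β)))
    (c : ℝ → ℕ → ℂ) (ν : ℝ → ℂ) (B : ℝ) (hcb : ∀ X q, ‖c X q‖ ≤ B) (hν : ∀ X, ‖ν X‖ ≤ B) :
    Sm k θ (fun X β => FW k s θ m (c X) X β - ν X * (((c0 * X : ℝ) : ℂ) * MT (im β))) ↔
      ∀ n : ℕ, 1 ≤ n → Tendsto (fun X : ℝ => (Sc s X (c X) n - ν X * Sc s X (fun _ => 1) n) / (X : ℂ)) atTop (𝓝 0) := by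
  have hB0 : 0 ≤ B := (norm_nonneg _).trans (hν 0)
  obtain ⟨R, hR⟩ : ∃ R : ℝ, R = 2 * B + 1 := ⟨_, rfl⟩
  have hR0 : 0 < R := by rw [hR]; positivity
  have hRc : (R : ℂ) ≠ 0 := by exact_mod_cast hR0.ne'
  obtain ⟨r, hr⟩ : ∃ r : ℂ, r = (R : ℂ)⁻¹ := ⟨_, rfl⟩
  have hrn : ‖r‖ = R⁻¹ := by rw [hr, norm_inv, Complex.norm_real, Real.norm_of_nonneg hR0.le]
  obtain ⟨c', hc'⟩ : ∃ c' : ℝ → ℕ → ℂ, c' = fun X q => r * (c X q - ν X) := ⟨_, rfl⟩
  have hc1 : ∀ X q, ‖c' X q‖ ≤ 1 := by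
    intro X q
    rw [hc']
    simp only
    rw [norm_mul, hrn, inv_mul_le_iff₀ hR0, mul_one, hR]
    have := norm_sub_le (c X q) (ν X)
    linarith [hcb X q, hν X]
  have e1 : ∀ X β, FW k s θ m (c' X) X β = r * (FW k s θ m (c X) X β - ν X * FW k s θ m (fun _ => 1) X β) := by
    intro X β
    rw [hc']
    exact FW_sub k s θ m (c X) (ν X) r X β
  have e2 : ∀ X n, Sc s X (c' X) n = r * (Sc s X (c X) n - ν X * Sc s X (fun _ => 1) n) := by
    intro X n
    rw [hc']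
    exact Sc_sub s (c X) (ν X) r X n
  constructor
  · intro h n hn
    have h1 : Sm k θ (fun X => FW k s θ m (c' X) X) := by
      have h2 := (h.const_mul (a := fun _ => r) (R := R⁻¹) (fun _ => hrn.le)).add
        (hW.const_mul (a := fun X => -(r * ν X)) (R := R⁻¹ * B) (fun X => by
          rw [norm_neg, norm_mul, hrn]
          exact mul_le_mul_of_nonneg_left (hν X) (by positivity)))
      refine h2.congr fun X β => ?_
      rw [e1]
      ring
    have h3 := crit_to hMB hP hO hT hc hAV k θ hk hθ hθ1 m hm s hs c' hc1 h1 n hn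
    have h4 := h3.const_mul (R : ℂ)
    rw [mul_zero] at h4
    refine h4.congr fun X => ?_
    rw [e2, hr]
    field_simp
  · intro h
    have h1 : ∀ n : ℕ, 1 ≤ n → Tendsto (fun X : ℝ => Sc s X (c' X) n / (X : ℂ)) atTop (𝓝 0) := by
      intro n hn
      have h4 := (h n hn).const_mul r
      rw [mul_zero] at h4
      refine h4.congr fun X => ?_
      rw [e2]
      ring
    have h2 := crit_of hMB hP hO hT hc hAV k θ hk hθ hθ1 m hm s hs c' hc1 h1
    have h3 := (h2.const_mul (a := fun _ => (R : ℂ)) (R := R) (fun _ => by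
      rw [Complex.norm_real, Real.norm_of_nonneg hR0.le])).add (hW.const_mul (a := ν) (R := B) hν)
    refine h3.congr fun X β => ?_
    rw [e1, hr]
    field_simp
    ring

/-- the criterion for the difference of the weights -/
theorem crit_ap (hMB : S_MB) (hP : S_P1) (hO : S_OPB) (hT : S_TEL) (hc : S_CTS) (hAV : S_AVG) (k : ℕ) (θ : ℝ)
    (hk : 1 ≤ k) (hθ : 0 < θ) (hθ1 : θ ≤ 1) (m : ℕ) (hm : 8 * k + 1 ≤ m) (s : ℤ) (hs : s = 1 ∨ s = -1)
    (hW : Sm k θ (fun X β => FW k s θ m (fun _ => 1) X β - ((c0 * X : ℝ) : ℂ) * MT (im β)))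
    (c : ℝ → ℕ → ℂ) (ν : ℝ → ℂ) (B : ℝ) (hcb : ∀ X q, ‖c X q‖ ≤ B) (hν : ∀ X, ‖ν X‖ ≤ B)
    (hAP : APnull fun X q => c X q - ν X) :
    Sm k θ (fun X β => FW k s θ m (c X) X β - ν X * (((c0 * X : ℝ) : ℂ) * MT (im β))) := by
  rw [crit hMB hP hO hT hc hAV k θ hk hθ hθ1 m hm s hs hW c ν B hcb hν]
  intro n hn
  have h1 := ap_null s hs (B := 2 * B) (fun X q => by
    have := norm_sub_le (c X q) (ν X)
    linarith [hcb X q, hν X]) hAP hn
  refine h1.congr fun X => ?_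
  have h2 := Sc_sub s (c X) (ν X) 1 X n
  simp only [one_mul] at h2
  rw [h2]

/-- geometric sums along arithmetic progressions -/
lemma geo_ap {z : ℂ} (hz : ‖z‖ = 1) {M : ℕ} (hM : 1 ≤ M) (hzM : z ^ M ≠ 1) (a K : ℕ) :
    ‖∑ q ∈ (Finset.range K).filter (fun q => q % M = a), z ^ q‖ ≤ 2 * M / ‖z ^ M - 1‖ := by
  obtain ⟨f, hf⟩ : ∃ f : ℕ → ℂ, f = fun q => if q % M = a then z ^ q else 0 := ⟨_, rfl⟩
  have hf1 : ∀ q, ‖f q‖ ≤ 1 := by
    intro q
    rw [hf]
    simp only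
    split_ifs
    · rw [norm_pow, hz, one_pow]
    · rw [norm_zero]
      exact zero_le_one
  have hf2 : ∀ q, f (M + q) = z ^ M * f q := by
    intro q
    rw [hf]
    simp only [Nat.add_mod_left]
    split_ifs
    · rw [pow_add]
    · rw [mul_zero]
  have e1 : ∑ q ∈ (Finset.range K).filter (fun q => q % M = a), z ^ q = ∑ q ∈ Finset.range K, f q := by
    rw [Finset.sum_filter, hf]
  have e2 := Finset.sum_range_add f M K
  have e3 := Finset.sum_range_add f K M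
  rw [add_comm M K, e3] at e2
  have e4 : ∑ x ∈ Finset.range K, f (M + x) = z ^ M * ∑ x ∈ Finset.range K, f x := by
    rw [Finset.mul_sum]
    exact Finset.sum_congr rfl fun x _ => hf2 x
  rw [e4] at e2
  have e5 : (z ^ M - 1) * ∑ x ∈ Finset.range K, f x =
      ∑ x ∈ Finset.range M, f (K + x) - ∑ x ∈ Finset.range M, f x := by
    linear_combination -e2
  have h1 : ‖∑ x ∈ Finset.range M, f (K + x)‖ ≤ M := by
    refine (norm_sum_le _ _).trans ((Finset.sum_le_sum fun x _ => hf1 (K + x)).trans ?_)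
    simp
  have h2 : ‖∑ x ∈ Finset.range M, f x‖ ≤ M := by
    refine (norm_sum_le _ _).trans ((Finset.sum_le_sum fun x _ => hf1 x).trans ?_)
    simp
  have h3 : 0 < ‖z ^ M - 1‖ := norm_pos_iff.2 (sub_ne_zero.2 hzM)
  rw [e1, le_div_iff₀ h3, mul_comm, ← norm_mul, e5]
  refine (norm_sub_le _ _).trans ?_
  linarith

/-- additive characters with irrational frequency have no correlations -/
lemma add_null {ϑ : ℝ} (h : Irrational ϑ) :
    APnull fun _ q => Complex.exp (2 * Real.pi * I * (ϑ * q)) := by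
  intro M hM a
  obtain ⟨z, hz⟩ : ∃ z : ℂ, z = Complex.exp (((2 * Real.pi * ϑ : ℝ) : ℂ) * I) := ⟨_, rfl⟩
  have hz1 : ‖z‖ = 1 := by
    rw [hz]
    exact Complex.norm_exp_ofReal_mul_I _
  have hzM : z ^ M ≠ 1 := by
    rw [hz, ← Complex.exp_nat_mul]
    intro h1
    rw [Complex.exp_eq_one_iff] at h1
    obtain ⟨n, hn⟩ := h1
    have hpi : (Real.pi : ℂ) ≠ 0 := by exact_mod_cast Real.pi_ne_zero
    have h2 : ((M : ℝ) * ϑ : ℝ) = n := by
      have h3 : ((M : ℂ) * (ϑ : ℂ)) * (2 * Real.pi * I) = n * (2 * Real.pi * I) := by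
        rw [← hn]
        push_cast
        ring
      have h4 := mul_right_cancel₀ (by
        simp only [ne_eq, mul_eq_zero, OfNat.ofNat_ne_zero, hpi, I_ne_zero, or_self, not_false_eq_true]) h3
      exact_mod_cast h4
    have h5 : Irrational ((M : ℝ) * ϑ) := by
      have := h.natCast_mul (m := M) (by omega)
      exact this
    exact h5.ne_int n h2
  have e1 : ∀ q : ℕ, Complex.exp (2 * Real.pi * I * (ϑ * q)) = z ^ q := by
    intro q
    rw [hz, ← Complex.exp_nat_mul]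
    congr 1
    push_cast
    ring
  simp only [e1]
  rw [tendsto_zero_iff_norm_tendsto_zero]
  have h0 : Tendsto (fun X : ℝ => 2 * M / ‖z ^ M - 1‖ / X) atTop (𝓝 0) := tendsto_const_nhds.div_atTop tendsto_id
  refine squeeze_zero' (Eventually.of_forall fun X => norm_nonneg _) ?_ h0
  filter_upwards [eventually_gt_atTop 0] with X hX
  rw [norm_div, Complex.norm_real, Real.norm_of_nonneg hX.le]
  exact div_le_div_of_nonneg_right (geo_ap hz1 hM hzM a _) hX.le

end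

end Pool.Agent.J4.H50.EA
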