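import Pool.Agent.N879.QM.Fl

/-! Mean squares on the cube, two-sided. -/

set_option autoImplicit false

namespace Pool.Agent.J4.H50.EA

open Complex Filter Topology MeasureTheory Set
open Pool.Agent.N879.QM
open Pool.Agent.N879.QM.FLp

noncomputable section

theorem FL2 (k N : ℕ) (T : ℝ) (c : (Fin k → ℕ) → ℂ) (hN : 1 ≤ N) (hT : 0 < T) :
    |(∫ γ, ‖∑ ν ∈ tup k N, c ν * chr ν γ‖ ^ 2 ∂(mS k T)) - (2 * T) ^ k * ∑ ν ∈ tup k N, ‖c ν‖ ^ 2| ≤
      4 * N * (2 * T) ^ (k - 1 : ℝ) * (∑ ν ∈ tup k N, ‖c ν‖) ^ 2 := by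
  classical
  have := fin_mS k T
  have hT2 : 0 < 2 * T := by linarith
  -- the complex form of the integral
  have h1 : ((∫ γ, ‖∑ ν ∈ tup k N, c ν * chr ν γ‖ ^ 2 ∂(mS k T) : ℝ) : ℂ) =
      ∑ ν ∈ tup k N, ∑ ν' ∈ tup k N, c ν * (starRingEnd ℂ) (c ν') *
        ∏ i, EE T (th ν i - th ν' i) := by
    rw [← integral_complex_ofReal]
    have h2 : ∀ γ : Fin k → ℝ, ((‖∑ ν ∈ tup k N, c ν * chr ν γ‖ ^ 2 : ℝ) : ℂ) =
        ∑ ν ∈ tup k N, ∑ ν' ∈ tup k N, c ν * (starRingEnd ℂ) (c ν') *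
          (chr ν γ * (starRingEnd ℂ) (chr ν' γ)) := by
      intro γ
      have h3 := Complex.mul_conj (∑ ν ∈ tup k N, c ν * chr ν γ)
      rw [Complex.normSq_eq_norm_sq] at h3
      rw [← h3, map_sum, Finset.sum_mul_sum]
      apply Finset.sum_congr rfl
      intro ν _
      apply Finset.sum_congr rfl
      intro ν' _
      rw [map_mul]
      ring
    simp only [h2]
    have hi : ∀ ν ∈ tup k N, ∀ ν' ∈ tup k N, Integrable (fun γ : Fin k → ℝ =>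
        c ν * (starRingEnd ℂ) (c ν') * (chr ν γ * (starRingEnd ℂ) (chr ν' γ)))
        (mS k T) := by
      intro ν hν ν' hν'
      apply Integrable.const_mul
      apply Integrable.of_bound ((ch_cont hν).mul
        (Complex.continuous_conj.comp (ch_cont hν'))).aestronglyMeasurable (C := 1)
      refine ae_of_all _ fun γ => ?_
      show ‖chr ν γ * (starRingEnd ℂ) (chr ν' γ)‖ ≤ 1
      rw [norm_mul, RCLike.norm_conj, ch_norm hν, ch_norm hν']
      norm_num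
    rw [integral_finsetSum _ fun ν hν => integrable_finsetSum _ fun ν' hν' => hi ν hν ν' hν']
    apply Finset.sum_congr rfl
    intro ν hν
    rw [integral_finsetSum _ fun ν' hν' => hi ν hν ν' hν']
    apply Finset.sum_congr rfl
    intro ν' hν'
    rw [integral_const_mul, int_ch hν hν']
  -- the diagonal
  have h2 : (((2 * T) ^ k * ∑ ν ∈ tup k N, ‖c ν‖ ^ 2 : ℝ) : ℂ) =
      ∑ ν ∈ tup k N, ∑ ν' ∈ tup k N, (if ν' = ν then (((2 * T) ^ k * ‖c ν‖ ^ 2 : ℝ) : ℂ) else 0) := by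
    rw [Finset.mul_sum]
    push_cast
    refine Finset.sum_congr rfl fun ν hν => ?_
    rw [Finset.sum_ite_eq' (tup k N) ν, if_pos hν]
  have h3 : |(∫ γ, ‖∑ ν ∈ tup k N, c ν * chr ν γ‖ ^ 2 ∂(mS k T)) - (2 * T) ^ k * ∑ ν ∈ tup k N, ‖c ν‖ ^ 2| =
      ‖∑ ν ∈ tup k N, ∑ ν' ∈ tup k N, (c ν * (starRingEnd ℂ) (c ν') * ∏ i, EE T (th ν i - th ν' i) -
        (if ν' = ν then (((2 * T) ^ k * ‖c ν‖ ^ 2 : ℝ) : ℂ) else 0))‖ := by
    simp only [Finset.sum_sub_distrib]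
    rw [← h1, ← h2, ← Complex.ofReal_sub, Complex.norm_real, Real.norm_eq_abs]
  rw [h3]
  have hP : 0 < (2 * T) ^ (k - 1 : ℝ) := Real.rpow_pos_of_pos hT2 _
  refine (norm_sum_le _ _).trans ?_
  have h5 : ∀ ν ∈ tup k N, ‖∑ ν' ∈ tup k N, (c ν * (starRingEnd ℂ) (c ν') * ∏ i, EE T (th ν i - th ν' i) -
        (if ν' = ν then (((2 * T) ^ k * ‖c ν‖ ^ 2 : ℝ) : ℂ) else 0))‖ ≤
        4 * N * (2 * T) ^ (k - 1 : ℝ) * (‖c ν‖ * ∑ ν' ∈ tup k N, ‖c ν'‖) := by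
    intro ν hν
    refine (norm_sum_le _ _).trans ?_
    rw [Finset.mul_sum, Finset.mul_sum]
    refine Finset.sum_le_sum fun ν' hν' => ?_
    by_cases h : ν' = ν
    · subst h
      rw [if_pos rfl, prod_diag hT]
      have e1 : c ν' * (starRingEnd ℂ) (c ν') * ((2 * T : ℝ) : ℂ) ^ k - (((2 * T) ^ k * ‖c ν'‖ ^ 2 : ℝ) : ℂ) = 0 := by
        rw [Complex.mul_conj, Complex.normSq_eq_norm_sq]
        push_cast
        ring
      rw [e1, norm_zero]
      positivity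
    · rw [if_neg h, sub_zero, norm_mul, norm_mul, RCLike.norm_conj]
      have h7 := prod_bound hT hN hν hν' (Ne.symm h)
      calc ‖c ν‖ * ‖c ν'‖ * ‖∏ i, EE T (th ν i - th ν' i)‖
          ≤ ‖c ν‖ * ‖c ν'‖ * (4 * N * (2 * T) ^ (k - 1 : ℝ)) :=
            mul_le_mul_of_nonneg_left h7 (by positivity)
        _ = _ := by ring
  refine (Finset.sum_le_sum h5).trans (le_of_eq ?_)
  rw [← Finset.mul_sum, ← Finset.sum_mul]
  ring

end

end Pool.Agent.J4.H50.EA
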