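import Pool.Agent.J4.H50.EA.W3

/-! From tuples to integers. -/

set_option autoImplicit false

namespace Pool.Agent.J4.H50.EA

open Complex Filter Topology MeasureTheory Set
open Pool.Agent.N879.QM

noncomputable section

/-- the product of the entries -/
def pr {k : ℕ} (n : Fin k → ℕ) : ℕ := ∏ j, n j

lemma mem_tup {k N : ℕ} {n : Fin k → ℕ} : n ∈ tup k N ↔ ∀ j, 1 ≤ n j ∧ n j ≤ N := by
  unfold tup
  simp only [Fintype.mem_piFinset, Finset.mem_Icc]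

lemma one_le_pr {k N : ℕ} {n : Fin k → ℕ} (hn : n ∈ tup k N) : 1 ≤ pr n := by
  unfold pr
  exact Nat.one_le_iff_ne_zero.2 (Finset.prod_ne_zero_iff.2 fun j _ => by
    have := (mem_tup.1 hn j).1
    omega)

lemma tup_card (k N : ℕ) : (tup k N).card = N ^ k := by
  unfold tup
  rw [Fintype.card_piFinset]
  simp

/-- the large products -/
theorem tail (k : ℕ) (hA : S_AVG) : ∃ C : ℝ, 0 < C ∧ ∀ (s : ℤ) (X : ℝ) (c : ℕ → ℂ) (N : ℕ) (Y : ℝ) (T : Finset (Fin k → ℕ)),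
    s = 1 ∨ s = -1 → 1 ≤ X → (∀ q, ‖c q‖ ≤ 1) → 1 ≤ Y → T ⊆ tup k N → (∀ n ∈ T, Y ≤ pr n) →
    ∑ n ∈ T, ‖Sc s X c (pr n)‖ ^ 2 / pr n ≤ C * (X ^ 2 * Y ^ (-(1 / 8) : ℝ) + X ^ (7 / 4 : ℝ) * (N : ℝ) ^ k) := by
  classical
  obtain ⟨C₀, hC₀, hA⟩ := hA
  obtain ⟨Z, hZ0, hZ⟩ := sqclass
  obtain ⟨C₁, hC₁0, hC₁⟩ := Coef.div_pow k (1 / 8) (by norm_num)
  refine ⟨C₁ * Z + √C₀, by positivity, ?_⟩
  intro s X c N Y T hs hX hc hY hT hTY
  have hX0 : 0 < X := by linarith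
  obtain ⟨M, hM⟩ : ∃ M : Finset ℕ, M = T.image pr := ⟨_, rfl⟩
  obtain ⟨r, hr⟩ : ∃ r : ℕ → ℕ, r = fun m => (T.filter fun n => pr n = m).card := ⟨_, rfl⟩
  obtain ⟨w, hw⟩ : ∃ w : ℕ → ℝ, w = fun m => (r m : ℝ) / m := ⟨_, rfl⟩
  have hmM : ∀ m ∈ M, 1 ≤ m ∧ Y ≤ m := by
    intro m hm
    rw [hM, Finset.mem_image] at hm
    obtain ⟨n, hn, rfl⟩ := hm
    exact ⟨one_le_pr (hT hn), hTY n hn⟩
  have hw0 : ∀ m, 0 ≤ w m := by
    intro m
    rw [hw]
    positivity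
  have e1 : ∑ n ∈ T, ‖Sc s X c (pr n)‖ ^ 2 / pr n = ∑ m ∈ M, w m * ‖Sc s X c m‖ ^ 2 := by
    rw [Finset.sum_comp (fun m : ℕ => ‖Sc s X c m‖ ^ 2 / (m : ℝ)) pr, ← hM]
    refine Finset.sum_congr rfl fun m _ => ?_
    rw [nsmul_eq_mul, hw, hr]
    ring
  rw [e1]
  have hr1 : ∀ m ∈ M, (r m : ℝ) ≤ C₁ * (m : ℝ) ^ (1 / 8 : ℝ) := by
    intro m hm
    have hm1 := (hmM m hm).1
    refine le_trans ?_ (hC₁ m hm1)
    have h1 : r m ≤ (Fintype.piFinset fun _ : Fin k => m.divisors).card := by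
      rw [hr]
      refine Finset.card_le_card fun n hn => ?_
      rw [Finset.mem_filter] at hn
      rw [Fintype.mem_piFinset]
      intro j
      rw [Nat.mem_divisors]
      refine ⟨?_, by omega⟩
      rw [← hn.2]
      exact Finset.dvd_prod_of_mem n (Finset.mem_univ j)
    rw [Fintype.card_piFinset] at h1
    simp only [Finset.prod_const, Finset.card_univ, Fintype.card_fin] at h1
    exact_mod_cast h1
  have hΛ : ∀ m ∈ M, w m * ∑ n ∈ M with IsSquare (m * n), ((m : ℝ) / n) ^ (3 / 4 : ℝ) ≤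
      C₁ * Z * Y ^ (-(1 / 8) : ℝ) := by
    intro m hm
    obtain ⟨hm1, hmY⟩ := hmM m hm
    have hm0 : (0 : ℝ) < m := by exact_mod_cast hm1
    have h1 := hZ M m (fun n hn => (hmM n hn).1) hm1
    have h2 : w m ≤ C₁ * (m : ℝ) ^ (1 / 8 : ℝ) / m := by
      rw [hw]
      exact div_le_div_of_nonneg_right (hr1 m hm) hm0.le
    calc w m * ∑ n ∈ M with IsSquare (m * n), ((m : ℝ) / n) ^ (3 / 4 : ℝ)
        ≤ (C₁ * (m : ℝ) ^ (1 / 8 : ℝ) / m) * (Z * (m : ℝ) ^ (3 / 4 : ℝ)) :=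
          mul_le_mul h2 h1 (Finset.sum_nonneg fun _ _ => by positivity) (by positivity)
      _ = C₁ * Z * ((m : ℝ) ^ (1 / 8 : ℝ) * (m : ℝ) ^ (3 / 4 : ℝ) * (m : ℝ) ^ (-1 : ℝ)) := by
          rw [Real.rpow_neg_one]
          ring
      _ = C₁ * Z * (m : ℝ) ^ (-(1 / 8) : ℝ) := by
          rw [← Real.rpow_add hm0, ← Real.rpow_add hm0]
          norm_num
      _ ≤ _ := by
          refine mul_le_mul_of_nonneg_left ?_ (by positivity)
          exact Real.rpow_le_rpow_of_nonpos (by linarith) hmY (by norm_num)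
  have hR : ∑ m ∈ M, w m * √m ≤ (N : ℝ) ^ k := by
    have h1 : ∀ m ∈ M, w m * √m ≤ (r m : ℝ) := by
      intro m hm
      have hm1 : (1 : ℝ) ≤ m := by exact_mod_cast (hmM m hm).1
      have h2 : √(m : ℝ) ≤ m := by
        rw [Real.sqrt_le_left (by linarith)]
        nlinarith
      rw [hw]
      simp only
      rw [div_mul_eq_mul_div, div_le_iff₀ (by linarith)]
      exact mul_le_mul_of_nonneg_left h2 (Nat.cast_nonneg _)
    refine (Finset.sum_le_sum h1).trans ?_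
    have h2 : ∑ m ∈ M, r m = T.card := by
      rw [hM, hr]
      exact (Finset.card_eq_sum_card_image pr T).symm
    have h3 : T.card ≤ N ^ k := by
      rw [← tup_card k N]
      exact Finset.card_le_card hT
    rw [← h2] at h3
    exact_mod_cast h3
  refine (tail_core hC₀.le hX (fun n hn hsq => (hA s X n hs hX hn).2 hsq) hc M (fun m hm => (hmM m hm).1) w hw0
    (by positivity) hR hΛ).trans ?_
  have p1 : 0 ≤ X ^ 2 * Y ^ (-(1 / 8) : ℝ) := by positivity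
  have p2 : 0 ≤ X ^ (7 / 4 : ℝ) * (N : ℝ) ^ k := by positivity
  have p3 : 0 ≤ C₁ * Z := by positivity
  have p4 : 0 ≤ √C₀ := Real.sqrt_nonneg _
  calc X ^ 2 * (C₁ * Z * Y ^ (-(1 / 8) : ℝ)) + √C₀ * X ^ (7 / 4 : ℝ) * (N : ℝ) ^ k
      = C₁ * Z * (X ^ 2 * Y ^ (-(1 / 8) : ℝ)) + √C₀ * (X ^ (7 / 4 : ℝ) * (N : ℝ) ^ k) := by ring
    _ ≤ _ := by nlinarith [mul_nonneg p3 p2, mul_nonneg p4 p1]

/-- the small products -/
theorem small (k N Y : ℕ) (hY : Y ≤ N) (f : ℕ → ℝ) :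
    ∑ n ∈ (tup k N).filter (fun n => pr n ≤ Y), f (pr n) =
      ∑ m ∈ Finset.Icc 1 Y, ((Nat.finMulAntidiag k m).card : ℝ) * f m := by
  classical
  have h1 : ∀ n ∈ (tup k N).filter (fun n => pr n ≤ Y), pr n ∈ Finset.Icc 1 Y := by
    intro n hn
    rw [Finset.mem_filter] at hn
    rw [Finset.mem_Icc]
    exact ⟨one_le_pr hn.1, hn.2⟩
  rw [← Finset.sum_fiberwise_of_maps_to h1]
  refine Finset.sum_congr rfl fun m hm => ?_
  rw [Finset.mem_Icc] at hm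
  have h2 : ((tup k N).filter (fun n => pr n ≤ Y)).filter (fun n => pr n = m) = Nat.finMulAntidiag k m := by
    ext n
    rw [Finset.mem_filter, Finset.mem_filter, mem_tup, Nat.mem_finMulAntidiag]
    constructor
    · rintro ⟨⟨-, -⟩, h⟩
      exact ⟨h, by omega⟩
    · rintro ⟨h, h0⟩
      have h3 : ∀ j, n j ∣ m := by
        intro j
        rw [← h]
        exact Finset.dvd_prod_of_mem n (Finset.mem_univ j)
      have h4 : ∀ j, n j ≠ 0 := by
        intro j hj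
        have := h3 j
        rw [hj, zero_dvd_iff] at this
        omega
      refine ⟨⟨fun j => ⟨by have := h4 j; omega, ?_⟩, ?_⟩, h⟩
      · have := Nat.le_of_dvd (by omega) (h3 j)
        omega
      · show ∏ i, n i ≤ Y
        omega
  rw [h2]
  have h3 : ∀ n ∈ Nat.finMulAntidiag k m, f (pr n) = f m := by
    intro n hn
    rw [Nat.mem_finMulAntidiag] at hn
    rw [show pr n = m from hn.1]
  rw [Finset.sum_congr rfl h3, Finset.sum_const, nsmul_eq_mul]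

end

end Pool.Agent.J4.H50.EA
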