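import Pool.Agent.J4.H50.EA.W1
import Pool.Agent.J4.H50.EA.W2
import Pool.Agent.J4.H50.EA.W4

/-! The mean square with arbitrary weights. -/

set_option autoImplicit false

namespace Pool.Agent.J4.H50.EA

open Complex Filter Topology MeasureTheory Set
open Pool.Agent.N879.QM

noncomputable section

/-- the second theorem of project QM, with explicit removed sets -/
theorem mainE (hMB : S_MB) (hR : S_RMV) (hP : S_P1) (hO : S_OPB) (hT : S_TEL) (hc : S_CTS) (hD : S_DIAG)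
    (hC : S_COEF) (hZ : S_ZR) (hE : S_EUL) (hN : S_NS) (k : ℕ) (s : ℤ) (θ : ℝ) (hk : 1 ≤ k) (hs : s = 1 ∨ s = -1)
    (hθ : 0 < θ) (hθ1 : θ ≤ 1) : ∃ m : ℕ, 8 * k + 1 ≤ m ∧ ∃ δ X₀ : ℝ, 0 < δ ∧ ∀ X : ℝ, X₀ ≤ X →
      ((Ex s X (X ^ θ) (θ * (1 / m) / (8 * k))).card : ℝ) ≤ X ^ (1 - δ) ∧
      mS k (X ^ θ) {β | X ^ (1 - δ) < ‖(∑ q ∈ Q s X \ Ex s X (X ^ θ) (θ * (1 / m) / (8 * k)), ∏ j, LL s q (pt (β j))) -
        ((c0 * X : ℝ) : ℂ) * MT (im β)‖} ≤ ENNReal.ofReal (X ^ (k * θ - δ)) := by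
  classical
  obtain ⟨CD, hCD, hD⟩ := hD k
  obtain ⟨CN, hCN, hN⟩ := hN k
  obtain ⟨m₀, hE3⟩ := E3 hC hZ hE hk le_rfl
  set m : ℕ := m₀ + 8 * k + 1 with hm
  have hm1 : 1 ≤ m := by omega
  have hm0 : (0 : ℝ) < m := by exact_mod_cast hm1
  obtain ⟨C3, X3, hC3, hE3⟩ := hE3 m (by omega) hm1
  have hm9 : (9 : ℝ) ≤ m := by
    have : 9 ≤ m := by omega
    exact_mod_cast this
  set η : ℝ := θ * (1 / m) with hη
  have hη0 : 0 < η := by positivity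
  have hηθ : η ≤ θ / 4 := by
    rw [hη, mul_one_div]
    exact div_le_div_of_nonneg_left hθ.le (by norm_num) (by linarith)
  have hk0 : (0 : ℝ) < k := by exact_mod_cast hk
  have hk1 : (1 : ℝ) ≤ k := by exact_mod_cast hk
  have hkη : k * η ≤ 1 / 8 := by
    have h1 : η ≤ 1 / m := by
      rw [hη]
      have : 0 ≤ (1 / m : ℝ) := by positivity
      nlinarith
    have h2 : (k : ℝ) * (1 / m) ≤ 1 / 8 := by
      rw [mul_one_div, div_le_div_iff₀ hm0 (by norm_num)]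
      have : k * 8 ≤ 1 * m := by omega
      exact_mod_cast this
    exact (mul_le_mul_of_nonneg_left h1 hk0.le).trans h2
  set ρ : ℝ := η / (8 * k) with hρ
  have hρ0 : 0 < ρ := by positivity
  have hρη : ρ ≤ η / 8 := by
    rw [hρ]
    exact div_le_div_of_nonneg_left hη0.le (by norm_num) (by linarith)
  obtain ⟨C1, X1, hC1, hE1⟩ := E1B (k := k) hP hO hT hc hk hθ hθ1 hη0 hηθ
  obtain ⟨C2, X2, hC2, hE2⟩ := E2B (k := k) hMB hR hθ hθ1 hρ0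
  obtain ⟨CE, hCE, hEx⟩ := Ex_card hMB hρ0
  set δ : ℝ := ρ / 16 with hδ
  have hδ0 : 0 < δ := by positivity
  have hc0 : 0 < c0 := by unfold c0; positivity
  have hη18 : η ≤ 1 / 8 := le_trans (by nlinarith) hkη
  -- large X
  have ev1 : ∀ᶠ X : ℝ in atTop, 4 * CD ≤ X ^ (3 / 8 - δ : ℝ) :=
    (tendsto_rpow_atTop (by linarith)).eventually_ge_atTop _
  have ev2 : ∀ᶠ X : ℝ in atTop, CN + 16 * C1 + 16 * C2 + 16 * c0 ^ 2 * C3 ≤ X ^ δ :=
    (tendsto_rpow_atTop hδ0).eventually_ge_atTop _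
  have ev3 : ∀ᶠ X : ℝ in atTop, CE ≤ X ^ (ρ / 2 - δ) :=
    (tendsto_rpow_atTop (by linarith)).eventually_ge_atTop _
  have ev4 : ∀ᶠ X : ℝ in atTop, max X3 2 ≤ X ^ θ :=
    (tendsto_rpow_atTop hθ).eventually_ge_atTop _
  obtain ⟨X₀, hX₀⟩ := eventually_atTop.1 ((((ev1.and ev2).and (ev3.and ev4)).and
    ((eventually_ge_atTop X1).and (eventually_ge_atTop X2))).and (eventually_ge_atTop 2))
  refine ⟨m, by omega, δ, X₀, hδ0, ?_⟩
  intro X hX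
  obtain ⟨⟨⟨⟨v1, v2⟩, v3, v4⟩, v5, v6⟩, v7⟩ := hX₀ X hX
  have hX0 : 0 < X := by linarith
  have hX1 : 1 ≤ X := by linarith
  set A : ℝ := X ^ θ with hA
  have hAX : A ≤ X := by
    rw [hA]
    calc X ^ θ ≤ X ^ (1 : ℝ) := Real.rpow_le_rpow_of_exponent_le hX1 hθ1
      _ = X := Real.rpow_one X
  have hA2 : 2 ≤ A := (le_max_right _ _).trans v4
  have hA3 : X3 ≤ A := (le_max_left _ _).trans v4
  have hA1 : 1 ≤ A := by linarith
  have hAη : A ^ (1 / m : ℝ) = X ^ η := by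
    rw [hA, ← Real.rpow_mul hX0.le]
  set N : ℕ := ⌊X ^ η⌋₊ with hNd
  obtain ⟨f1, f2, f3⟩ := floor_half (Real.one_le_rpow hX1 hη0.le : 1 ≤ X ^ η)
  rw [← hNd] at f1 f2 f3
  have hN0 : (0 : ℝ) < N := by exact_mod_cast f3
  have hNA : (N : ℝ) ≤ A := by
    refine f2.trans ?_
    apply Real.rpow_le_rpow_of_exponent_le hX1
    linarith
  set E : Finset ℕ := Ex s X A ρ with hEd
  refine ⟨?_, ?_⟩
  · refine (hEx s X A hs hA2 hAX).trans ?_
    calc CE * X ^ (1 - ρ / 2) ≤ X ^ (ρ / 2 - δ) * X ^ (1 - ρ / 2) := by gcongr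
      _ = X ^ (1 - δ) := by rw [← Real.rpow_add hX0]; congr 1; ring
  have g1 := hE1 s X N hs v5 f1 f2 f3
  have g4 := hE2 s X N hs v6 hNA f3
  have g3 := hE3 A N hA3 hA2 (by rw [hAη]; exact f1) (by rw [hAη]; exact f2) f3
  rw [Real.rpow_one] at g3
  -- the diagonal error
  have g2 : ∀ β : Fin k → ℝ, ‖(∑ q ∈ Q s X, ∏ j, PN s q N (β j)) - ((c0 * X : ℝ) : ℂ) * SN k N β‖ ≤
      X ^ (1 - δ) / 4 := by
    intro β
    refine (hD s X N β hs hX1 f3).trans ?_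
    have h1 : (N : ℝ) ^ k ≤ X ^ (1 / 8 : ℝ) := by
      calc (N : ℝ) ^ k ≤ (X ^ η) ^ k := pow_le_pow_left₀ hN0.le f2 _
        _ = X ^ (k * η) := by rw [← Real.rpow_natCast, ← Real.rpow_mul hX0.le]; congr 1; ring
        _ ≤ X ^ (1 / 8 : ℝ) := Real.rpow_le_rpow_of_exponent_le hX1 hkη
    have h2 : √X = X ^ (1 / 2 : ℝ) := Real.sqrt_eq_rpow X
    have h3 : X ^ (1 - δ) = X ^ (3 / 8 - δ : ℝ) * (X ^ (1 / 2 : ℝ) * X ^ (1 / 8 : ℝ)) := by
      rw [← Real.rpow_add hX0, ← Real.rpow_add hX0]; congr 1; ring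
    rw [h2, h3, le_div_iff₀ (by norm_num)]
    calc CD * X ^ (1 / 2 : ℝ) * (N : ℝ) ^ k * 4 ≤ CD * X ^ (1 / 2 : ℝ) * X ^ (1 / 8 : ℝ) * 4 := by gcongr
      _ = 4 * CD * (X ^ (1 / 2 : ℝ) * X ^ (1 / 8 : ℝ)) := by ring
      _ ≤ X ^ (3 / 8 - δ : ℝ) * (X ^ (1 / 2 : ℝ) * X ^ (1 / 8 : ℝ)) := by gcongr
  -- the sets
  set D1 : (Fin k → ℝ) → ℂ := fun β => ∑ q ∈ Q s X \ E, (∏ j, LL s q (pt (β j)) - ∏ j, PN s q N (β j)) with hD1
  set D2 : (Fin k → ℝ) → ℂ := fun β => ∑ q ∈ E, ∏ j, PN s q N (β j) with hD2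
  set D3 : (Fin k → ℝ) → ℂ := fun β => SN k N β - MT (im β) with hD3
  have c1 : Continuous D1 := by
    refine continuous_finset_sum _ fun q hq => Continuous.sub ?_ ?_
    · exact continuous_finset_prod _ fun j _ =>
        (hc s q (Q_is (Finset.sdiff_subset hq)).1).comp (continuous_apply j)
    · exact continuous_finset_prod _ fun j _ => (PN_cont s q N).comp (continuous_apply j)
  have c2 : Continuous D2 :=
    continuous_finset_sum _ fun q _ => continuous_finset_prod _ fun j _ => (PN_cont s q N).comp (continuous_apply j)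
  have hXδ : 0 < X ^ (1 - δ) / 4 := by positivity
  have hlam3 : 0 < X ^ (-δ) / (4 * c0) := by positivity
  have hsub : {β : Fin k → ℝ | X ^ (1 - δ) <
      ‖(∑ q ∈ Q s X \ E, ∏ j, LL s q (pt (β j))) - ((c0 * X : ℝ) : ℂ) * MT (im β)‖} ⊆
      (Gd k A)ᶜ ∪ ({β | X ^ (1 - δ) / 4 < ‖D1 β‖} ∪ ({β | X ^ (1 - δ) / 4 < ‖D2 β‖} ∪
        ({β | X ^ (-δ) / (4 * c0) < ‖D3 β‖} ∩ Gd k A))) := by
    intro β hβ
    by_contra hcon
    simp only [mem_union, mem_compl_iff, mem_inter_iff, not_or, not_and, not_not] at hcon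
    obtain ⟨h1, h2, h2b, h3⟩ := hcon
    have h2' : ‖D1 β‖ ≤ X ^ (1 - δ) / 4 := not_lt.1 h2
    have h2b' : ‖D2 β‖ ≤ X ^ (1 - δ) / 4 := not_lt.1 h2b
    have h3' : ‖D3 β‖ ≤ X ^ (-δ) / (4 * c0) := by
      by_contra hh
      exact (h3 (not_le.1 hh)) h1
    have e0 : ∑ q ∈ Q s X, ∏ j, PN s q N (β j) = (∑ q ∈ Q s X \ E, ∏ j, PN s q N (β j)) + D2 β :=
      (Finset.sum_sdiff (Ex_sub s X A ρ)).symm
    have e : (∑ q ∈ Q s X \ E, ∏ j, LL s q (pt (β j))) - ((c0 * X : ℝ) : ℂ) * MT (im β) =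
        D1 β + ((∑ q ∈ Q s X, ∏ j, PN s q N (β j)) - ((c0 * X : ℝ) : ℂ) * SN k N β) +
          ((c0 * X : ℝ) : ℂ) * D3 β - D2 β := by
      rw [e0]
      simp only [hD1, hD3, Finset.sum_sub_distrib]
      ring
    have h4 : ‖((c0 * X : ℝ) : ℂ) * D3 β‖ ≤ X ^ (1 - δ) / 4 := by
      rw [norm_mul, Complex.norm_real, Real.norm_of_nonneg (by positivity)]
      calc c0 * X * ‖D3 β‖ ≤ c0 * X * (X ^ (-δ) / (4 * c0)) := by gcongr
        _ = X ^ (-δ) * X / 4 := by field_simp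
        _ = X ^ (1 - δ) / 4 := by
            nth_rewrite 2 [← Real.rpow_one X]
            rw [← Real.rpow_add hX0]; congr 2; ring
    have h5 : ‖(∑ q ∈ Q s X \ E, ∏ j, LL s q (pt (β j))) - ((c0 * X : ℝ) : ℂ) * MT (im β)‖ ≤ X ^ (1 - δ) := by
      rw [e]
      refine (norm_sub_le _ _).trans ?_
      have k1 := norm_add_le (D1 β + ((∑ q ∈ Q s X, ∏ j, PN s q N (β j)) - ((c0 * X : ℝ) : ℂ) * SN k N β))
        (((c0 * X : ℝ) : ℂ) * D3 β)
      have k2 := norm_add_le (D1 β) ((∑ q ∈ Q s X, ∏ j, PN s q N (β j)) - ((c0 * X : ℝ) : ℂ) * SN k N β)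
      linarith [g2 β]
    exact absurd h5 (not_le.2 hβ)
  refine (measure_mono hsub).trans ?_
  refine (measure_union_le _ _).trans ((add_le_add_right ((measure_union_le _ _).trans
    (add_le_add_right (measure_union_le _ _) _)) _).trans ?_)
  have m1 : mS k A (Gd k A)ᶜ ≤ ENNReal.ofReal (CN * X ^ (k * θ - 2 * δ)) := by
    refine (hN A hA1).trans (ENNReal.ofReal_le_ofReal ?_)
    apply mul_le_mul_of_nonneg_left _ hCN.le
    rw [hA, ← Real.rpow_mul hX0.le]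
    apply Real.rpow_le_rpow_of_exponent_le hX1
    have : 4 * δ ≤ θ := by
      rw [hδ]; linarith
    nlinarith
  have esq : (X ^ (1 - δ) / 4) ^ 2 = X ^ (2 - 2 * δ) / 16 := by
    rw [div_pow, ← Real.rpow_natCast, ← Real.rpow_mul hX0.le]
    norm_num
    congr 1; ring
  have hXd2 : 0 < X ^ (2 - 2 * δ) := by positivity
  have m2 : mS k A {β | X ^ (1 - δ) / 4 < ‖D1 β‖} ≤ ENNReal.ofReal (16 * C1 * X ^ (k * θ - 2 * δ)) := by
    refine (cheb (g := fun β => ‖D1 β‖) c1.norm.aemeasurable hXδ g1).trans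
      (ENNReal.ofReal_le_ofReal ?_)
    rw [esq]
    have e2 : X ^ (k * θ + 2 - η / 4) ≤ X ^ (k * θ - 2 * δ) * X ^ (2 - 2 * δ) := by
      rw [← Real.rpow_add hX0]
      apply Real.rpow_le_rpow_of_exponent_le hX1
      rw [hδ]; linarith
    rw [div_le_iff₀ (by positivity)]
    calc C1 * X ^ (k * θ + 2 - η / 4) ≤ C1 * (X ^ (k * θ - 2 * δ) * X ^ (2 - 2 * δ)) := by gcongr
      _ = 16 * C1 * X ^ (k * θ - 2 * δ) * (X ^ (2 - 2 * δ) / 16) := by ring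
  have m4 : mS k A {β | X ^ (1 - δ) / 4 < ‖D2 β‖} ≤ ENNReal.ofReal (16 * C2 * X ^ (k * θ - 2 * δ)) := by
    refine (cheb (g := fun β => ‖D2 β‖) c2.norm.aemeasurable hXδ g4).trans
      (ENNReal.ofReal_le_ofReal ?_)
    rw [esq]
    have e2 : X ^ (k * θ + 2 - ρ / 2) ≤ X ^ (k * θ - 2 * δ) * X ^ (2 - 2 * δ) := by
      rw [← Real.rpow_add hX0]
      apply Real.rpow_le_rpow_of_exponent_le hX1
      rw [hδ]; linarith
    rw [div_le_iff₀ (by positivity)]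
    calc C2 * X ^ (k * θ + 2 - ρ / 2) ≤ C2 * (X ^ (k * θ - 2 * δ) * X ^ (2 - 2 * δ)) := by gcongr
      _ = 16 * C2 * X ^ (k * θ - 2 * δ) * (X ^ (2 - 2 * δ) / 16) := by ring
  have m3 : mS k A ({β | X ^ (-δ) / (4 * c0) < ‖D3 β‖} ∩ Gd k A) ≤
      ENNReal.ofReal (16 * c0 ^ 2 * C3 * X ^ (k * θ - 2 * δ)) := by
    rw [← Measure.restrict_apply' (Gd_meas k A)]
    have hmD : Measurable D3 := (meas_SN N).sub (meas_MT hE)
    refine (cheb (g := fun β => ‖D3 β‖) hmD.norm.aemeasurable hlam3 g3).trans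
      (ENNReal.ofReal_le_ofReal ?_)
    have e1 : (X ^ (-δ) / (4 * c0)) ^ 2 = X ^ (-(2 * δ)) / (16 * c0 ^ 2) := by
      rw [div_pow, ← Real.rpow_natCast, ← Real.rpow_mul hX0.le]
      norm_num
      rw [mul_pow]; norm_num
      congr 2; ring
    rw [e1]
    have e2 : A ^ ((k : ℝ) * 1 - 1 / (4 * m)) ≤ X ^ (k * θ - 2 * δ) * X ^ (-(2 * δ)) := by
      rw [← Real.rpow_add hX0, hA, ← Real.rpow_mul hX0.le]
      apply Real.rpow_le_rpow_of_exponent_le hX1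
      have h1 : θ * ((k : ℝ) * 1 - 1 / (4 * m)) = k * θ - η / 4 := by rw [hη]; field_simp
      rw [h1, hδ]
      linarith
    have e3 : 0 < X ^ (-(2 * δ)) := by positivity
    rw [div_le_iff₀ (by positivity)]
    calc C3 * A ^ ((k : ℝ) * 1 - 1 / (4 * m)) ≤ C3 * (X ^ (k * θ - 2 * δ) * X ^ (-(2 * δ))) := by gcongr
      _ = 16 * c0 ^ 2 * C3 * X ^ (k * θ - 2 * δ) * (X ^ (-(2 * δ)) / (16 * c0 ^ 2)) := by
          field_simp
  refine (add_le_add m1 (add_le_add m2 (add_le_add m4 m3))).trans ?_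
  rw [← ENNReal.ofReal_add (by positivity) (by positivity), ← ENNReal.ofReal_add (by positivity) (by positivity),
    ← ENNReal.ofReal_add (by positivity) (by positivity)]
  apply ENNReal.ofReal_le_ofReal
  calc CN * X ^ (k * θ - 2 * δ) + (16 * C1 * X ^ (k * θ - 2 * δ) + (16 * C2 * X ^ (k * θ - 2 * δ) +
        16 * c0 ^ 2 * C3 * X ^ (k * θ - 2 * δ)))
      = (CN + 16 * C1 + 16 * C2 + 16 * c0 ^ 2 * C3) * X ^ (k * θ - 2 * δ) := by ring
    _ ≤ X ^ δ * X ^ (k * θ - 2 * δ) := by gcongr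
    _ = X ^ (k * θ - δ) := by rw [← Real.rpow_add hX0]; congr 1; ring

end

end Pool.Agent.J4.H50.EA
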