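import Pool.Agent.J4.H50.EA.W5

/-! The mean square with arbitrary weights. -/

set_option autoImplicit false

namespace Pool.Agent.J4.H50.EA

open Complex Filter Topology MeasureTheory Set
open Pool.Agent.N879.QM

noncomputable section

variable {k : ℕ}

lemma mS_eq (k : ℕ) (A : ℝ) : mS k A = (volume : Measure (Fin k → ℝ)).restrict (Set.univ.pi fun _ => Icc (-A) A) := by
  unfold mS
  rw [volume_pi, Measure.restrict_pi_pi]

lemma int_cont {A : ℝ} {H : (Fin k → ℝ) → ℝ} (hH : Continuous H) : Integrable H (mS k A) := by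
  rw [mS_eq]
  exact hH.continuousOn.integrableOn_compact (isCompact_univ_pi fun _ => isCompact_Icc)

lemma to_real {A B : ℝ} (hB : 0 ≤ B) {H : (Fin k → ℝ) → ℝ} (hH : Continuous H) (h0 : ∀ x, 0 ≤ H x)
    (h : ∫⁻ β, ENNReal.ofReal (H β) ∂(mS k A) ≤ ENNReal.ofReal B) : ∫ β, H β ∂(mS k A) ≤ B := by
  rw [← ofReal_integral_eq_lintegral_ofReal (int_cont hH) (ae_of_all _ h0)] at h
  exact (ENNReal.ofReal_le_ofReal_iff hB).1 h

/-- two functions which are near to each other -/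
lemma near {A d τ : ℝ} {F G : (Fin k → ℝ) → ℂ} (hF : Continuous F) (hG : Continuous G) (hτ : 0 < τ) (hτ1 : τ ≤ 1)
    (hd : ∫ β, ‖F β - G β‖ ^ 2 ∂(mS k A) ≤ d) :
    |(∫ β, ‖F β‖ ^ 2 ∂(mS k A)) - ∫ β, ‖G β‖ ^ 2 ∂(mS k A)| ≤
      2 * τ * (∫ β, ‖G β‖ ^ 2 ∂(mS k A)) + 4 / τ * d := by
  have iF : Integrable (fun β => ‖F β‖ ^ 2) (mS k A) := int_cont (hF.norm.pow 2)
  have iG : Integrable (fun β => ‖G β‖ ^ 2) (mS k A) := int_cont (hG.norm.pow 2)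
  have iD : Integrable (fun β => ‖F β - G β‖ ^ 2) (mS k A) := int_cont ((hF.sub hG).norm.pow 2)
  obtain ⟨a, ha⟩ : ∃ a, a = ∫ β, ‖F β‖ ^ 2 ∂(mS k A) := ⟨_, rfl⟩
  obtain ⟨b, hb⟩ : ∃ b, b = ∫ β, ‖G β‖ ^ 2 ∂(mS k A) := ⟨_, rfl⟩
  obtain ⟨e, he⟩ : ∃ e, e = ∫ β, ‖F β - G β‖ ^ 2 ∂(mS k A) := ⟨_, rfl⟩
  have ha0 : 0 ≤ a := by rw [ha]; exact integral_nonneg fun _ => sq_nonneg _
  have hb0 : 0 ≤ b := by rw [hb]; exact integral_nonneg fun _ => sq_nonneg _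
  have he0 : 0 ≤ e := by rw [he]; exact integral_nonneg fun _ => sq_nonneg _
  have amgm : ∀ x y z : ℝ, 0 ≤ x → 0 ≤ y → 0 ≤ z → x ≤ y + z → x ^ 2 ≤ (1 + τ) * y ^ 2 + (1 + 1 / τ) * z ^ 2 := by
    intro x y z hx hy hz h
    have h1 : x ^ 2 ≤ (y + z) ^ 2 := pow_le_pow_left₀ hx h 2
    have h2 : 2 * (y * z) ≤ τ * y ^ 2 + 1 / τ * z ^ 2 := by
      have h3 : 0 ≤ (τ * y - z) ^ 2 / τ := by positivity
      have h4 : (τ * y - z) ^ 2 / τ = τ * y ^ 2 + 1 / τ * z ^ 2 - 2 * (y * z) := by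
        field_simp
        ring
      linarith
    nlinarith
  have h1 : a ≤ (1 + τ) * b + (1 + 1 / τ) * e := by
    rw [ha, hb, he, ← integral_const_mul, ← integral_const_mul, ← integral_add (iG.const_mul _) (iD.const_mul _)]
    refine integral_mono iF ((iG.const_mul _).add (iD.const_mul _)) fun β => ?_
    refine amgm _ _ _ (norm_nonneg _) (norm_nonneg _) (norm_nonneg _) ?_
    have := norm_add_le (G β) (F β - G β)
    rwa [add_sub_cancel] at this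
  have h2 : b ≤ (1 + τ) * a + (1 + 1 / τ) * e := by
    rw [ha, hb, he, ← integral_const_mul, ← integral_const_mul, ← integral_add (iF.const_mul _) (iD.const_mul _)]
    refine integral_mono iG ((iF.const_mul _).add (iD.const_mul _)) fun β => ?_
    refine amgm _ _ _ (norm_nonneg _) (norm_nonneg _) (norm_nonneg _) ?_
    have := norm_sub_le (F β) (F β - G β)
    rwa [sub_sub_cancel] at this
  rw [← ha, ← hb]
  rw [← he] at hd
  have h3 : 1 ≤ 1 / τ := by rw [le_div_iff₀ hτ]; linarith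
  have h4 : e / τ = 1 / τ * e := by ring
  have h5 : 4 / τ * e ≤ 4 / τ * d := mul_le_mul_of_nonneg_left hd (by positivity)
  have h6 : 4 / τ * e = 4 * (1 / τ * e) := by ring
  obtain ⟨g, hg⟩ : ∃ g : ℝ, g = 1 / τ * e := ⟨_, rfl⟩
  have hg1 : e ≤ g := by
    rw [hg]
    nlinarith
  have hτg : τ * g = e := by
    rw [hg]
    field_simp
  have h1' : a ≤ (1 + τ) * b + e + g := by
    rw [hg]
    linarith
  have h2' : b ≤ (1 + τ) * a + e + g := by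
    rw [hg]
    linarith
  rw [h6, ← hg] at h5
  have h7 : τ * b ≤ b := mul_le_of_le_one_left hb0 hτ1
  have h8 : τ * a ≤ 2 * (τ * b) + 2 * e := by
    have h9 : τ * a ≤ τ * ((1 + τ) * b + e + g) := mul_le_mul_of_nonneg_left h1' hτ.le
    have h10 : τ * ((1 + τ) * b + e + g) = τ * b + τ * (τ * b) + τ * e + τ * g := by ring
    have h11 : τ * (τ * b) ≤ τ * b := mul_le_of_le_one_left (by positivity) hτ1
    have h12 : τ * e ≤ e := mul_le_of_le_one_left he0 hτ1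
    linarith
  rw [abs_le]
  constructor
  · have : 0 ≤ τ * b := by positivity
    nlinarith
  · have : 0 ≤ τ * b := by positivity
    nlinarith

lemma sub_sq_le (x y : ℂ) : ‖x - y‖ ^ 2 ≤ 2 * ‖x‖ ^ 2 + 2 * ‖y‖ ^ 2 := by
  have h2 := norm_sub_le x y
  have h3 := norm_nonneg (x - y)
  nlinarith [sq_nonneg (‖x‖ - ‖y‖), norm_nonneg x, norm_nonneg y]

/-- **The mean square.** -/
theorem meansq (hMB : S_MB) (hP : S_P1) (hO : S_OPB) (hT : S_TEL) (hc : S_CTS) (hAV : S_AVG) (k : ℕ) (θ : ℝ)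
    (hk : 1 ≤ k) (hθ : 0 < θ) (hθ1 : θ ≤ 1) (m : ℕ) (hm : 8 * k + 1 ≤ m) :
    ∃ C δ X₀ : ℝ, 0 < C ∧ 0 < δ ∧ 1 ≤ X₀ ∧ ∀ (s : ℤ) (X : ℝ) (c : ℕ → ℂ) (Y : ℕ), s = 1 ∨ s = -1 → X₀ ≤ X →
      (∀ q, ‖c q‖ ≤ 1) → 1 ≤ Y → (Y : ℝ) ≤ X ^ δ →
      |(∫ β, ‖∑ q ∈ Q s X \ Ex s X (X ^ θ) (θ * (1 / m) / (8 * k)), c q * ∏ j, LL s q (pt (β j))‖ ^ 2
          ∂(mS k (X ^ θ))) -
        (2 * X ^ θ) ^ k * ∑ n ∈ Finset.Icc 1 Y, ((Nat.finMulAntidiag k n).card : ℝ) * (‖Sc s X c n‖ ^ 2 / n)| ≤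
        C * (2 * X ^ θ) ^ k * (X ^ 2 * (Y : ℝ) ^ (-(1 / 8) : ℝ)) := by
  classical
  have hm1 : 1 ≤ m := by omega
  have hm0 : (0 : ℝ) < m := by exact_mod_cast hm1
  have hk0 : (0 : ℝ) < k := by exact_mod_cast hk
  have hk1 : (1 : ℝ) ≤ k := by exact_mod_cast hk
  have hmk : 8 * (k : ℝ) + 1 ≤ m := by exact_mod_cast hm
  set η : ℝ := θ * (1 / m) with hη
  have hη0 : 0 < η := by positivity
  have hηm : η * m = θ := by rw [hη]; field_simp
  have hηθ : η ≤ θ / 4 := by nlinarith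
  have hkη : k * η ≤ 1 / 8 := by nlinarith
  have hη18 : η ≤ 1 / 8 := by nlinarith
  have hkη2 : (2 * k + 1) * η ≤ θ / 2 := by nlinarith
  set ρ : ℝ := η / (8 * k) with hρ
  have hρ0 : 0 < ρ := by positivity
  have hρη : ρ ≤ η / 8 := by
    rw [hρ]
    exact div_le_div_of_nonneg_left hη0.le (by norm_num) (by linarith)
  obtain ⟨C1, X1, hC1, hE1⟩ := E1W (k := k) hP hO hT hc hk hθ hθ1 hη0 hηθ
  obtain ⟨C2, X2, hC2, hE2⟩ := E2W (k := k) hMB hP hθ hθ1 hρ0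
  obtain ⟨C3, hC3, hTl⟩ := tail k hAV
  have ev1 : ∀ᶠ X : ℝ in atTop, 2 ≤ X ^ (η / 2) := (tendsto_rpow_atTop (by positivity)).eventually_ge_atTop _
  have ev4 : ∀ᶠ X : ℝ in atTop, 2 ≤ X ^ θ := (tendsto_rpow_atTop hθ).eventually_ge_atTop _
  obtain ⟨X₀, hX₀⟩ := eventually_atTop.1 (((ev1.and ev4).and
    ((eventually_ge_atTop X1).and (eventually_ge_atTop X2))).and (eventually_ge_atTop 2))
  refine ⟨2 * (2 * C3 + 2) + 4 * (2 * C1 + 2 * C2) + 2 + 2 * C3, ρ, max 1 X₀, by positivity, hρ0, le_max_left _ _, ?_⟩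
  intro s X c Y hs hX hcb hY1 hYX
  obtain ⟨⟨⟨v1, v4⟩, v5, v6⟩, v7⟩ := hX₀ X ((le_max_right _ _).trans hX)
  have hX0 : 0 < X := by linarith
  have hX1 : 1 ≤ X := by linarith
  set A : ℝ := X ^ θ with hA
  have hA0 : 0 < A := by linarith
  set N : ℕ := ⌊X ^ η⌋₊ with hNd
  obtain ⟨f1, f2, f3⟩ := floor_half (Real.one_le_rpow hX1 hη0.le : 1 ≤ X ^ η)
  rw [← hNd] at f1 f2 f3
  have hN0 : (0 : ℝ) < N := by exact_mod_cast f3
  have hNA : (N : ℝ) ≤ A := by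
    refine f2.trans ?_
    apply Real.rpow_le_rpow_of_exponent_le hX1
    linarith
  have hY0 : (0 : ℝ) < Y := by exact_mod_cast hY1
  have hY1R : (1 : ℝ) ≤ Y := by exact_mod_cast hY1
  have hYN : Y ≤ N := by
    have h1 : (Y : ℝ) ≤ N := by
      refine hYX.trans (le_trans ?_ f1)
      have h2 : X ^ η = X ^ (η / 2) * X ^ (η / 2) := by rw [← Real.rpow_add hX0]; congr 1; ring
      have h3 : X ^ ρ ≤ X ^ (η / 2) := Real.rpow_le_rpow_of_exponent_le hX1 (by linarith)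
      have h4 : 0 < X ^ (η / 2) := by positivity
      rw [h2]
      have h5 := mul_le_mul_of_nonneg_left v1 h4.le
      linarith
    exact_mod_cast h1
  set E : Finset ℕ := Ex s X A ρ with hEd
  -- the functions
  obtain ⟨F, hF⟩ : ∃ F : (Fin k → ℝ) → ℂ, F = fun β => ∑ q ∈ Q s X \ E, c q * ∏ j, LL s q (pt (β j)) := ⟨_, rfl⟩
  obtain ⟨G, hG⟩ : ∃ G : (Fin k → ℝ) → ℂ, G = fun β => ∑ q ∈ Q s X, c q * ∏ j, PN s q N (β j) := ⟨_, rfl⟩
  obtain ⟨D1, hD1⟩ : ∃ D1 : (Fin k → ℝ) → ℂ, D1 = fun β =>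
    ∑ q ∈ Q s X \ E, c q * (∏ j, LL s q (pt (β j)) - ∏ j, PN s q N (β j)) := ⟨_, rfl⟩
  obtain ⟨D2, hD2⟩ : ∃ D2 : (Fin k → ℝ) → ℂ, D2 = fun β => ∑ q ∈ E, c q * ∏ j, PN s q N (β j) := ⟨_, rfl⟩
  have cL : ∀ q ∈ Q s X \ E, Continuous fun β : Fin k → ℝ => ∏ j, LL s q (pt (β j)) := fun q hq =>
    continuous_finsetProd _ fun j _ => (hc s q (Q_is (Finset.sdiff_subset hq)).1).comp (continuous_apply j)
  have cP : ∀ q, Continuous fun β : Fin k → ℝ => ∏ j, PN s q N (β j) := fun q =>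
    continuous_finsetProd _ fun j _ => (PN_cont s q N).comp (continuous_apply j)
  have cF : Continuous F := by
    rw [hF]
    exact continuous_finsetSum _ fun q hq => continuous_const.mul (cL q hq)
  have cG : Continuous G := by
    rw [hG]
    exact continuous_finsetSum _ fun q _ => continuous_const.mul (cP q)
  have cD1 : Continuous D1 := by
    rw [hD1]
    exact continuous_finsetSum _ fun q hq => continuous_const.mul ((cL q hq).sub (cP q))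
  have cD2 : Continuous D2 := by
    rw [hD2]
    exact continuous_finsetSum _ fun q _ => continuous_const.mul (cP q)
  have hFG : ∀ β, F β - G β = D1 β - D2 β := by
    intro β
    have e0 : G β = (∑ q ∈ Q s X \ E, c q * ∏ j, PN s q N (β j)) + D2 β := by
      rw [hG, hD2]
      exact (Finset.sum_sdiff (Ex_sub s X A ρ)).symm
    rw [e0, hF, hD1]
    simp only [mul_sub, Finset.sum_sub_distrib]
    ring
  have hkθ : A ^ k = X ^ (k * θ) := by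
    rw [hA, ← Real.rpow_natCast, ← Real.rpow_mul hX0.le]
    congr 1
    ring
  have h2k : (1 : ℝ) ≤ 2 ^ k := one_le_pow₀ (by norm_num)
  obtain ⟨P, hPd⟩ : ∃ P : ℝ, P = (2 * A) ^ k := ⟨_, rfl⟩
  have hP0 : 0 < P := by rw [hPd]; positivity
  have hPA : X ^ (k * θ) ≤ P := by
    rw [hPd, mul_pow, hkθ]
    exact le_mul_of_one_le_left (by positivity) h2k
  -- the distance
  have d1 : ∫ β, ‖D1 β‖ ^ 2 ∂(mS k A) ≤ C1 * X ^ (k * θ + 2 - η / 4) := by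
    refine to_real (by positivity) (cD1.norm.pow 2) (fun _ => sq_nonneg _) ?_
    rw [hD1]
    exact hE1 s X N c hcb hs v5 f1 f2 f3
  have d2 : ∫ β, ‖D2 β‖ ^ 2 ∂(mS k A) ≤ C2 * X ^ (k * θ + 2 - ρ / 2) := by
    refine to_real (by positivity) (cD2.norm.pow 2) (fun _ => sq_nonneg _) ?_
    rw [hD2]
    exact hE2 s X N c hcb hs v6 hNA f3
  have d3 : ∫ β, ‖F β - G β‖ ^ 2 ∂(mS k A) ≤ (2 * C1 + 2 * C2) * P * X ^ (2 - ρ / 2) := by
    have h1 : ∫ β, ‖F β - G β‖ ^ 2 ∂(mS k A) ≤ ∫ β, (2 * ‖D1 β‖ ^ 2 + 2 * ‖D2 β‖ ^ 2) ∂(mS k A) := by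
      refine integral_mono (int_cont ((cF.sub cG).norm.pow 2))
        (int_cont ((continuous_const.mul (cD1.norm.pow 2)).add (continuous_const.mul (cD2.norm.pow 2)))) fun β => ?_
      simp only
      rw [hFG]
      exact sub_sq_le _ _
    have i1 : Integrable (fun β => ‖D1 β‖ ^ 2) (mS k A) := int_cont (cD1.norm.pow 2)
    have i2 : Integrable (fun β => ‖D2 β‖ ^ 2) (mS k A) := int_cont (cD2.norm.pow 2)
    rw [integral_add (i1.const_mul _) (i2.const_mul _), integral_const_mul, integral_const_mul] at h1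
    have h4 : X ^ (k * θ + 2 - η / 4) ≤ P * X ^ (2 - ρ / 2) := by
      have h5 : X ^ (k * θ + 2 - η / 4) ≤ X ^ (k * θ) * X ^ (2 - ρ / 2) := by
        rw [← Real.rpow_add hX0]
        exact Real.rpow_le_rpow_of_exponent_le hX1 (by linarith)
      exact h5.trans (mul_le_mul_of_nonneg_right hPA (by positivity))
    have h6 : X ^ (k * θ + 2 - ρ / 2) ≤ P * X ^ (2 - ρ / 2) := by
      have h5 : X ^ (k * θ + 2 - ρ / 2) ≤ X ^ (k * θ) * X ^ (2 - ρ / 2) := by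
        rw [← Real.rpow_add hX0]
        exact Real.rpow_le_rpow_of_exponent_le hX1 (by linarith)
      exact h5.trans (mul_le_mul_of_nonneg_right hPA (by positivity))
    have h7 := mul_le_mul_of_nonneg_left h4 hC1.le
    have h8 := mul_le_mul_of_nonneg_left h6 hC2.le
    calc _ ≤ _ := h1
      _ ≤ 2 * (C1 * (P * X ^ (2 - ρ / 2))) + 2 * (C2 * (P * X ^ (2 - ρ / 2))) := by linarith
      _ = _ := by ring
  -- the mean square of `G`
  obtain ⟨cc, hcc⟩ : ∃ cc : (Fin k → ℕ) → ℂ, cc = fun n =>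
    Sc s X c (pr n) * (((pr n : ℕ) : ℝ) ^ (-(1 / 2) : ℝ) : ℝ) := ⟨_, rfl⟩
  have hGe : ∀ β, G β = ∑ n ∈ tup k N, cc n * FLp.chr n β := by
    intro β
    rw [hG]
    simp only [DiagA.expand, Finset.mul_sum]
    rw [Finset.sum_comm]
    refine Finset.sum_congr rfl fun n hn => ?_
    have e1 : cx n β = ((((pr n : ℕ) : ℝ) ^ (-(1 / 2) : ℝ) : ℝ) : ℂ) * FLp.chr n β := by
      have e2 : ∀ j, (n j : ℂ) ^ (-(pt (β j))) = (((n j : ℝ) ^ (-(1 / 2) : ℝ) : ℝ) : ℂ) * (n j : ℂ) ^ (-(I * (β j : ℂ))) := by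
        intro j
        have hn0 : (n j : ℂ) ≠ 0 := by
          have := (mem_tup.1 hn j).1
          exact_mod_cast (by omega : n j ≠ 0)
        unfold pt
        rw [neg_add, Complex.cpow_add _ _ hn0, Complex.ofReal_cpow (Nat.cast_nonneg _)]
        push_cast
        rfl
      unfold cx FLp.chr
      rw [Finset.prod_congr rfl fun j _ => e2 j, Finset.prod_mul_distrib]
      congr 1
      unfold pr
      rw [Nat.cast_prod, ← Real.finsetProd_rpow _ _ (fun i _ => Nat.cast_nonneg _)]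
      push_cast
      rfl
    rw [e1, hcc]
    simp only
    unfold Sc pr
    rw [Finset.sum_mul, Finset.sum_mul]
    refine Finset.sum_congr rfl fun q _ => ?_
    ring
  have hcc2 : ∀ n ∈ tup k N, ‖cc n‖ ^ 2 = ‖Sc s X c (pr n)‖ ^ 2 / pr n := by
    intro n hn
    have h1 : (0 : ℝ) < pr n := by exact_mod_cast one_le_pr hn
    rw [hcc]
    simp only [norm_mul, Complex.norm_real]
    rw [Real.norm_of_nonneg (by positivity), mul_pow, ← Real.rpow_natCast (((pr n : ℕ) : ℝ) ^ (-(1 / 2) : ℝ)),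
      ← Real.rpow_mul h1.le]
    norm_num
    rw [Real.rpow_neg_one]
    rfl
  have hcc1 : ∀ n ∈ tup k N, ‖cc n‖ ≤ X := by
    intro n hn
    have h1 : (1 : ℝ) ≤ pr n := by exact_mod_cast one_le_pr hn
    rw [hcc]
    simp only [norm_mul, Complex.norm_real]
    rw [Real.norm_of_nonneg (by positivity)]
    have h2 : ((pr n : ℕ) : ℝ) ^ (-(1 / 2) : ℝ) ≤ 1 := Real.rpow_le_one_of_one_le_of_nonpos h1 (by norm_num)
    calc ‖Sc s X c (pr n)‖ * ((pr n : ℕ) : ℝ) ^ (-(1 / 2) : ℝ) ≤ X * 1 :=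
          mul_le_mul (Sc_le hX1 hcb _) h2 (by positivity) hX0.le
      _ = X := mul_one X
  have hb := FL2 k N A cc f3 hA0
  simp only [← hGe] at hb
  rw [Finset.sum_congr rfl hcc2, ← hPd] at hb
  obtain ⟨SN', hSN⟩ : ∃ t : ℝ, t = ∑ n ∈ tup k N, ‖Sc s X c (pr n)‖ ^ 2 / pr n := ⟨_, rfl⟩
  rw [← hSN] at hb
  have hNk : (N : ℝ) ^ k ≤ X ^ (1 / 8 : ℝ) := by
    calc (N : ℝ) ^ k ≤ (X ^ η) ^ k := pow_le_pow_left₀ hN0.le f2 _
      _ = X ^ (k * η) := by rw [← Real.rpow_natCast, ← Real.rpow_mul hX0.le]; congr 1; ring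
      _ ≤ X ^ (1 / 8 : ℝ) := Real.rpow_le_rpow_of_exponent_le hX1 hkη
  have hX74 : X ^ (7 / 4 : ℝ) * (N : ℝ) ^ k ≤ X ^ 2 * X ^ (-(1 / 8) : ℝ) := by
    calc X ^ (7 / 4 : ℝ) * (N : ℝ) ^ k ≤ X ^ (7 / 4 : ℝ) * X ^ (1 / 8 : ℝ) :=
          mul_le_mul_of_nonneg_left hNk (by positivity)
      _ = X ^ 2 * X ^ (-(1 / 8) : ℝ) := by
          rw [← Real.rpow_natCast X 2, ← Real.rpow_add hX0, ← Real.rpow_add hX0]
          norm_num
  have hX8 : X ^ (-(1 / 8) : ℝ) ≤ 1 := Real.rpow_le_one_of_one_le_of_nonpos hX1 (by norm_num)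
  have hX2 : 0 < X ^ 2 := by positivity
  have hb1 : SN' ≤ 2 * C3 * X ^ 2 := by
    have h1 := hTl s X c N 1 (tup k N) hs hX1 hcb le_rfl (Finset.Subset.refl _) (fun n hn => by
      exact_mod_cast one_le_pr hn)
    rw [← hSN, Real.one_rpow, mul_one] at h1
    refine h1.trans ?_
    have h2 : X ^ (7 / 4 : ℝ) * (N : ℝ) ^ k ≤ X ^ 2 := hX74.trans (mul_le_of_le_one_right hX2.le hX8)
    calc C3 * (X ^ 2 + X ^ (7 / 4 : ℝ) * (N : ℝ) ^ k) ≤ C3 * (X ^ 2 + X ^ 2) :=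
          mul_le_mul_of_nonneg_left (by linarith) hC3.le
      _ = 2 * C3 * X ^ 2 := by ring
  have herr : 4 * N * (2 * A) ^ (k - 1 : ℝ) * (∑ ν ∈ tup k N, ‖cc ν‖) ^ 2 ≤ P * (2 * (X ^ 2 * X ^ (-(θ / 2)))) := by
    have h1 : ∑ ν ∈ tup k N, ‖cc ν‖ ≤ X * (N : ℝ) ^ k := by
      refine (Finset.sum_le_sum hcc1).trans ?_
      rw [Finset.sum_const, tup_card, nsmul_eq_mul]
      push_cast
      linarith
    have h2 : (∑ ν ∈ tup k N, ‖cc ν‖) ^ 2 ≤ (X * (N : ℝ) ^ k) ^ 2 :=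
      pow_le_pow_left₀ (Finset.sum_nonneg fun _ _ => norm_nonneg _) h1 2
    have h3 : (2 * A) ^ (k - 1 : ℝ) * (2 * A) = P := by
      rw [hPd, ← Real.rpow_natCast]
      nth_rewrite 2 [← Real.rpow_one (2 * A)]
      rw [← Real.rpow_add (by positivity)]
      congr 1
      ring
    have h4 : (N : ℝ) * ((N : ℝ) ^ k) ^ 2 ≤ A * X ^ (-(θ / 2)) := by
      have e1 : (N : ℝ) * ((N : ℝ) ^ k) ^ 2 = (N : ℝ) ^ (2 * k + 1) := by ring
      rw [e1]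
      calc (N : ℝ) ^ (2 * k + 1) ≤ (X ^ η) ^ (2 * k + 1) := pow_le_pow_left₀ hN0.le f2 _
        _ = X ^ ((2 * k + 1) * η) := by
            rw [← Real.rpow_natCast, ← Real.rpow_mul hX0.le]
            congr 1
            push_cast
            ring
        _ ≤ X ^ (θ / 2) := Real.rpow_le_rpow_of_exponent_le hX1 hkη2
        _ = A * X ^ (-(θ / 2)) := by
            rw [hA, ← Real.rpow_add hX0]
            congr 1
            ring
    have h5 : 0 < (2 * A) ^ (k - 1 : ℝ) := by positivity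
    calc 4 * N * (2 * A) ^ (k - 1 : ℝ) * (∑ ν ∈ tup k N, ‖cc ν‖) ^ 2
        ≤ 4 * N * (2 * A) ^ (k - 1 : ℝ) * (X * (N : ℝ) ^ k) ^ 2 := mul_le_mul_of_nonneg_left h2 (by positivity)
      _ = 4 * (2 * A) ^ (k - 1 : ℝ) * X ^ 2 * ((N : ℝ) * ((N : ℝ) ^ k) ^ 2) := by ring
      _ ≤ 4 * (2 * A) ^ (k - 1 : ℝ) * X ^ 2 * (A * X ^ (-(θ / 2))) :=
          mul_le_mul_of_nonneg_left h4 (by positivity)
      _ = ((2 * A) ^ (k - 1 : ℝ) * (2 * A)) * (2 * (X ^ 2 * X ^ (-(θ / 2)))) := by ring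
      _ = _ := by rw [h3]
  have hb2 := hb.trans herr
  have hXθ : X ^ (-(θ / 2)) ≤ 1 := Real.rpow_le_one_of_one_le_of_nonpos hX1 (by linarith)
  have hb3 : ∫ β, ‖G β‖ ^ 2 ∂(mS k A) ≤ P * ((2 * C3 + 2) * X ^ 2) := by
    have h1 := (abs_le.1 hb2).2
    have h2 : P * SN' ≤ P * (2 * C3 * X ^ 2) := mul_le_mul_of_nonneg_left hb1 hP0.le
    have h3 : P * (2 * (X ^ 2 * X ^ (-(θ / 2)))) ≤ P * (2 * X ^ 2) := by
      refine mul_le_mul_of_nonneg_left ?_ hP0.le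
      linarith [mul_le_of_le_one_right hX2.le hXθ]
    have h4 : P * ((2 * C3 + 2) * X ^ 2) = P * (2 * C3 * X ^ 2) + P * (2 * X ^ 2) := by ring
    rw [h4]
    linarith
  -- comparison
  obtain ⟨τ, hτ⟩ : ∃ τ : ℝ, τ = X ^ (-(ρ / 4)) := ⟨_, rfl⟩
  have hτ0 : 0 < τ := by rw [hτ]; positivity
  have hτ1 : τ ≤ 1 := by rw [hτ]; exact Real.rpow_le_one_of_one_le_of_nonpos hX1 (by linarith)
  have hab := near cF cG hτ0 hτ1 d3
  have e1 : 4 / τ * ((2 * C1 + 2 * C2) * P * X ^ (2 - ρ / 2)) = P * (4 * (2 * C1 + 2 * C2) * (X ^ 2 * X ^ (-(ρ / 4)))) := by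
    have h1 : X ^ (2 - ρ / 2) = τ * (X ^ 2 * X ^ (-(ρ / 4))) := by
      rw [hτ, ← Real.rpow_natCast X 2, ← Real.rpow_add hX0, ← Real.rpow_add hX0]
      congr 1
      push_cast
      ring
    rw [h1]
    field_simp
  have e2 : 2 * τ * (∫ β, ‖G β‖ ^ 2 ∂(mS k A)) ≤ P * (2 * (2 * C3 + 2) * (X ^ 2 * X ^ (-(ρ / 4)))) := by
    rw [← hτ]
    have := mul_le_mul_of_nonneg_left hb3 (by positivity : 0 ≤ 2 * τ)
    linarith
  rw [e1] at hab
  have hab2 := hab.trans (add_le_add e2 le_rfl)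
  -- truncation
  have hsplit : SN' = (∑ n ∈ Finset.Icc 1 Y, ((Nat.finMulAntidiag k n).card : ℝ) * (‖Sc s X c n‖ ^ 2 / n)) +
      ∑ n ∈ (tup k N).filter (fun n => ¬ pr n ≤ Y), ‖Sc s X c (pr n)‖ ^ 2 / pr n := by
    rw [hSN, ← small k N Y hYN (fun m => ‖Sc s X c m‖ ^ 2 / m)]
    exact (Finset.sum_filter_add_sum_filter_not _ _ _).symm
  have htl := hTl s X c N Y ((tup k N).filter (fun n => ¬ pr n ≤ Y)) hs hX1 hcb hY1R (Finset.filter_subset _ _)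
    (fun n hn => by
      rw [Finset.mem_filter] at hn
      exact_mod_cast (not_le.1 hn.2).le)
  have htl0 : 0 ≤ ∑ n ∈ (tup k N).filter (fun n => ¬ pr n ≤ Y), ‖Sc s X c (pr n)‖ ^ 2 / pr n :=
    Finset.sum_nonneg fun n _ => by positivity
  -- everything in terms of `Y`
  have y1 : X ^ (-(1 / 8) : ℝ) ≤ (Y : ℝ) ^ (-(1 / 8) : ℝ) := by
    refine Real.rpow_le_rpow_of_nonpos hY0 (hYX.trans ?_) (by norm_num)
    calc X ^ ρ ≤ X ^ (1 : ℝ) := Real.rpow_le_rpow_of_exponent_le hX1 (by linarith)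
      _ = X := Real.rpow_one X
  have y2 : X ^ (-(ρ / 4)) ≤ (Y : ℝ) ^ (-(1 / 8) : ℝ) := by
    have h1 : (X ^ ρ) ^ (-(1 / 8) : ℝ) ≤ (Y : ℝ) ^ (-(1 / 8) : ℝ) :=
      Real.rpow_le_rpow_of_nonpos hY0 hYX (by norm_num)
    refine le_trans ?_ h1
    rw [← Real.rpow_mul hX0.le]
    exact Real.rpow_le_rpow_of_exponent_le hX1 (by linarith)
  have y3 : X ^ (-(θ / 2)) ≤ (Y : ℝ) ^ (-(1 / 8) : ℝ) := by
    refine le_trans ?_ y2
    exact Real.rpow_le_rpow_of_exponent_le hX1 (by linarith)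
  obtain ⟨y, hy⟩ : ∃ y : ℝ, y = X ^ 2 * (Y : ℝ) ^ (-(1 / 8) : ℝ) := ⟨_, rfl⟩
  have z1 : X ^ 2 * X ^ (-(1 / 8) : ℝ) ≤ y := by rw [hy]; exact mul_le_mul_of_nonneg_left y1 hX2.le
  have z2 : X ^ 2 * X ^ (-(ρ / 4)) ≤ y := by rw [hy]; exact mul_le_mul_of_nonneg_left y2 hX2.le
  have z3 : X ^ 2 * X ^ (-(θ / 2)) ≤ y := by rw [hy]; exact mul_le_mul_of_nonneg_left y3 hX2.le
  rw [← hy] at htl
  have t1 : ∑ n ∈ (tup k N).filter (fun n => ¬ pr n ≤ Y), ‖Sc s X c (pr n)‖ ^ 2 / pr n ≤ 2 * C3 * y := by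
    refine htl.trans ?_
    have h1 := hX74.trans z1
    calc C3 * (y + X ^ (7 / 4 : ℝ) * (N : ℝ) ^ k) ≤ C3 * (y + y) :=
          mul_le_mul_of_nonneg_left (by linarith) hC3.le
      _ = 2 * C3 * y := by ring
  have u1 := mul_le_mul_of_nonneg_left z2 (by positivity : 0 ≤ 2 * (2 * C3 + 2))
  have u2 := mul_le_mul_of_nonneg_left z2 (by positivity : 0 ≤ 4 * (2 * C1 + 2 * C2))
  have w1 : |(∫ β, ‖F β‖ ^ 2 ∂(mS k A)) - ∫ β, ‖G β‖ ^ 2 ∂(mS k A)| ≤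
      P * ((2 * (2 * C3 + 2) + 4 * (2 * C1 + 2 * C2)) * y) := by
    refine hab2.trans ?_
    rw [← mul_add]
    refine mul_le_mul_of_nonneg_left ?_ hP0.le
    linarith
  have w2 : |(∫ β, ‖G β‖ ^ 2 ∂(mS k A)) - P * SN'| ≤ P * (2 * y) := by
    refine hb2.trans (mul_le_mul_of_nonneg_left (by linarith) hP0.le)
  have w3 : |P * SN' - P * (∑ n ∈ Finset.Icc 1 Y, ((Nat.finMulAntidiag k n).card : ℝ) * (‖Sc s X c n‖ ^ 2 / n))| ≤
      P * (2 * C3 * y) := by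
    rw [← mul_sub, abs_mul, abs_of_pos hP0]
    refine mul_le_mul_of_nonneg_left ?_ hP0.le
    rw [hsplit, add_sub_cancel_left, abs_of_nonneg htl0]
    exact t1
  have hfin : |(∫ β, ‖F β‖ ^ 2 ∂(mS k A)) -
      P * (∑ n ∈ Finset.Icc 1 Y, ((Nat.finMulAntidiag k n).card : ℝ) * (‖Sc s X c n‖ ^ 2 / n))| ≤
      P * ((2 * (2 * C3 + 2) + 4 * (2 * C1 + 2 * C2)) * y) + P * (2 * y) + P * (2 * C3 * y) := by
    have e3 : (∫ β, ‖F β‖ ^ 2 ∂(mS k A)) -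
        P * (∑ n ∈ Finset.Icc 1 Y, ((Nat.finMulAntidiag k n).card : ℝ) * (‖Sc s X c n‖ ^ 2 / n)) =
        ((∫ β, ‖F β‖ ^ 2 ∂(mS k A)) - ∫ β, ‖G β‖ ^ 2 ∂(mS k A)) +
        ((∫ β, ‖G β‖ ^ 2 ∂(mS k A)) - P * SN') + (P * SN' -
          P * (∑ n ∈ Finset.Icc 1 Y, ((Nat.finMulAntidiag k n).card : ℝ) * (‖Sc s X c n‖ ^ 2 / n))) := by ring
    rw [e3]
    refine (abs_add_le _ _).trans (add_le_add ((abs_add_le _ _).trans (add_le_add w1 w2)) w3)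
  rw [hF] at hfin
  rw [← hPd]
  refine hfin.trans (le_of_eq ?_)
  rw [hy]
  ring

end

end Pool.Agent.J4.H50.EA
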