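import Pool.Agent.J4.H50.EA.W6

/-! The weighted moments are near to short Dirichlet polynomials. -/

set_option autoImplicit false

namespace Pool.Agent.J4.H50.EA

open Complex Filter Topology MeasureTheory Set
open Pool.Agent.N879.QM

noncomputable section

variable {k : ℕ}

open Classical in
/-- the short Dirichlet polynomial -/
def DY (k : ℕ) (s : ℤ) (X : ℝ) (c : ℕ → ℂ) (Y : ℕ) (β : Fin k → ℝ) : ℂ :=
  ∑ n ∈ (tup k Y).filter (fun n => pr n ≤ Y), Sc s X c (pr n) * cx n β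

lemma cx_eq {N : ℕ} {n : Fin k → ℕ} (hn : n ∈ tup k N) (β : Fin k → ℝ) :
    cx n β = ((((pr n : ℕ) : ℝ) ^ (-(1 / 2) : ℝ) : ℝ) : ℂ) * FLp.chr n β := by
  have e2 : ∀ j, (n j : ℂ) ^ (-(pt (β j))) = (((n j : ℝ) ^ (-(1 / 2) : ℝ) : ℝ) : ℂ) * (n j : ℂ) ^ (-(I * (β j : ℂ))) := by
    intro j
    have hn0 : (n j : ℂ) ≠ 0 := by
      have := (mem_tup.1 hn j).1
      exact_mod_cast (by omega : n j ≠ 0)
    unfold pt
    rw [neg_add, Complex.cpow_add _ _ hn0, Complex.ofReal_cpow (Nat.cast_nonneg _)]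
    push_cast
    rfl
  unfold cx FLp.chr
  rw [Finset.prod_congr rfl fun j _ => e2 j, Finset.prod_mul_distrib]
  congr 1
  unfold pr
  rw [Nat.cast_prod, ← Real.finsetProd_rpow _ _ (fun i _ => Nat.cast_nonneg _)]
  push_cast
  rfl

lemma DY_cont (k : ℕ) (s : ℤ) (X : ℝ) (c : ℕ → ℂ) (Y : ℕ) : Continuous (DY k s X c Y) := by
  classical
  unfold DY
  refine continuous_finsetSum _ fun n hn => continuous_const.mul ?_
  rw [Finset.mem_filter] at hn
  have h1 : (fun β => cx n β) = fun β => ((((pr n : ℕ) : ℝ) ^ (-(1 / 2) : ℝ) : ℝ) : ℂ) * FLp.chr n β := by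
    ext β
    exact cx_eq hn.1 β
  show Continuous fun β => cx n β
  rw [h1]
  exact continuous_const.mul (FLp.ch_cont hn.1)

/-- **The weighted moments are near to short Dirichlet polynomials.** -/
theorem approx (hMB : S_MB) (hP : S_P1) (hO : S_OPB) (hT : S_TEL) (hc : S_CTS) (hAV : S_AVG) (k : ℕ) (θ : ℝ)
    (hk : 1 ≤ k) (hθ : 0 < θ) (hθ1 : θ ≤ 1) (m : ℕ) (hm : 8 * k + 1 ≤ m) :
    ∃ C δ X₀ : ℝ, 0 < C ∧ 0 < δ ∧ 1 ≤ X₀ ∧ ∀ (s : ℤ) (X : ℝ) (c : ℕ → ℂ) (Y : ℕ), s = 1 ∨ s = -1 → X₀ ≤ X →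
      (∀ q, ‖c q‖ ≤ 1) → 1 ≤ Y → (Y : ℝ) ≤ X ^ δ →
      ∫ β, ‖(∑ q ∈ Q s X \ Ex s X (X ^ θ) (θ * (1 / m) / (8 * k)), c q * ∏ j, LL s q (pt (β j))) - DY k s X c Y β‖ ^ 2
          ∂(mS k (X ^ θ)) ≤
        C * (2 * X ^ θ) ^ k * (X ^ 2 * (Y : ℝ) ^ (-(1 / 8) : ℝ)) := by
  classical
  have hm1 : 1 ≤ m := by omega
  have hm0 : (0 : ℝ) < m := by exact_mod_cast hm1
  have hk0 : (0 : ℝ) < k := by exact_mod_cast hk
  have hk1 : (1 : ℝ) ≤ k := by exact_mod_cast hk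
  have hmk : 8 * (k : ℝ) + 1 ≤ m := by exact_mod_cast hm
  set η : ℝ := θ * (1 / m) with hη
  have hη0 : 0 < η := by positivity
  have hηm : η * m = θ := by rw [hη]; field_simp
  have hηθ : η ≤ θ / 4 := by nlinarith
  have hkη : k * η ≤ 1 / 8 := by nlinarith
  have hη18 : η ≤ 1 / 8 := by nlinarith
  have hkη2 : (2 * k + 1) * η ≤ θ / 2 := by nlinarith
  set ρ : ℝ := η / (8 * k) with hρ
  have hρ0 : 0 < ρ := by positivity
  have hρη : ρ ≤ η / 8 := by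
    rw [hρ]
    exact div_le_div_of_nonneg_left hη0.le (by norm_num) (by linarith)
  obtain ⟨C1, X1, hC1, hE1⟩ := E1W (k := k) hP hO hT hc hk hθ hθ1 hη0 hηθ
  obtain ⟨C2, X2, hC2, hE2⟩ := E2W (k := k) hMB hP hθ hθ1 hρ0
  obtain ⟨C3, hC3, hTl⟩ := tail k hAV
  have ev1 : ∀ᶠ X : ℝ in atTop, 2 ≤ X ^ (η / 2) := (tendsto_rpow_atTop (by positivity)).eventually_ge_atTop _
  have ev4 : ∀ᶠ X : ℝ in atTop, 2 ≤ X ^ θ := (tendsto_rpow_atTop hθ).eventually_ge_atTop _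
  obtain ⟨X₀, hX₀⟩ := eventually_atTop.1 (((ev1.and ev4).and
    ((eventually_ge_atTop X1).and (eventually_ge_atTop X2))).and (eventually_ge_atTop 2))
  refine ⟨2 * (2 * C1 + 2 * C2) + 2 * (2 + 2 * C3), ρ, max 1 X₀, by positivity, hρ0, le_max_left _ _, ?_⟩
  intro s X c Y hs hX hcb hY1 hYX
  obtain ⟨⟨⟨v1, v4⟩, v5, v6⟩, v7⟩ := hX₀ X ((le_max_right _ _).trans hX)
  have hX0 : 0 < X := by linarith
  have hX1 : 1 ≤ X := by linarith
  set A : ℝ := X ^ θ with hA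
  have hA0 : 0 < A := by linarith
  set N : ℕ := ⌊X ^ η⌋₊ with hNd
  obtain ⟨f1, f2, f3⟩ := floor_half (Real.one_le_rpow hX1 hη0.le : 1 ≤ X ^ η)
  rw [← hNd] at f1 f2 f3
  have hN0 : (0 : ℝ) < N := by exact_mod_cast f3
  have hNA : (N : ℝ) ≤ A := by
    refine f2.trans ?_
    apply Real.rpow_le_rpow_of_exponent_le hX1
    linarith
  have hY0 : (0 : ℝ) < Y := by exact_mod_cast hY1
  have hY1R : (1 : ℝ) ≤ Y := by exact_mod_cast hY1
  have hYN : Y ≤ N := by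
    have h1 : (Y : ℝ) ≤ N := by
      refine hYX.trans (le_trans ?_ f1)
      have h2 : X ^ η = X ^ (η / 2) * X ^ (η / 2) := by rw [← Real.rpow_add hX0]; congr 1; ring
      have h3 : X ^ ρ ≤ X ^ (η / 2) := Real.rpow_le_rpow_of_exponent_le hX1 (by linarith)
      have h4 : 0 < X ^ (η / 2) := by positivity
      rw [h2]
      have h5 := mul_le_mul_of_nonneg_left v1 h4.le
      linarith
    exact_mod_cast h1
  set E : Finset ℕ := Ex s X A ρ with hEd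
  -- the functions
  obtain ⟨F, hF⟩ : ∃ F : (Fin k → ℝ) → ℂ, F = fun β => ∑ q ∈ Q s X \ E, c q * ∏ j, LL s q (pt (β j)) := ⟨_, rfl⟩
  obtain ⟨G, hG⟩ : ∃ G : (Fin k → ℝ) → ℂ, G = fun β => ∑ q ∈ Q s X, c q * ∏ j, PN s q N (β j) := ⟨_, rfl⟩
  obtain ⟨D1, hD1⟩ : ∃ D1 : (Fin k → ℝ) → ℂ, D1 = fun β =>
    ∑ q ∈ Q s X \ E, c q * (∏ j, LL s q (pt (β j)) - ∏ j, PN s q N (β j)) := ⟨_, rfl⟩
  obtain ⟨D2, hD2⟩ : ∃ D2 : (Fin k → ℝ) → ℂ, D2 = fun β => ∑ q ∈ E, c q * ∏ j, PN s q N (β j) := ⟨_, rfl⟩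
  have cL : ∀ q ∈ Q s X \ E, Continuous fun β : Fin k → ℝ => ∏ j, LL s q (pt (β j)) := fun q hq =>
    continuous_finsetProd _ fun j _ => (hc s q (Q_is (Finset.sdiff_subset hq)).1).comp (continuous_apply j)
  have cP : ∀ q, Continuous fun β : Fin k → ℝ => ∏ j, PN s q N (β j) := fun q =>
    continuous_finsetProd _ fun j _ => (PN_cont s q N).comp (continuous_apply j)
  have cF : Continuous F := by
    rw [hF]
    exact continuous_finsetSum _ fun q hq => continuous_const.mul (cL q hq)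
  have cG : Continuous G := by
    rw [hG]
    exact continuous_finsetSum _ fun q _ => continuous_const.mul (cP q)
  have cD1 : Continuous D1 := by
    rw [hD1]
    exact continuous_finsetSum _ fun q hq => continuous_const.mul ((cL q hq).sub (cP q))
  have cD2 : Continuous D2 := by
    rw [hD2]
    exact continuous_finsetSum _ fun q _ => continuous_const.mul (cP q)
  have hFG : ∀ β, F β - G β = D1 β - D2 β := by
    intro β
    have e0 : G β = (∑ q ∈ Q s X \ E, c q * ∏ j, PN s q N (β j)) + D2 β := by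
      rw [hG, hD2]
      exact (Finset.sum_sdiff (Ex_sub s X A ρ)).symm
    rw [e0, hF, hD1]
    simp only [mul_sub, Finset.sum_sub_distrib]
    ring
  have hkθ : A ^ k = X ^ (k * θ) := by
    rw [hA, ← Real.rpow_natCast, ← Real.rpow_mul hX0.le]
    congr 1
    ring
  have h2k : (1 : ℝ) ≤ 2 ^ k := one_le_pow₀ (by norm_num)
  obtain ⟨P, hPd⟩ : ∃ P : ℝ, P = (2 * A) ^ k := ⟨_, rfl⟩
  have hP0 : 0 < P := by rw [hPd]; positivity
  have hPA : X ^ (k * θ) ≤ P := by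
    rw [hPd, mul_pow, hkθ]
    exact le_mul_of_one_le_left (by positivity) h2k
  -- the distance
  have d1 : ∫ β, ‖D1 β‖ ^ 2 ∂(mS k A) ≤ C1 * X ^ (k * θ + 2 - η / 4) := by
    refine to_real (by positivity) (cD1.norm.pow 2) (fun _ => sq_nonneg _) ?_
    rw [hD1]
    exact hE1 s X N c hcb hs v5 f1 f2 f3
  have d2 : ∫ β, ‖D2 β‖ ^ 2 ∂(mS k A) ≤ C2 * X ^ (k * θ + 2 - ρ / 2) := by
    refine to_real (by positivity) (cD2.norm.pow 2) (fun _ => sq_nonneg _) ?_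
    rw [hD2]
    exact hE2 s X N c hcb hs v6 hNA f3
  have d3 : ∫ β, ‖F β - G β‖ ^ 2 ∂(mS k A) ≤ (2 * C1 + 2 * C2) * P * X ^ (2 - ρ / 2) := by
    have h1 : ∫ β, ‖F β - G β‖ ^ 2 ∂(mS k A) ≤ ∫ β, (2 * ‖D1 β‖ ^ 2 + 2 * ‖D2 β‖ ^ 2) ∂(mS k A) := by
      refine integral_mono (int_cont ((cF.sub cG).norm.pow 2))
        (int_cont ((continuous_const.mul (cD1.norm.pow 2)).add (continuous_const.mul (cD2.norm.pow 2)))) fun β => ?_
      simp only
      rw [hFG]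
      exact sub_sq_le _ _
    have i1 : Integrable (fun β => ‖D1 β‖ ^ 2) (mS k A) := int_cont (cD1.norm.pow 2)
    have i2 : Integrable (fun β => ‖D2 β‖ ^ 2) (mS k A) := int_cont (cD2.norm.pow 2)
    rw [integral_add (i1.const_mul _) (i2.const_mul _), integral_const_mul, integral_const_mul] at h1
    have h4 : X ^ (k * θ + 2 - η / 4) ≤ P * X ^ (2 - ρ / 2) := by
      have h5 : X ^ (k * θ + 2 - η / 4) ≤ X ^ (k * θ) * X ^ (2 - ρ / 2) := by
        rw [← Real.rpow_add hX0]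
        exact Real.rpow_le_rpow_of_exponent_le hX1 (by linarith)
      exact h5.trans (mul_le_mul_of_nonneg_right hPA (by positivity))
    have h6 : X ^ (k * θ + 2 - ρ / 2) ≤ P * X ^ (2 - ρ / 2) := by
      have h5 : X ^ (k * θ + 2 - ρ / 2) ≤ X ^ (k * θ) * X ^ (2 - ρ / 2) := by
        rw [← Real.rpow_add hX0]
        exact Real.rpow_le_rpow_of_exponent_le hX1 (by linarith)
      exact h5.trans (mul_le_mul_of_nonneg_right hPA (by positivity))
    have h7 := mul_le_mul_of_nonneg_left h4 hC1.le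
    have h8 := mul_le_mul_of_nonneg_left h6 hC2.le
    calc _ ≤ _ := h1
      _ ≤ 2 * (C1 * (P * X ^ (2 - ρ / 2))) + 2 * (C2 * (P * X ^ (2 - ρ / 2))) := by linarith
      _ = _ := by ring
  -- the mean square of `G`
  obtain ⟨cc, hcc⟩ : ∃ cc : (Fin k → ℕ) → ℂ, cc = fun n =>
    Sc s X c (pr n) * (((pr n : ℕ) : ℝ) ^ (-(1 / 2) : ℝ) : ℝ) := ⟨_, rfl⟩
  have hGe : ∀ β, G β = ∑ n ∈ tup k N, cc n * FLp.chr n β := by
    intro β
    rw [hG]
    simp only [DiagA.expand, Finset.mul_sum]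
    rw [Finset.sum_comm]
    refine Finset.sum_congr rfl fun n hn => ?_
    have e1 : cx n β = ((((pr n : ℕ) : ℝ) ^ (-(1 / 2) : ℝ) : ℝ) : ℂ) * FLp.chr n β := by
      have e2 : ∀ j, (n j : ℂ) ^ (-(pt (β j))) = (((n j : ℝ) ^ (-(1 / 2) : ℝ) : ℝ) : ℂ) * (n j : ℂ) ^ (-(I * (β j : ℂ))) := by
        intro j
        have hn0 : (n j : ℂ) ≠ 0 := by
          have := (mem_tup.1 hn j).1
          exact_mod_cast (by omega : n j ≠ 0)
        unfold pt
        rw [neg_add, Complex.cpow_add _ _ hn0, Complex.ofReal_cpow (Nat.cast_nonneg _)]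
        push_cast
        rfl
      unfold cx FLp.chr
      rw [Finset.prod_congr rfl fun j _ => e2 j, Finset.prod_mul_distrib]
      congr 1
      unfold pr
      rw [Nat.cast_prod, ← Real.finsetProd_rpow _ _ (fun i _ => Nat.cast_nonneg _)]
      push_cast
      rfl
    rw [e1, hcc]
    simp only
    unfold Sc pr
    rw [Finset.sum_mul, Finset.sum_mul]
    refine Finset.sum_congr rfl fun q _ => ?_
    ring
  have hcc2 : ∀ n ∈ tup k N, ‖cc n‖ ^ 2 = ‖Sc s X c (pr n)‖ ^ 2 / pr n := by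
    intro n hn
    have h1 : (0 : ℝ) < pr n := by exact_mod_cast one_le_pr hn
    rw [hcc]
    simp only [norm_mul, Complex.norm_real]
    rw [Real.norm_of_nonneg (by positivity), mul_pow, ← Real.rpow_natCast (((pr n : ℕ) : ℝ) ^ (-(1 / 2) : ℝ)),
      ← Real.rpow_mul h1.le]
    norm_num
    rw [Real.rpow_neg_one]
    rfl
  have hcc1 : ∀ n ∈ tup k N, ‖cc n‖ ≤ X := by
    intro n hn
    have h1 : (1 : ℝ) ≤ pr n := by exact_mod_cast one_le_pr hn
    rw [hcc]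
    simp only [norm_mul, Complex.norm_real]
    rw [Real.norm_of_nonneg (by positivity)]
    have h2 : ((pr n : ℕ) : ℝ) ^ (-(1 / 2) : ℝ) ≤ 1 := Real.rpow_le_one_of_one_le_of_nonpos h1 (by norm_num)
    calc ‖Sc s X c (pr n)‖ * ((pr n : ℕ) : ℝ) ^ (-(1 / 2) : ℝ) ≤ X * 1 :=
          mul_le_mul (Sc_le hX1 hcb _) h2 (by positivity) hX0.le
      _ = X := mul_one X
  obtain ⟨dd, hdd⟩ : ∃ dd : (Fin k → ℕ) → ℂ, dd = fun n => if pr n ≤ Y then 0 else cc n := ⟨_, rfl⟩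
  have hDe : ∀ β, G β - DY k s X c Y β = ∑ n ∈ tup k N, dd n * FLp.chr n β := by
    intro β
    have e1 : DY k s X c Y β = ∑ n ∈ (tup k N).filter (fun n => pr n ≤ Y), cc n * FLp.chr n β := by
      have e2 : (tup k Y).filter (fun n => pr n ≤ Y) = (tup k N).filter (fun n => pr n ≤ Y) := by
        ext n
        rw [Finset.mem_filter, Finset.mem_filter, mem_tup, mem_tup]
        constructor
        · rintro ⟨h1, h2⟩
          exact ⟨fun j => ⟨(h1 j).1, (h1 j).2.trans hYN⟩, h2⟩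
        · rintro ⟨h1, h2⟩
          refine ⟨fun j => ⟨(h1 j).1, ?_⟩, h2⟩
          refine le_trans (Nat.le_of_dvd ?_ (Finset.dvd_prod_of_mem n (Finset.mem_univ j))) h2
          have := one_le_pr (mem_tup.2 h1)
          exact this
      unfold DY
      rw [e2]
      refine Finset.sum_congr rfl fun n hn => ?_
      rw [cx_eq (Finset.mem_filter.1 hn).1, hcc]
      simp only
      ring
    rw [hGe, e1, Finset.sum_filter, ← Finset.sum_sub_distrib]
    refine Finset.sum_congr rfl fun n _ => ?_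
    rw [hdd]
    simp only
    split_ifs
    · rw [sub_self, zero_mul]
    · rw [sub_zero]
  have hdd1 : ∀ n, ‖dd n‖ ≤ ‖cc n‖ := by
    intro n
    rw [hdd]
    simp only
    split_ifs
    · rw [norm_zero]
      exact norm_nonneg _
    · exact le_rfl
  have hb := FL2 k N A dd f3 hA0
  simp only [← hDe] at hb
  rw [← hPd] at hb
  have hNk : (N : ℝ) ^ k ≤ X ^ (1 / 8 : ℝ) := by
    calc (N : ℝ) ^ k ≤ (X ^ η) ^ k := pow_le_pow_left₀ hN0.le f2 _
      _ = X ^ (k * η) := by rw [← Real.rpow_natCast, ← Real.rpow_mul hX0.le]; congr 1; ring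
      _ ≤ X ^ (1 / 8 : ℝ) := Real.rpow_le_rpow_of_exponent_le hX1 hkη
  have hX74 : X ^ (7 / 4 : ℝ) * (N : ℝ) ^ k ≤ X ^ 2 * X ^ (-(1 / 8) : ℝ) := by
    calc X ^ (7 / 4 : ℝ) * (N : ℝ) ^ k ≤ X ^ (7 / 4 : ℝ) * X ^ (1 / 8 : ℝ) :=
          mul_le_mul_of_nonneg_left hNk (by positivity)
      _ = X ^ 2 * X ^ (-(1 / 8) : ℝ) := by
          rw [← Real.rpow_natCast X 2, ← Real.rpow_add hX0, ← Real.rpow_add hX0]
          norm_num
  have hX2 : 0 < X ^ 2 := by positivity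
  have herr : 4 * N * (2 * A) ^ (k - 1 : ℝ) * (∑ ν ∈ tup k N, ‖dd ν‖) ^ 2 ≤ P * (2 * (X ^ 2 * X ^ (-(θ / 2)))) := by
    have h1 : ∑ ν ∈ tup k N, ‖dd ν‖ ≤ X * (N : ℝ) ^ k := by
      refine (Finset.sum_le_sum fun n hn => (hdd1 n).trans (hcc1 n hn)).trans ?_
      rw [Finset.sum_const, tup_card, nsmul_eq_mul]
      push_cast
      linarith
    have h2 : (∑ ν ∈ tup k N, ‖dd ν‖) ^ 2 ≤ (X * (N : ℝ) ^ k) ^ 2 :=
      pow_le_pow_left₀ (Finset.sum_nonneg fun _ _ => norm_nonneg _) h1 2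
    have h3 : (2 * A) ^ (k - 1 : ℝ) * (2 * A) = P := by
      rw [hPd, ← Real.rpow_natCast]
      nth_rewrite 2 [← Real.rpow_one (2 * A)]
      rw [← Real.rpow_add (by positivity)]
      congr 1
      ring
    have h4 : (N : ℝ) * ((N : ℝ) ^ k) ^ 2 ≤ A * X ^ (-(θ / 2)) := by
      have e1 : (N : ℝ) * ((N : ℝ) ^ k) ^ 2 = (N : ℝ) ^ (2 * k + 1) := by ring
      rw [e1]
      calc (N : ℝ) ^ (2 * k + 1) ≤ (X ^ η) ^ (2 * k + 1) := pow_le_pow_left₀ hN0.le f2 _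
        _ = X ^ ((2 * k + 1) * η) := by
            rw [← Real.rpow_natCast, ← Real.rpow_mul hX0.le]
            congr 1
            push_cast
            ring
        _ ≤ X ^ (θ / 2) := Real.rpow_le_rpow_of_exponent_le hX1 hkη2
        _ = A * X ^ (-(θ / 2)) := by
            rw [hA, ← Real.rpow_add hX0]
            congr 1
            ring
    have h5 : 0 < (2 * A) ^ (k - 1 : ℝ) := by positivity
    calc 4 * N * (2 * A) ^ (k - 1 : ℝ) * (∑ ν ∈ tup k N, ‖dd ν‖) ^ 2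
        ≤ 4 * N * (2 * A) ^ (k - 1 : ℝ) * (X * (N : ℝ) ^ k) ^ 2 := mul_le_mul_of_nonneg_left h2 (by positivity)
      _ = 4 * (2 * A) ^ (k - 1 : ℝ) * X ^ 2 * ((N : ℝ) * ((N : ℝ) ^ k) ^ 2) := by ring
      _ ≤ 4 * (2 * A) ^ (k - 1 : ℝ) * X ^ 2 * (A * X ^ (-(θ / 2))) :=
          mul_le_mul_of_nonneg_left h4 (by positivity)
      _ = ((2 * A) ^ (k - 1 : ℝ) * (2 * A)) * (2 * (X ^ 2 * X ^ (-(θ / 2)))) := by ring
      _ = _ := by rw [h3]
  have hb2 := hb.trans herr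
  have htl := hTl s X c N Y ((tup k N).filter (fun n => ¬ pr n ≤ Y)) hs hX1 hcb hY1R (Finset.filter_subset _ _)
    (fun n hn => by
      rw [Finset.mem_filter] at hn
      exact_mod_cast (not_le.1 hn.2).le)
  have hddS : ∑ n ∈ tup k N, ‖dd n‖ ^ 2 = ∑ n ∈ (tup k N).filter (fun n => ¬ pr n ≤ Y), ‖Sc s X c (pr n)‖ ^ 2 / pr n := by
    rw [Finset.sum_filter]
    refine Finset.sum_congr rfl fun n hn => ?_
    rw [← hcc2 n hn, hdd]
    by_cases h : pr n ≤ Y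
    · simp [h]
    · simp [h]
  -- everything in terms of `Y`
  have y1 : X ^ (-(1 / 8) : ℝ) ≤ (Y : ℝ) ^ (-(1 / 8) : ℝ) := by
    refine Real.rpow_le_rpow_of_nonpos hY0 (hYX.trans ?_) (by norm_num)
    calc X ^ ρ ≤ X ^ (1 : ℝ) := Real.rpow_le_rpow_of_exponent_le hX1 (by linarith)
      _ = X := Real.rpow_one X
  have y2 : X ^ (-(ρ / 2)) ≤ (Y : ℝ) ^ (-(1 / 8) : ℝ) := by
    have h1 : (X ^ ρ) ^ (-(1 / 8) : ℝ) ≤ (Y : ℝ) ^ (-(1 / 8) : ℝ) :=
      Real.rpow_le_rpow_of_nonpos hY0 hYX (by norm_num)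
    refine le_trans ?_ h1
    rw [← Real.rpow_mul hX0.le]
    exact Real.rpow_le_rpow_of_exponent_le hX1 (by linarith)
  have y3 : X ^ (-(θ / 2)) ≤ (Y : ℝ) ^ (-(1 / 8) : ℝ) := by
    refine le_trans ?_ y2
    exact Real.rpow_le_rpow_of_exponent_le hX1 (by linarith)
  obtain ⟨y, hy⟩ : ∃ y : ℝ, y = X ^ 2 * (Y : ℝ) ^ (-(1 / 8) : ℝ) := ⟨_, rfl⟩
  have z1 : X ^ 2 * X ^ (-(1 / 8) : ℝ) ≤ y := by rw [hy]; exact mul_le_mul_of_nonneg_left y1 hX2.le
  have z2 : X ^ (2 - ρ / 2) ≤ y := by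
    rw [hy, sub_eq_add_neg, Real.rpow_add hX0, Real.rpow_two]
    exact mul_le_mul_of_nonneg_left y2 hX2.le
  have z3 : X ^ 2 * X ^ (-(θ / 2)) ≤ y := by rw [hy]; exact mul_le_mul_of_nonneg_left y3 hX2.le
  rw [← hy] at htl
  have t1 : ∑ n ∈ tup k N, ‖dd n‖ ^ 2 ≤ 2 * C3 * y := by
    rw [hddS]
    refine htl.trans ?_
    have h1 := hX74.trans z1
    calc C3 * (y + X ^ (7 / 4 : ℝ) * (N : ℝ) ^ k) ≤ C3 * (y + y) :=
          mul_le_mul_of_nonneg_left (by linarith) hC3.le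
      _ = 2 * C3 * y := by ring
  have w2 : ∫ β, ‖G β - DY k s X c Y β‖ ^ 2 ∂(mS k A) ≤ P * ((2 + 2 * C3) * y) := by
    have h1 := (abs_le.1 hb2).2
    have h2 := mul_le_mul_of_nonneg_left t1 hP0.le
    have h3 := mul_le_mul_of_nonneg_left z3 (by positivity : 0 ≤ P * 2)
    linarith
  have w1 : ∫ β, ‖F β - G β‖ ^ 2 ∂(mS k A) ≤ P * ((2 * C1 + 2 * C2) * y) := by
    refine d3.trans ?_
    have h3 := mul_le_mul_of_nonneg_left z2 (by positivity : 0 ≤ (2 * C1 + 2 * C2) * P)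
    linarith
  have cDY := DY_cont k s X c Y
  have w3 : ∫ β, ‖F β - DY k s X c Y β‖ ^ 2 ∂(mS k A) ≤
      ∫ β, (2 * ‖F β - G β‖ ^ 2 + 2 * ‖G β - DY k s X c Y β‖ ^ 2) ∂(mS k A) := by
    refine integral_mono (int_cont ((cF.sub cDY).norm.pow 2))
      (int_cont ((continuous_const.mul ((cF.sub cG).norm.pow 2)).add
        (continuous_const.mul ((cG.sub cDY).norm.pow 2)))) fun β => ?_
    simp only
    have h1 := sub_sq_le (F β - G β) (-(G β - DY k s X c Y β))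
    rw [norm_neg] at h1
    have h2 : F β - G β - -(G β - DY k s X c Y β) = F β - DY k s X c Y β := by ring
    rwa [h2] at h1
  have i1 : Integrable (fun β => ‖F β - G β‖ ^ 2) (mS k A) := int_cont ((cF.sub cG).norm.pow 2)
  have i2 : Integrable (fun β => ‖G β - DY k s X c Y β‖ ^ 2) (mS k A) := int_cont ((cG.sub cDY).norm.pow 2)
  rw [integral_add (i1.const_mul _) (i2.const_mul _), integral_const_mul, integral_const_mul] at w3
  rw [hF] at w3
  simp only at w3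
  refine w3.trans ?_
  rw [hF] at w1
  rw [← hPd, ← hy]
  simp only at w1
  calc _ ≤ 2 * (P * ((2 * C1 + 2 * C2) * y)) + 2 * (P * ((2 + 2 * C3) * y)) := by linarith
    _ = _ := by ring

end

end Pool.Agent.J4.H50.EA
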