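import Pool.Agent.J4.H50.EA.W8

/-! Smallness in measure and correlations. -/

set_option autoImplicit false

namespace Pool.Agent.J4.H50.EA

open Complex Filter Topology MeasureTheory Set
open Pool.Agent.N879.QM
open Pool.Agent.N879.QM.FLp

noncomputable section

variable {k : ℕ}

/-- the coefficients of a Dirichlet polynomial -/
theorem coeff (k N : ℕ) (T : ℝ) (c : (Fin k → ℕ) → ℂ) (hN : 1 ≤ N) (hT : 0 < T) {ν₀ : Fin k → ℕ}
    (hν₀ : ν₀ ∈ tup k N) :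
    (2 * T) ^ k * ‖c ν₀‖ ≤ ‖∫ γ, (∑ ν ∈ tup k N, c ν * chr ν γ) * (starRingEnd ℂ) (chr ν₀ γ) ∂(mS k T)‖ +
      4 * N * (2 * T) ^ (k - 1 : ℝ) * ∑ ν ∈ tup k N, ‖c ν‖ := by
  classical
  have := fin_mS k T
  have hT2 : 0 < 2 * T := by linarith
  have h1 : ∫ γ, (∑ ν ∈ tup k N, c ν * chr ν γ) * (starRingEnd ℂ) (chr ν₀ γ) ∂(mS k T) =
      ∑ ν ∈ tup k N, c ν * ∏ i, EE T (th ν i - th ν₀ i) := by
    simp only [Finset.sum_mul, mul_assoc]
    have hi : ∀ ν ∈ tup k N, Integrable (fun γ : Fin k → ℝ =>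
        c ν * (chr ν γ * (starRingEnd ℂ) (chr ν₀ γ))) (mS k T) := by
      intro ν hν
      apply Integrable.const_mul
      apply Integrable.of_bound ((ch_cont hν).mul
        (Complex.continuous_conj.comp (ch_cont hν₀))).aestronglyMeasurable (C := 1)
      refine ae_of_all _ fun γ => ?_
      show ‖chr ν γ * (starRingEnd ℂ) (chr ν₀ γ)‖ ≤ 1
      rw [norm_mul, RCLike.norm_conj, ch_norm hν, ch_norm hν₀]
      norm_num
    rw [integral_finsetSum _ fun ν hν => hi ν hν]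
    refine Finset.sum_congr rfl fun ν hν => ?_
    rw [integral_const_mul, int_ch hν hν₀]
  rw [h1, ← Finset.add_sum_erase _ _ hν₀, prod_diag hT]
  have hP : 0 < (2 * T) ^ (k - 1 : ℝ) := Real.rpow_pos_of_pos hT2 _
  have h2 : ‖∑ ν ∈ (tup k N).erase ν₀, c ν * ∏ i, EE T (th ν i - th ν₀ i)‖ ≤
      4 * N * (2 * T) ^ (k - 1 : ℝ) * ∑ ν ∈ tup k N, ‖c ν‖ := by
    refine (norm_sum_le _ _).trans ?_
    rw [Finset.mul_sum]
    refine le_trans (Finset.sum_le_sum fun ν hν => ?_)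
      (Finset.sum_le_sum_of_subset_of_nonneg (Finset.erase_subset ν₀ (tup k N)) fun ν _ _ => by positivity)
    rw [norm_mul, mul_comm]
    exact mul_le_mul_of_nonneg_right
      (prod_bound hT hN (Finset.mem_of_mem_erase hν) hν₀ (Finset.ne_of_mem_erase hν)) (norm_nonneg _)
  have h3 : ‖c ν₀ * ((2 * T : ℝ) : ℂ) ^ k‖ = (2 * T) ^ k * ‖c ν₀‖ := by
    rw [norm_mul, norm_pow, Complex.norm_real, Real.norm_of_nonneg hT2.le, mul_comm]
  rw [← h3]
  obtain ⟨u, hu⟩ : ∃ u, u = c ν₀ * ((2 * T : ℝ) : ℂ) ^ k := ⟨_, rfl⟩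
  obtain ⟨v, hv⟩ : ∃ v, v = ∑ ν ∈ (tup k N).erase ν₀, c ν * ∏ i, EE T (th ν i - th ν₀ i) := ⟨_, rfl⟩
  rw [← hu, ← hv]
  rw [← hv] at h2
  have h4 : ‖u‖ ≤ ‖u + v‖ + ‖v‖ := by
    have := norm_sub_le (u + v) v
    rwa [add_sub_cancel_right] at this
  linarith

lemma real_mS {A : ℝ} (hA : 0 < A) : (mS k A).real univ = (2 * A) ^ k := by
  unfold Measure.real mS
  rw [Measure.pi_univ]
  simp only [Measure.restrict_apply_univ, Real.volume_Icc, Finset.prod_const, Finset.card_univ, Fintype.card_fin]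
  rw [ENNReal.toReal_pow, ENNReal.toReal_ofReal (by linarith)]
  congr 1
  ring

/-- the mean of a function which is small in measure -/
lemma l1 {A : ℝ} (hA : 0 < A) {F : (Fin k → ℝ) → ℂ} (hF : Continuous F) {a l m B : ℝ} (ha : 0 ≤ a) (hl : 0 < l)
    (hm : 0 ≤ m) (h1 : mS k A {β | a < ‖F β‖} ≤ ENNReal.ofReal m) (h2 : ∫ β, ‖F β‖ ^ 2 ∂(mS k A) ≤ B) :
    ∫ β, ‖F β‖ ∂(mS k A) ≤ (2 * A) ^ k * a + l * m + B / l := by
  have := fin_mS k A
  have hms : MeasurableSet {β : Fin k → ℝ | a < ‖F β‖} := (isOpen_lt continuous_const hF.norm).measurableSet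
  have i1 : Integrable (fun β => ‖F β‖ ^ 2) (mS k A) := int_cont (hF.norm.pow 2)
  have i2 : Integrable ({β : Fin k → ℝ | a < ‖F β‖}.indicator fun _ => l) (mS k A) :=
    (integrable_const l).indicator hms
  have i3 : Integrable (fun _ : Fin k → ℝ => a) (mS k A) := integrable_const a
  have h3 : ∫ β, ‖F β‖ ∂(mS k A) ≤ ∫ β, (a + {β : Fin k → ℝ | a < ‖F β‖}.indicator (fun _ => l) β +
      1 / l * ‖F β‖ ^ 2) ∂(mS k A) := by
    refine integral_mono (int_cont hF.norm) ((i3.add i2).add (i1.const_mul _)) fun β => ?_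
    simp only
    by_cases hb : a < ‖F β‖
    · have h4 : β ∈ {β : Fin k → ℝ | a < ‖F β‖} := hb
      rw [indicator_of_mem h4]
      have h5 : 0 ≤ (‖F β‖ - l) ^ 2 / l := by positivity
      have h6 : (‖F β‖ - l) ^ 2 / l = 1 / l * ‖F β‖ ^ 2 - 2 * ‖F β‖ + l := by
        field_simp
        ring
      have h7 := norm_nonneg (F β)
      linarith
    · have h4 : β ∉ {β : Fin k → ℝ | a < ‖F β‖} := hb
      rw [indicator_of_notMem h4]
      have : 0 ≤ 1 / l * ‖F β‖ ^ 2 := by positivity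
      linarith [not_lt.1 hb]
  have i4 : Integrable (fun β => a + {β : Fin k → ℝ | a < ‖F β‖}.indicator (fun _ => l) β) (mS k A) := i3.add i2
  rw [integral_add i4 (i1.const_mul _), integral_add i3 i2, integral_const_mul, integral_const,
    integral_indicator_const l hms, smul_eq_mul, smul_eq_mul, real_mS hA] at h3
  have h4 : (mS k A).real {β : Fin k → ℝ | a < ‖F β‖} ≤ m := by
    unfold Measure.real
    exact ENNReal.toReal_le_of_le_ofReal hm h1
  have h5 : 1 / l * ∫ β, ‖F β‖ ^ 2 ∂(mS k A) ≤ B / l := by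
    rw [one_div_mul_eq_div]
    exact div_le_div_of_nonneg_right h2 hl.le
  have h6 := mul_le_mul_of_nonneg_right h4 hl.le
  linarith

/-- the mean of a function with small mean square -/
lemma l1' {A : ℝ} (hA : 0 < A) {F : (Fin k → ℝ) → ℂ} (hF : Continuous F) {l B : ℝ} (hl : 0 < l)
    (h2 : ∫ β, ‖F β‖ ^ 2 ∂(mS k A) ≤ B) : ∫ β, ‖F β‖ ∂(mS k A) ≤ (2 * A) ^ k * l + B / l := by
  have := fin_mS k A
  have i1 : Integrable (fun β => ‖F β‖ ^ 2) (mS k A) := int_cont (hF.norm.pow 2)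
  have i3 : Integrable (fun _ : Fin k → ℝ => l) (mS k A) := integrable_const l
  have h3 : ∫ β, ‖F β‖ ∂(mS k A) ≤ ∫ β, (l + 1 / l * ‖F β‖ ^ 2) ∂(mS k A) := by
    refine integral_mono (int_cont hF.norm) (i3.add (i1.const_mul _)) fun β => ?_
    simp only
    have h5 : 0 ≤ (‖F β‖ - l) ^ 2 / l := by positivity
    have h6 : (‖F β‖ - l) ^ 2 / l = 1 / l * ‖F β‖ ^ 2 - 2 * ‖F β‖ + l := by
      field_simp
      ring
    have h7 := norm_nonneg (F β)
    linarith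
  rw [integral_add i3 (i1.const_mul _), integral_const_mul, integral_const, smul_eq_mul, real_mS hA] at h3
  have h5 : 1 / l * ∫ β, ‖F β‖ ^ 2 ∂(mS k A) ≤ B / l := by
    rw [one_div_mul_eq_div]
    exact div_le_div_of_nonneg_right h2 hl.le
  linarith

/-- small in measure -/
def Sm (k : ℕ) (θ : ℝ) (H : ℝ → (Fin k → ℝ) → ℂ) : Prop :=
  ∀ ε : ℝ, 0 < ε → ∃ X₁ : ℝ, ∀ X : ℝ, X₁ ≤ X →
    mS k (X ^ θ) {β | ε * X < ‖H X β‖} ≤ ENNReal.ofReal (ε * X ^ (k * θ))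

lemma Sm.add {θ : ℝ} {H K : ℝ → (Fin k → ℝ) → ℂ} (h1 : Sm k θ H) (h2 : Sm k θ K) :
    Sm k θ (fun X β => H X β + K X β) := by
  intro ε hε
  obtain ⟨X₁, h1⟩ := h1 (ε / 2) (by positivity)
  obtain ⟨X₂, h2⟩ := h2 (ε / 2) (by positivity)
  refine ⟨max 0 (max X₁ X₂), fun X hX => ?_⟩
  have hX0 : 0 ≤ X := (le_max_left _ _).trans hX
  have h3 := h1 X ((le_max_left _ _).trans ((le_max_right _ _).trans hX))
  have h4 := h2 X ((le_max_right _ _).trans ((le_max_right _ _).trans hX))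
  have hsub : {β | ε * X < ‖H X β + K X β‖} ⊆ {β | ε / 2 * X < ‖H X β‖} ∪ {β | ε / 2 * X < ‖K X β‖} := by
    intro β hβ
    by_contra hcon
    rw [mem_union, not_or] at hcon
    have h5 : ‖H X β‖ ≤ ε / 2 * X := not_lt.1 hcon.1
    have h6 : ‖K X β‖ ≤ ε / 2 * X := not_lt.1 hcon.2
    have h7 : ε * X < ‖H X β + K X β‖ := hβ
    have h8 := norm_add_le (H X β) (K X β)
    linarith
  refine (measure_mono hsub).trans ((measure_union_le _ _).trans ((add_le_add h3 h4).trans ?_))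
  rw [← ENNReal.ofReal_add (by positivity) (by positivity)]
  exact ENNReal.ofReal_le_ofReal (by linarith)

lemma Sm.const_mul {θ : ℝ} {H : ℝ → (Fin k → ℝ) → ℂ} {a : ℝ → ℂ} {R : ℝ} (haR : ∀ X, ‖a X‖ ≤ R) (h1 : Sm k θ H) :
    Sm k θ (fun X β => a X * H X β) := by
  intro ε hε
  have ha := (norm_nonneg (a 0)).trans (haR 0)
  have ha1 : 0 < 1 + R := by linarith
  obtain ⟨X₁, h1⟩ := h1 (ε / (1 + R)) (by positivity)
  refine ⟨max 0 X₁, fun X hX => ?_⟩
  have hX0 : 0 ≤ X := (le_max_left _ _).trans hX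
  have h3 := h1 X ((le_max_right _ _).trans hX)
  have h4 : ε / (1 + R) ≤ ε := div_le_self hε.le (by linarith)
  refine (measure_mono ?_).trans (h3.trans (ENNReal.ofReal_le_ofReal (by
    exact mul_le_mul_of_nonneg_right h4 (by positivity))))
  intro β hβ
  by_contra hcon
  have h5 : ‖H X β‖ ≤ ε / (1 + R) * X := not_lt.1 hcon
  have h6 : ε * X < ‖a X * H X β‖ := hβ
  rw [norm_mul] at h6
  have h7 : ‖a X‖ * ‖H X β‖ ≤ (1 + R) * (ε / (1 + R) * X) :=
    mul_le_mul (by linarith [haR X]) h5 (norm_nonneg _) ha1.le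
  have h8 : (1 + R) * (ε / (1 + R) * X) = ε * X := by
    field_simp
  linarith

lemma Sm.congr {θ : ℝ} {H K : ℝ → (Fin k → ℝ) → ℂ} (h : ∀ X β, H X β = K X β) (h1 : Sm k θ H) : Sm k θ K := by
  have : H = K := by
    ext X β
    exact h X β
  rwa [← this]

lemma Sm.of_pow {θ δ : ℝ} (hδ : 0 < δ) {H : ℝ → (Fin k → ℝ) → ℂ} {X₀ : ℝ} (h1 : ∀ X : ℝ, X₀ ≤ X →
    mS k (X ^ θ) {β | X ^ (1 - δ) < ‖H X β‖} ≤ ENNReal.ofReal (X ^ (k * θ - δ))) : Sm k θ H := by
  intro ε hε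
  have ev1 : ∀ᶠ X : ℝ in atTop, X ^ (-δ) ≤ ε := (tendsto_rpow_neg_atTop hδ).eventually_le_const hε
  obtain ⟨X₁, hX₁⟩ := eventually_atTop.1 ((ev1.and (eventually_ge_atTop X₀)).and (eventually_gt_atTop 0))
  refine ⟨X₁, fun X hX => ?_⟩
  obtain ⟨⟨v1, v2⟩, v3⟩ := hX₁ X hX
  refine (measure_mono ?_).trans ((h1 X v2).trans (ENNReal.ofReal_le_ofReal ?_))
  · intro β hβ
    have h2 : ε * X < ‖H X β‖ := hβ
    show X ^ (1 - δ) < ‖H X β‖
    refine lt_of_le_of_lt ?_ h2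
    rw [sub_eq_add_neg, add_comm, Real.rpow_add v3, Real.rpow_one]
    exact mul_le_mul_of_nonneg_right v1 v3.le
  · rw [sub_eq_add_neg, add_comm, Real.rpow_add v3]
    exact mul_le_mul_of_nonneg_right v1 (by positivity)

end

end Pool.Agent.J4.H50.EA
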